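import Mathlib

/-!
# Reduction of rational spaces of functions modulo a prime number
-/

set_option linter.unusedSectionVars false
set_option linter.unusedVariables false

namespace Pool.Agent.TH170.QC

open Finset Module

variable {Y : Type*}

/-- The reductions modulo `p` of the integer valued functions in a rational space. -/
def redSpace (p : ℕ) [Fact p.Prime] (W : Submodule ℚ (Y → ℚ)) :
    Submodule (ZMod p) (Y → ZMod p) where
  carrier := {v | ∃ w : Y → ℤ, (fun y => (w y : ℚ)) ∈ W ∧ (fun y => ((w y : ℤ) : ZMod p)) = v}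
  add_mem' := by
    rintro _ _ ⟨w, hw, rfl⟩ ⟨w', hw', rfl⟩
    refine ⟨w + w', ?_, ?_⟩
    · have h1 := W.add_mem hw hw'
      have h2 : (fun y => (((w + w') y : ℤ) : ℚ)) = (fun y => (w y : ℚ)) + fun y => (w' y : ℚ) := by
        funext y
        push_cast [Pi.add_apply]
        rfl
      rw [h2]
      exact h1
    · funext y
      push_cast [Pi.add_apply]
      rfl
  zero_mem' := by
    refine ⟨0, ?_, ?_⟩
    · have h2 : (fun y => (((0 : Y → ℤ) y : ℤ) : ℚ)) = 0 := by
        funext y
        simp
      rw [h2]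
      exact W.zero_mem
    · funext y
      simp
  smul_mem' := by
    rintro a _ ⟨w, hw, rfl⟩
    refine ⟨fun y => (a.val : ℤ) * w y, ?_, ?_⟩
    · have h1 := W.smul_mem (a.val : ℚ) hw
      have h2 : (fun y => (((a.val : ℤ) * w y : ℤ) : ℚ)) = (a.val : ℚ) • fun y => (w y : ℚ) := by
        funext y
        push_cast
        rfl
      rw [h2]
      exact h1
    · funext y
      rw [Pi.smul_apply, smul_eq_mul]
      push_cast
      rw [ZMod.natCast_zmod_val]

variable {p : ℕ} [Fact p.Prime] [Fintype Y]

theorem linearIndependent_of_red {ι : Type*} [Fintype ι] (w : ι → Y → ℤ)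
    (h : LinearIndependent (ZMod p) (fun i => fun y => ((w i y : ℤ) : ZMod p))) :
    LinearIndependent ℚ (fun i => fun y => (w i y : ℚ)) := by
  classical
  rw [← LinearIndependent.iff_fractionRing ℤ ℚ, Fintype.linearIndependent_iff]
  intro a ha
  by_contra hcon
  push Not at hcon
  obtain ⟨i₀, hi₀⟩ := hcon
  obtain ⟨b, hb, hgcd⟩ := Finset.extract_gcd a (s := univ) ⟨i₀, mem_univ _⟩
  set m := Finset.gcd univ a with hm
  have hm0 : m ≠ 0 := by
    intro h0
    apply hi₀
    rw [hb i₀ (mem_univ _), h0, zero_mul]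
  have hz : ∀ y, ∑ i, b i * w i y = 0 := by
    intro y
    have h1 := congrFun ha y
    rw [Finset.sum_apply, Pi.zero_apply] at h1
    have h2 : ∀ i, (a i • fun y => (w i y : ℚ)) y = ((m * (b i * w i y) : ℤ) : ℚ) := by
      intro i
      rw [Pi.smul_apply, zsmul_eq_mul, hb i (mem_univ _)]
      push_cast
      ring
    rw [sum_congr rfl fun i _ => h2 i, ← Int.cast_sum, ← mul_sum] at h1
    have h3 : m * ∑ i, b i * w i y = 0 := by exact_mod_cast h1
    exact (mul_eq_zero.1 h3).resolve_left hm0
  have h1 := Fintype.linearIndependent_iff.1 h (fun i => ((b i : ℤ) : ZMod p)) (by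
    funext y
    rw [Finset.sum_apply, Pi.zero_apply]
    have h2 := congrArg (fun t : ℤ => (t : ZMod p)) (hz y)
    push_cast at h2
    rw [← h2]
    refine sum_congr rfl fun i _ => ?_
    rw [Pi.smul_apply, smul_eq_mul])
  have h2 : (p : ℤ) ∣ Finset.gcd univ b := by
    refine Finset.dvd_gcd fun i _ => ?_
    exact (ZMod.intCast_zmod_eq_zero_iff_dvd (b i) p).1 (h1 i)
  rw [hgcd] at h2
  have h3 : (p : ℤ) ≤ 1 := Int.le_of_dvd one_pos h2
  have h4 := (Fact.out : p.Prime).two_le
  omega

theorem finrank_redSpace_le (W : Submodule ℚ (Y → ℚ)) :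
    finrank (ZMod p) (redSpace p W) ≤ finrank ℚ W := by
  classical
  let b := Module.finBasis (ZMod p) (redSpace p W)
  choose w hw hwb using fun i => (b i).2
  have h1 : LinearIndependent (ZMod p) (fun i => fun y => ((w i y : ℤ) : ZMod p)) := by
    have h2 : (fun i => fun y => ((w i y : ℤ) : ZMod p)) =
        (redSpace p W).subtype ∘ b := by
      funext i
      exact hwb i
    rw [h2]
    exact b.linearIndependent.map' _ (Submodule.ker_subtype _)
  have h2 := linearIndependent_of_red w h1
  have h3 : LinearIndependent ℚ (fun i => (⟨fun y => (w i y : ℚ), hw i⟩ : W)) :=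
    LinearIndependent.of_comp W.subtype h2
  have h4 := h3.fintype_card_le_finrank
  rwa [Fintype.card_fin] at h4

end Pool.Agent.TH170.QC
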