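import Mathlib
import Pool.Agent.TH170.QC.Red

/-!
# Class functions and the centre of the group algebra
-/

set_option linter.unusedSectionVars false
set_option linter.unusedVariables false

namespace Pool.Agent.TH170.QC

open Finset Module

section cls

variable {R G : Type*} [CommRing R] [Group G] [Fintype G]

/-- The element of the group algebra with given coefficients. -/
noncomputable def el (a : G → R) : MonoidAlgebra R G := ∑ γ, MonoidAlgebra.single γ (a γ)

theorem coeff_el (a : G → R) (γ : G) : (el a).coeff γ = a γ := by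
  classical
  have h1 : (el a).coeff = ∑ δ, (MonoidAlgebra.single δ (a δ) : MonoidAlgebra R G).coeff :=
    map_sum (MonoidAlgebra.coeffAddEquiv (R := R) (M := G)) _ _
  rw [h1, Finsupp.finsetSum_apply]
  simp [Finsupp.single_apply]

theorem eq_el (x : MonoidAlgebra R G) : x = el (fun γ => x.coeff γ) := by
  ext γ
  rw [coeff_el]

theorem el_injective : Function.Injective (el : (G → R) → MonoidAlgebra R G) := by
  intro a b h
  funext γ
  rw [← coeff_el a, h, coeff_el]

theorem coeff_mul_right (x y : MonoidAlgebra R G) (h : G) :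
    (x * y).coeff h = ∑ k, x.coeff (h * k⁻¹) * y.coeff k := by
  rw [MonoidAlgebra.coeff_mul_apply_right, Finsupp.sum_fintype]
  intro k
  rw [mul_zero]

theorem coeff_mul_left (x y : MonoidAlgebra R G) (h : G) :
    (x * y).coeff h = ∑ k, x.coeff k * y.coeff (k⁻¹ * h) := by
  rw [MonoidAlgebra.coeff_mul_apply_left, Finsupp.sum_fintype]
  intro k
  rw [zero_mul]

/-- The element of the centre given by a class function. -/
noncomputable def cls (b : ConjClasses G → R) : MonoidAlgebra R G :=
  el (fun γ => b (ConjClasses.mk γ))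

theorem cls_comm (b : ConjClasses G → R) (x : MonoidAlgebra R G) : cls b * x = x * cls b := by
  ext h
  rw [coeff_mul_right, coeff_mul_left]
  refine sum_congr rfl fun k _ => ?_
  rw [cls, coeff_el, coeff_el, mul_comm]
  congr 2
  rw [ConjClasses.mk_eq_mk_iff_isConj]
  refine isConj_iff.2 ⟨k⁻¹, ?_⟩
  group

/-- The coefficients of a central element as a class function. -/
noncomputable def coefCls (x : MonoidAlgebra R G) : ConjClasses G → R :=
  fun C => x.coeff (Quotient.out C)

theorem eq_cls {x : MonoidAlgebra R G} (hx : ∀ y, x * y = y * x) : x = cls (coefCls x) := by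
  ext γ
  rw [cls, coeff_el, coefCls]
  have h1 : IsConj (Quotient.out (ConjClasses.mk γ)) γ := by
    rw [← ConjClasses.mk_eq_mk_iff_isConj]
    exact Quotient.out_eq _
  obtain ⟨δ, hδ⟩ := isConj_iff.1 h1
  set γ' := Quotient.out (ConjClasses.mk γ) with hγ'
  have h2 := congrArg (fun z : MonoidAlgebra R G => z.coeff (δ * γ'))
    (hx (MonoidAlgebra.single δ 1))
  simp only [MonoidAlgebra.coeff_single_mul_apply, MonoidAlgebra.coeff_mul_single_apply,
    inv_mul_cancel_left, one_mul, mul_one, hδ] at h2
  exact h2

theorem cls_injective : Function.Injective (cls : (ConjClasses G → R) → MonoidAlgebra R G) := by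
  intro a b h
  funext C
  obtain ⟨γ, rfl⟩ := ConjClasses.mk_surjective C
  exact congrFun (el_injective h) γ

theorem cls_add (a b : ConjClasses G → R) : cls (a + b) = cls a + cls b := by
  ext γ
  simp only [cls, MonoidAlgebra.coeff_add, Finsupp.add_apply, coeff_el, Pi.add_apply]

theorem cls_smul (r : R) (b : ConjClasses G → R) : cls (r • b) = r • cls b := by
  ext γ
  simp only [cls, MonoidAlgebra.coeff_smul, Finsupp.smul_apply, coeff_el, Pi.smul_apply]

end cls

section theta

variable {R G X : Type*} [CommRing R] [Group G] [Fintype G] [MulAction G X]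

/-- The action of the group algebra on the functions (from the right). -/
def act (u : X → R) (y : MonoidAlgebra R G) : X → R := fun x => ∑ γ, y.coeff γ * u (γ • x)

/-- The functions on `X` as elements of the group algebra. -/
noncomputable def theta (x₀ : X) (u : X → R) : MonoidAlgebra R G := el (fun γ => u (γ⁻¹ • x₀))

/-- The functions on `X` as elements of the group algebra, on the other side. -/
noncomputable def hat (x₀ : X) (f : X → R) : MonoidAlgebra R G := el (fun γ => f (γ • x₀))

theorem theta_mul (x₀ : X) (u : X → R) (y : MonoidAlgebra R G) :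
    theta x₀ u * y = theta x₀ (act u y) := by
  ext h
  rw [coeff_mul_right, theta, theta, coeff_el, act]
  refine sum_congr rfl fun k _ => ?_
  rw [coeff_el, mul_comm]
  congr 2
  rw [mul_inv_rev, inv_inv, mul_smul]

theorem theta_injective [MulAction.IsPretransitive G X] (x₀ : X) :
    Function.Injective (theta x₀ : (X → R) → MonoidAlgebra R G) := by
  intro u v h
  funext x
  obtain ⟨γ, hγ⟩ := MulAction.exists_smul_eq G x₀ x
  have h1 := congrFun (el_injective h) γ⁻¹
  simp only [inv_inv, hγ] at h1
  exact h1

theorem theta_add (x₀ : X) (u v : X → R) :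
    (theta x₀ (u + v) : MonoidAlgebra R G) = theta x₀ u + theta x₀ v := by
  ext γ
  simp only [theta, MonoidAlgebra.coeff_add, Finsupp.add_apply, coeff_el, Pi.add_apply]

theorem theta_smul (x₀ : X) (r : R) (u : X → R) :
    (theta x₀ (r • u) : MonoidAlgebra R G) = r • theta x₀ u := by
  ext γ
  simp only [theta, MonoidAlgebra.coeff_smul, Finsupp.smul_apply, coeff_el, Pi.smul_apply]

theorem theta_zero (x₀ : X) : (theta x₀ (0 : X → R) : MonoidAlgebra R G) = 0 := by
  ext γ
  simp [theta, coeff_el]

/-- Elements of the stabilizer fix the elements given by functions. -/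
theorem single_mul_theta {x₀ : X} {h : G} (hh : h • x₀ = x₀) (u : X → R) :
    MonoidAlgebra.single h 1 * theta x₀ u = theta x₀ u := by
  ext γ
  rw [MonoidAlgebra.coeff_single_mul_apply, theta, coeff_el, coeff_el, one_mul, mul_inv_rev,
    inv_inv, mul_smul, hh]

/-- Odd functions give odd elements. -/
theorem single_mul_theta_odd {x₀ : X} {c : G} (hc : c * c = 1) (hcen : ∀ x, c * x = x * c)
    {u : X → R} (hu : ∀ x, u (c • x) = - u x) :
    MonoidAlgebra.single c 1 * theta x₀ u = - theta x₀ u := by
  ext γ
  rw [MonoidAlgebra.coeff_single_mul_apply, theta, MonoidAlgebra.coeff_neg, Finsupp.neg_apply,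
    coeff_el, coeff_el, one_mul, mul_inv_rev, inv_inv, ← hcen, mul_smul, hu]

theorem sum_orbit [Fintype X] [DecidableEq X] [MulAction.IsPretransitive G X] (x₀ : X) {m : ℕ}
    (hm : ∀ x : X, (univ.filter (fun γ : G => γ • x₀ = x)).card = m) {M : Type*} [AddCommMonoid M]
    (F : X → M) : ∑ γ : G, F (γ • x₀) = m • ∑ x, F x := by
  classical
  rw [← sum_fiberwise (s := univ) (g := fun γ : G => γ • x₀) (f := fun γ => F (γ • x₀)),
    ← sum_nsmul]
  refine sum_congr rfl fun x _ => ?_
  rw [← hm x, ← sum_const]
  exact sum_congr rfl fun γ hγ => by rw [(mem_filter.1 hγ).2]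

theorem hat_mul_theta [Fintype X] [DecidableEq X] [MulAction.IsPretransitive G X] (x₀ : X) {m : ℕ}
    (hm : ∀ x : X, (univ.filter (fun γ : G => γ • x₀ = x)).card = m) {f u : X → R}
    (h : ∀ γ : G, ∑ x, f x * u (γ • x) = 0) : (hat x₀ f : MonoidAlgebra R G) * theta x₀ u = 0 := by
  ext σ
  rw [coeff_mul_left, MonoidAlgebra.coeff_zero, Finsupp.zero_apply, hat, theta]
  have h1 : ∀ k : G, (el (fun γ : G => f (γ • x₀))).coeff k *
      (el (fun γ : G => u (γ⁻¹ • x₀))).coeff (k⁻¹ * σ) = f (k • x₀) * u (σ⁻¹ • (k • x₀)) := by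
    intro k
    rw [coeff_el, coeff_el, mul_inv_rev, inv_inv, mul_smul]
  rw [sum_congr rfl fun k _ => h1 k,
    sum_orbit x₀ hm (fun x => f x * u (σ⁻¹ • x)), h, smul_zero]

end theta

end Pool.Agent.TH170.QC
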