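import Mathlib
import Pool.Agent.TH170.QC.Cls
import Pool.Agent.TH170.MF.Min

/-!
# Class functions that annihilate a stable space of functions
-/

set_option linter.unusedSectionVars false
set_option linter.unusedVariables false

namespace Pool.Agent.TH170.QC

open Finset Module Pool.Agent.TH170.MF

section action

variable {R G X : Type*} [CommRing R] [Group G] [Fintype G] [MulAction G X]

theorem act_add_right (u : X → R) (y z : MonoidAlgebra R G) :
    act u (y + z) = act u y + act u z := by
  funext x
  simp only [act, MonoidAlgebra.coeff_add, Finsupp.add_apply, add_mul, sum_add_distrib,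
    Pi.add_apply]

theorem act_add_left (u v : X → R) (y : MonoidAlgebra R G) :
    act (u + v) y = act u y + act v y := by
  funext x
  simp only [act, Pi.add_apply, mul_add, sum_add_distrib]

theorem act_smul_right (u : X → R) (r : R) (y : MonoidAlgebra R G) :
    act u (r • y) = r • act u y := by
  funext x
  simp only [act, MonoidAlgebra.coeff_smul, Finsupp.smul_apply, Pi.smul_apply, smul_eq_mul,
    mul_sum, mul_assoc]

theorem act_smul_left (r : R) (u : X → R) (y : MonoidAlgebra R G) :
    act (r • u) y = r • act u y := by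
  funext x
  simp only [act, Pi.smul_apply, smul_eq_mul, mul_sum]
  exact sum_congr rfl fun γ _ => by ring

theorem act_one (u : X → R) : act u (1 : MonoidAlgebra R G) = u := by
  classical
  funext x
  rw [act, Finset.sum_eq_single 1]
  · rw [one_smul, MonoidAlgebra.coeff_one_one, one_mul]
  · intro γ _ hγ
    have h1 : (1 : MonoidAlgebra R G).coeff γ = 0 := by
      rw [MonoidAlgebra.one_def]
      exact Finsupp.single_eq_of_ne hγ
    rw [h1, zero_mul]
  · intro h
    exact absurd (mem_univ _) h

theorem act_mul [MulAction.IsPretransitive G X] [Nonempty X] (u : X → R)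
    (y z : MonoidAlgebra R G) : act u (y * z) = act (act u y) z := by
  obtain ⟨x₀⟩ := ‹Nonempty X›
  apply theta_injective (G := G) x₀
  rw [← theta_mul, ← theta_mul, ← theta_mul, mul_assoc]

end action

section lattice

variable {X : Type*} [Fintype X]

/-- The integer valued functions in a rational space. -/
def intPart (S : Submodule ℚ (X → ℚ)) : Submodule ℤ (X → ℤ) where
  carrier := {u | (fun x => (u x : ℚ)) ∈ S}
  add_mem' := by
    intro u v hu hv
    have h1 := S.add_mem hu hv
    have h2 : (fun x => (((u + v) x : ℤ) : ℚ)) = (fun x => (u x : ℚ)) + fun x => (v x : ℚ) := by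
      funext x
      push_cast [Pi.add_apply]
      rfl
    change (fun x => (((u + v) x : ℤ) : ℚ)) ∈ S
    rw [h2]
    exact h1
  zero_mem' := by
    have h2 : (fun x => (((0 : X → ℤ) x : ℤ) : ℚ)) = 0 := by
      funext x
      simp
    change (fun x => (((0 : X → ℤ) x : ℤ) : ℚ)) ∈ S
    rw [h2]
    exact S.zero_mem
  smul_mem' := by
    intro r u hu
    have h1 := S.smul_mem (r : ℚ) hu
    have h2 : (fun x => (((r • u) x : ℤ) : ℚ)) = (r : ℚ) • fun x => (u x : ℚ) := by
      funext x
      simp only [Pi.smul_apply, smul_eq_mul]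
      push_cast
      rfl
    change (fun x => (((r • u) x : ℤ) : ℚ)) ∈ S
    rw [h2]
    exact h1

theorem mem_intPart (S : Submodule ℚ (X → ℚ)) (u : X → ℤ) :
    u ∈ intPart S ↔ (fun x => (u x : ℚ)) ∈ S := Iff.rfl

theorem exists_multiple {S : Submodule ℚ (X → ℚ)} {s : X → ℚ} (hs : s ∈ S) :
    ∃ N : ℕ, N ≠ 0 ∧ ∃ u ∈ intPart S, (fun x => (u x : ℚ)) = (N : ℚ) • s := by
  classical
  have hN : ∀ x, (s x).den ∣ ∏ y, (s y).den := fun x => Finset.dvd_prod_of_mem _ (mem_univ x)
  choose k hk using hN
  have h1 : (fun x => (((k x : ℤ) * (s x).num : ℤ) : ℚ)) =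
      ((∏ y, (s y).den : ℕ) : ℚ) • s := by
    funext x
    rw [Pi.smul_apply, smul_eq_mul, hk x]
    push_cast
    have h2 : (s x).den * s x = (s x).num := by
      rw [mul_comm]
      exact Rat.mul_den_eq_num (s x)
    rw [mul_comm ((s x).den : ℚ), mul_assoc, h2]
  refine ⟨∏ y, (s y).den, Finset.prod_ne_zero_iff.2 fun y _ => (s y).den_ne_zero,
    fun x => (k x : ℤ) * (s x).num, ?_, h1⟩
  rw [mem_intPart, h1]
  exact S.smul_mem _ hs

theorem exists_ne_zero_intPart {S : Submodule ℚ (X → ℚ)} (h : S ≠ ⊥) : ∃ u ∈ intPart S, u ≠ 0 := by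
  obtain ⟨s, hs, hs0⟩ := (Submodule.ne_bot_iff S).1 h
  obtain ⟨N, hN, u, hu, hus⟩ := exists_multiple hs
  refine ⟨u, hu, ?_⟩
  rintro rfl
  have h1 : (N : ℚ) • s = 0 := by
    rw [← hus]
    funext x
    simp
  rcases smul_eq_zero.1 h1 with h2 | h2
  · exact hN (by exact_mod_cast h2)
  · exact hs0 h2

end lattice

variable {G X : Type*} [Group G] [Fintype G] [MulAction G X] [Fintype X]

/-- The rational class functions of the group that annihilate a space of functions on `X`. -/
def killers (G : Type*) {X : Type*} [Group G] [Fintype G] [MulAction G X] (S : Set (X → ℚ)) :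
    Submodule ℚ (ConjClasses G → ℚ) where
  carrier := {a | ∀ s ∈ S, ∀ x, ∑ γ : G, a (ConjClasses.mk γ) * s (γ • x) = 0}
  add_mem' := by
    intro a b ha hb s hs x
    simp only [Pi.add_apply, add_mul, sum_add_distrib]
    rw [ha s hs, hb s hs, add_zero]
  zero_mem' := by
    intro s _ x
    simp
  smul_mem' := by
    intro r a ha s hs x
    simp only [Pi.smul_apply, smul_eq_mul, mul_assoc]
    rw [← mul_sum, ha s hs, mul_zero]

theorem mem_killers (S : Set (X → ℚ)) (a : ConjClasses G → ℚ) :
    a ∈ killers G S ↔ ∀ s ∈ S, act s (cls a) = 0 := by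
  constructor
  · intro h s hs
    funext x
    rw [act, Pi.zero_apply, ← h s hs x]
    exact sum_congr rfl fun γ _ => by rw [cls, coeff_el]
  · intro h s hs x
    have h1 := congrFun (h s hs) x
    rw [act, Pi.zero_apply] at h1
    rw [← h1]
    exact sum_congr rfl fun γ _ => by rw [cls, coeff_el]

theorem cast_act (u : X → ℤ) (a : ConjClasses G → ℤ) (x : X) :
    ((act u (cls a) x : ℤ) : ℚ) =
      act (fun x => (u x : ℚ)) (cls (fun C => (a C : ℚ)) : MonoidAlgebra ℚ G) x := by
  rw [act, act]
  push_cast
  exact sum_congr rfl fun γ _ => by rw [cls, coeff_el, cls, coeff_el]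

theorem cast_mem_killers {S : Submodule ℚ (X → ℚ)} {a : ConjClasses G → ℤ}
    (h : ∀ u ∈ intPart S, act u (cls a) = 0) :
    (fun C => (a C : ℚ)) ∈ killers G (S : Set (X → ℚ)) := by
  rw [mem_killers]
  intro s hs
  obtain ⟨N, hN, u, hu, hus⟩ := exists_multiple hs
  have h1 : act ((N : ℚ) • s) (cls (fun C => (a C : ℚ)) : MonoidAlgebra ℚ G) = 0 := by
    rw [← hus]
    funext x
    rw [← cast_act, h u hu]
    simp
  rw [act_smul_left] at h1
  exact (smul_eq_zero.1 h1).resolve_left (by exact_mod_cast hN)

theorem act_eq_zero {S : Submodule ℚ (X → ℚ)} {a : ConjClasses G → ℤ}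
    (h : (fun C => (a C : ℚ)) ∈ killers G (S : Set (X → ℚ))) {u : X → ℤ} (hu : u ∈ intPart S) :
    act u (cls a) = 0 := by
  funext x
  have h1 := congrFun ((mem_killers _ _).1 h _ hu) x
  rw [← cast_act, Pi.zero_apply] at h1
  exact_mod_cast h1

theorem act_mem {S : Submodule ℚ (X → ℚ)} (hS : Invariant G S) {s : X → ℚ} (hs : s ∈ S)
    (y : MonoidAlgebra ℚ G) : act s y ∈ S := by
  have h1 : act s y = ∑ γ, y.coeff γ • fun x => s (γ • x) := by
    funext x
    rw [Finset.sum_apply, act]
    exact sum_congr rfl fun γ _ => by rw [Pi.smul_apply, smul_eq_mul]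
  rw [h1]
  exact S.sum_mem fun γ _ => S.smul_mem _ (hS γ s hs)

theorem act_mem_intPart {S : Submodule ℚ (X → ℚ)} (hS : Invariant G S) {u : X → ℤ}
    (hu : u ∈ intPart S) (y : MonoidAlgebra ℤ G) : act u y ∈ intPart S := by
  rw [mem_intPart]
  have h1 : (fun x => ((act u y x : ℤ) : ℚ)) =
      act (fun x => (u x : ℚ)) (el (fun γ => (y.coeff γ : ℚ)) : MonoidAlgebra ℚ G) := by
    funext x
    rw [act, act]
    push_cast
    exact sum_congr rfl fun γ _ => by rw [coeff_el]
  rw [h1]
  exact act_mem hS hu _

section red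

variable (p : ℕ) [Fact p.Prime]

/-- Reduction modulo `p` of the group ring. -/
noncomputable def red (G : Type*) [Group G] : MonoidAlgebra ℤ G →+* MonoidAlgebra (ZMod p) G :=
  MonoidAlgebra.mapRingHom G (Int.castRingHom (ZMod p))

theorem coeff_red (x : MonoidAlgebra ℤ G) (γ : G) :
    (red p G x).coeff γ = ((x.coeff γ : ℤ) : ZMod p) := by
  rw [red, MonoidAlgebra.coeff_mapRingHom]
  rfl

theorem red_el (a : G → ℤ) : red p G (el a) = el (fun γ => ((a γ : ℤ) : ZMod p)) := by
  ext γ
  rw [coeff_red, coeff_el, coeff_el]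

theorem red_cls (a : ConjClasses G → ℤ) :
    red p G (cls a) = cls (fun C => ((a C : ℤ) : ZMod p)) := red_el p _

theorem red_theta (x₀ : X) (u : X → ℤ) :
    red p G (theta x₀ u) = theta x₀ (fun x => ((u x : ℤ) : ZMod p)) := red_el p _

theorem red_hat (x₀ : X) (u : X → ℤ) :
    red p G (hat x₀ u) = hat x₀ (fun x => ((u x : ℤ) : ZMod p)) := red_el p _

variable {p} [MulAction.IsPretransitive G X]

/-- If a central element maps the integer valued functions of a stable space to multiples of `p`,
then a power of its reduction is the reduction of an element that annihilates the space. -/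
theorem exists_pow_mem {S : Submodule ℚ (X → ℚ)} (hS : Invariant G S) (hS0 : S ≠ ⊥)
    (b : ConjClasses G → ℤ) (hb : ∀ u ∈ intPart S, ∀ x, (p : ℤ) ∣ act u (cls b) x) :
    ∃ t : ℕ, 0 < t ∧ ∃ a : ConjClasses G → ℤ,
      (fun C => (a C : ℚ)) ∈ killers G (S : Set (X → ℚ)) ∧ (red p G (cls b)) ^ t =
        red p G (cls a) := by
  classical
  obtain ⟨u₀, hu₀, hu₀0⟩ := exists_ne_zero_intPart hS0
  have hX : Nonempty X := by
    by_contra h
    rw [not_nonempty_iff] at h
    exact hu₀0 (Subsingleton.elim _ _)
  set z : MonoidAlgebra ℤ G := cls b with hz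
  let ζ : intPart S →ₗ[ℤ] intPart S :=
    { toFun := fun u => ⟨act (u : X → ℤ) z, act_mem_intPart hS u.2 z⟩
      map_add' := fun u v => Subtype.ext (act_add_left _ _ _)
      map_smul' := fun r u => Subtype.ext (act_smul_left _ _ _) }
  have hI : LinearMap.range ζ ≤ (Ideal.span {(p : ℤ)}) • (⊤ : Submodule ℤ (intPart S)) := by
    rintro _ ⟨u, rfl⟩
    choose v hv using hb u u.2
    have hp0 : (p : ℤ) ≠ 0 := by exact_mod_cast (Fact.out : p.Prime).ne_zero
    have hvmem : v ∈ intPart S := by
      rw [mem_intPart]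
      have h1 : (fun x => (v x : ℚ)) = ((p : ℚ)⁻¹) • fun x => ((act (u : X → ℤ) z x : ℤ) : ℚ) := by
        funext x
        rw [Pi.smul_apply, smul_eq_mul, hv x]
        push_cast
        rw [inv_mul_cancel_left₀]
        exact_mod_cast hp0
      rw [h1]
      exact S.smul_mem _ (act_mem_intPart hS u.2 z)
    have h1 : ζ u = (p : ℤ) • (⟨v, hvmem⟩ : intPart S) := by
      apply Subtype.ext
      funext x
      exact hv x
    rw [h1]
    exact Submodule.smul_mem_smul (Ideal.mem_span_singleton_self _) Submodule.mem_top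
  obtain ⟨q, hmonic, -, hcoeff, hq⟩ :=
    LinearMap.exists_monic_and_natDegree_eq_and_coeff_mem_pow_and_aeval_eq_zero
      (R := ℤ) (M := intPart S) ζ (Ideal.span {(p : ℤ)}) hI
  have ht : 0 < q.natDegree := by
    rcases Nat.eq_zero_or_pos q.natDegree with h | h
    · exfalso
      rw [hmonic.natDegree_eq_zero.1 h, map_one] at hq
      have h1 := congrArg (fun F : intPart S →ₗ[ℤ] intPart S => F ⟨u₀, hu₀⟩) hq
      apply hu₀0
      exact congrArg Subtype.val h1
    · exact h
  have hzc : ∀ (r : Polynomial ℤ) (y : MonoidAlgebra ℤ G),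
      Polynomial.aeval z r * y = y * Polynomial.aeval z r := by
    intro r y
    have h1 : Commute z y := cls_comm b y
    induction r using Polynomial.induction_on' with
    | add r s hr hs => rw [map_add, add_mul, mul_add, hr, hs]
    | monomial n a =>
      rw [Polynomial.aeval_monomial]
      have h2 : Commute (z ^ n) y := h1.pow_left n
      have h3 : Commute (algebraMap ℤ (MonoidAlgebra ℤ G) a) y := Algebra.commutes a y
      exact (h3.mul_left h2)
  have hact : ∀ (r : Polynomial ℤ) (u : intPart S),
      act (u : X → ℤ) (Polynomial.aeval z r) = ((Polynomial.aeval ζ r) u : intPart S) := by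
    intro r u
    induction r using Polynomial.induction_on' with
    | add r s hr hs =>
      rw [map_add, map_add, act_add_right, hr, hs]
      rfl
    | monomial n a =>
      rw [Polynomial.aeval_monomial, Polynomial.aeval_monomial]
      have h1 : act (u : X → ℤ) (z ^ n) = ((ζ ^ n) u : intPart S) := by
        induction n with
        | zero =>
          rw [pow_zero, pow_zero, act_one]
          rfl
        | succ n ih =>
          rw [pow_succ, act_mul, ih, pow_succ']
          rfl
      have h2 : algebraMap ℤ (MonoidAlgebra ℤ G) a * z ^ n = a • z ^ n := by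
        rw [← Algebra.smul_def]
      rw [h2, act_smul_right, h1]
      rfl
  set y := Polynomial.aeval z q with hy
  refine ⟨q.natDegree, ht, coefCls y, ?_, ?_⟩
  · apply cast_mem_killers
    intro u hu
    rw [← eq_cls (hzc q)]
    have h1 := hact q ⟨u, hu⟩
    rw [hq] at h1
    exact h1
  · rw [← eq_cls (hzc q), Polynomial.aeval_eq_sum_range, map_sum, sum_range_succ]
    have h1 : ∀ k ∈ range q.natDegree, red p G (q.coeff k • z ^ k) = 0 := by
      intro k hk
      have h2 := hcoeff k
      have h3 : q.natDegree - k ≠ 0 := by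
        have := mem_range.1 hk
        omega
      have h4 := Ideal.pow_le_self h3 h2
      obtain ⟨r, hr⟩ := Ideal.mem_span_singleton'.1 h4
      ext γ
      rw [coeff_red, MonoidAlgebra.coeff_smul, Finsupp.smul_apply, smul_eq_mul, ← hr]
      push_cast
      rw [ZMod.natCast_self]
      simp
    rw [sum_eq_zero h1, zero_add, hmonic.coeff_natDegree, one_smul, map_pow]

end red

end Pool.Agent.TH170.QC
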