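import Mathlib
import Pool.Agent.TH170.QC.Kil

/-!
# The simple components of the group algebra modulo `p` under a stable rational space
-/

set_option linter.unusedSectionVars false
set_option linter.unusedVariables false

namespace Pool.Agent.TH170.QC

open Finset Module Pool.Agent.TH170.MF

universe u

theorem exists_fields (p : ℕ) [Fact p.Prime] (G : Type u) [Group G] [Fintype G]
    (hpG : ¬ p ∣ Nat.card G) :
    ∃ (n : ℕ) (D : Fin n → Type u) (d : Fin n → ℕ) (_ : ∀ i, Field (D i))
      (_ : ∀ i, Algebra (ZMod p) (D i)) (_ : ∀ i, Module.Finite (ZMod p) (D i)),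
      (∀ i, NeZero (d i)) ∧
      Nonempty (MonoidAlgebra (ZMod p) G ≃ₐ[ZMod p] Π i, Matrix (Fin (d i)) (Fin (d i)) (D i)) := by
  classical
  have hne : NeZero (Nat.card G : ZMod p) := ⟨fun h => hpG ((ZMod.natCast_eq_zero_iff _ _).1 h)⟩
  have hfin : Module.Finite (ZMod p) (MonoidAlgebra (ZMod p) G) :=
    Module.Finite.of_basis (MonoidAlgebra.basis G (ZMod p))
  have hss : IsSemisimpleRing (MonoidAlgebra (ZMod p) G) := inferInstance
  obtain ⟨n, D, d, h1, h2, h3, h4, ⟨e⟩⟩ :=
    IsSemisimpleRing.exists_algEquiv_pi_matrix_divisionRing_finite (ZMod p)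
      (MonoidAlgebra (ZMod p) G)
  have h5 : ∀ i, Finite (D i) := fun i => Module.finite_of_finite (ZMod p)
  exact ⟨n, D, d, fun i => littleWedderburn (D i), h2, h3, h4, ⟨e⟩⟩

variable {p : ℕ} [Fact p.Prime] {G X : Type*} [Group G] [Fintype G] [MulAction G X] [Fintype X]
  [MulAction.IsPretransitive G X] {n : ℕ} {D : Fin n → Type*} {d : Fin n → ℕ}
  [∀ i, Field (D i)] [∀ i, Algebra (ZMod p) (D i)] [∀ i, Module.Finite (ZMod p) (D i)]
  [∀ i, NeZero (d i)]
  (π : MonoidAlgebra (ZMod p) G ≃ₐ[ZMod p] Π i, Matrix (Fin (d i)) (Fin (d i)) (D i))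

/-- The components on which the class functions of a space vanish. -/
noncomputable def idx (K : Submodule ℚ (ConjClasses G → ℚ)) : Finset (Fin n) := by
  classical
  exact univ.filter (fun i => ∀ a : ConjClasses G → ℤ, (fun C => (a C : ℚ)) ∈ K →
    π (red p G (cls a)) i = 0)

theorem mem_idx {K : Submodule ℚ (ConjClasses G → ℚ)} {i : Fin n} :
    i ∈ idx π K ↔ ∀ a : ConjClasses G → ℤ, (fun C => (a C : ℚ)) ∈ K →
      π (red p G (cls a)) i = 0 := by
  classical
  unfold idx
  rw [mem_filter]
  exact ⟨fun h => h.2, fun h => ⟨mem_univ _, h⟩⟩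

theorem exists_scalar (b : ConjClasses G → ZMod p) (i : Fin n) :
    ∃ δ : D i, π (cls b) i = Matrix.scalar (Fin (d i)) δ := by
  classical
  have h1 : ∀ M : Matrix (Fin (d i)) (Fin (d i)) (D i), Commute M (π (cls b) i) := by
    intro M
    have h2 := congrArg (fun x => π x i) (cls_comm b (π.symm (Pi.single i M)))
    simp only [map_mul, Pi.mul_apply, AlgEquiv.apply_symm_apply, Pi.single_eq_same] at h2
    exact h2.symm
  have h2 := Matrix.mem_range_scalar_of_commute_single (M := π (cls b) i)
    (fun k l _ => h1 _)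
  obtain ⟨δ, hδ⟩ := h2
  exact ⟨δ, hδ.symm⟩

theorem exists_lift (δ : ∀ i, D i) :
    ∃ b : ConjClasses G → ℤ, π (red p G (cls b)) = fun i => Matrix.scalar (Fin (d i)) (δ i) := by
  classical
  set z := π.symm (fun i => Matrix.scalar (Fin (d i)) (δ i)) with hz
  have hc : ∀ y, z * y = y * z := by
    intro y
    apply π.injective
    funext i
    rw [map_mul, map_mul, Pi.mul_apply, Pi.mul_apply, hz, AlgEquiv.apply_symm_apply]
    exact (Matrix.scalar_commute (δ i) (fun r => mul_comm _ _) (π y i)).eq
  refine ⟨fun C => ((coefCls z C).val : ℤ), ?_⟩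
  rw [red_cls]
  have h1 : (fun C : ConjClasses G => (((coefCls z C).val : ℤ) : ZMod p)) = coefCls z := by
    funext C
    push_cast
    rw [ZMod.natCast_zmod_val]
  rw [h1, ← eq_cls hc, hz, AlgEquiv.apply_symm_apply]

/-- On a component of a stable space, some integer valued function of the space does not vanish. -/
theorem exists_ne_zero {S : Submodule ℚ (X → ℚ)} (hS : Invariant G S) (hS0 : S ≠ ⊥) (x₀ : X)
    {i : Fin n} (hi : i ∈ idx π (killers G (S : Set (X → ℚ)))) :
    ∃ u ∈ intPart S, π (red p G (theta x₀ u)) i ≠ 0 := by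
  classical
  by_contra hcon
  push Not at hcon
  obtain ⟨b, hb⟩ := exists_lift (p := p) π (Pi.single i (1 : D i))
  have hb' : ∀ j, π (red p G (cls b)) j = if j = i then 1 else 0 := by
    intro j
    rw [hb]
    change Matrix.scalar (Fin (d j)) ((Pi.single i (1 : D i) : ∀ i, D i) j) = _
    by_cases hj : j = i
    · subst hj
      rw [if_pos rfl, Pi.single_eq_same, map_one]
    · rw [if_neg hj, Pi.single_eq_of_ne hj, map_zero]
  have h1 : ∀ u ∈ intPart S, ∀ x, (p : ℤ) ∣ act u (cls b) x := by
    intro u hu x
    have h2 : red p G (theta x₀ u) * red p G (cls b) = 0 := by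
      apply π.injective
      rw [map_mul, map_zero]
      funext j
      rw [Pi.mul_apply, Pi.zero_apply, hb']
      by_cases hj : j = i
      · subst hj
        rw [hcon u hu, zero_mul]
      · rw [if_neg hj, mul_zero]
    rw [← map_mul, theta_mul, red_theta] at h2
    have h3 : (fun x => ((act u (cls b) x : ℤ) : ZMod p)) = 0 := by
      apply theta_injective (G := G) x₀
      rw [h2, theta_zero]
    exact (ZMod.intCast_zmod_eq_zero_iff_dvd _ p).1 (congrFun h3 x)
  obtain ⟨t, ht, a, ha, hta⟩ := exists_pow_mem hS hS0 b h1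
  have h2 := (mem_idx π).1 hi a ha
  rw [← hta, map_pow, Pi.pow_apply, hb', if_pos rfl, one_pow] at h2
  exact one_ne_zero h2

theorem act_mem_redSpace {S : Submodule ℚ (X → ℚ)} (hS : Invariant G S) {w : X → ZMod p}
    (hw : w ∈ redSpace p S) (y : MonoidAlgebra (ZMod p) G) : act w y ∈ redSpace p S := by
  obtain ⟨u, hu, rfl⟩ := hw
  refine ⟨act u (el (fun γ => ((y.coeff γ).val : ℤ))), act_mem_intPart hS hu _, ?_⟩
  funext x
  rw [act, act]
  push_cast
  refine sum_congr rfl fun γ _ => ?_
  rw [coeff_el]
  push_cast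
  rw [ZMod.natCast_zmod_val]

/-- The dimensions of the simple modules of the components of a stable space. -/
theorem sum_dim_le {S : Submodule ℚ (X → ℚ)} (hS : Invariant G S) (hS0 : S ≠ ⊥) :
    ∑ i ∈ idx π (killers G (S : Set (X → ℚ))), d i * finrank (ZMod p) (D i) ≤ finrank ℚ S := by
  classical
  obtain ⟨u₀, hu₀, hu₀0⟩ := exists_ne_zero_intPart hS0
  obtain ⟨x₀, -⟩ := Function.ne_iff.1 hu₀0
  set I := idx π (killers G (S : Set (X → ℚ))) with hI
  have h1 : ∀ i : I, ∃ u : X → ℤ, u ∈ intPart S ∧ ∃ k l, π (red p G (theta x₀ u)) i k l ≠ 0 := by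
    intro i
    obtain ⟨u, hu, hne⟩ := exists_ne_zero (p := p) π hS hS0 x₀ i.2
    refine ⟨u, hu, ?_⟩
    by_contra hcon
    push Not at hcon
    apply hne
    ext k l
    exact hcon k l
  choose u hu k l hkl using h1
  let N : ∀ i : I, (Fin (d i) → D i) → Matrix (Fin (d i)) (Fin (d i)) (D i) := fun i y =>
    Matrix.of fun a b => if a = l i then y b else 0
  let Ψ : (∀ i : I, Fin (d i) → D i) →ₗ[ZMod p] (X → ZMod p) :=
    { toFun := fun y => ∑ i : I, act (fun x => ((u i x : ℤ) : ZMod p))
        (π.symm (Pi.single (i : Fin n) (N i (y i))))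
      map_add' := by
        intro y z
        rw [← sum_add_distrib]
        refine sum_congr rfl fun i _ => ?_
        rw [← act_add_right, ← map_add, ← Pi.single_add]
        congr 3
        ext a b
        simp only [N, Matrix.of_apply, Matrix.add_apply, Pi.add_apply]
        split_ifs
        · rfl
        · rw [add_zero]
      map_smul' := by
        intro r y
        rw [RingHom.id_apply, smul_sum]
        refine sum_congr rfl fun i _ => ?_
        rw [← act_smul_right, ← map_smul, ← Pi.single_smul]
        congr 3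
        ext a b
        simp only [N, Matrix.of_apply, Matrix.smul_apply, Pi.smul_apply]
        split_ifs
        · rfl
        · rw [smul_zero] }
  have hΨ : ∀ y, Ψ y = ∑ i : I, act (fun x => ((u i x : ℤ) : ZMod p))
      (π.symm (Pi.single (i : Fin n) (N i (y i)))) := fun y => rfl
  have hrange : ∀ y, Ψ y ∈ redSpace p S := by
    intro y
    rw [hΨ]
    refine (redSpace p S).sum_mem fun i _ => act_mem_redSpace hS ?_ _
    exact ⟨u i, hu i, rfl⟩
  have hinj : Function.Injective Ψ := by
    rw [← LinearMap.ker_eq_bot, LinearMap.ker_eq_bot']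
    intro y hy
    have h2 : ∑ i : I, theta x₀ (fun x => ((u i x : ℤ) : ZMod p)) *
        (π.symm (Pi.single (i : Fin n) (N i (y i)))) = 0 := by
      have h3 : (theta x₀ (Ψ y) : MonoidAlgebra (ZMod p) G) = 0 := by rw [hy, theta_zero]
      rw [← h3, hΨ]
      have h4 : ∀ (s : Finset I) (F : I → (X → ZMod p)),
          (theta x₀ (∑ i ∈ s, F i) : MonoidAlgebra (ZMod p) G) = ∑ i ∈ s, theta x₀ (F i) := by
        intro s F
        induction s using Finset.induction_on with
        | empty => rw [sum_empty, sum_empty, theta_zero]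
        | insert i s hi ih => rw [sum_insert hi, sum_insert hi, theta_add, ih]
      rw [h4]
      exact sum_congr rfl fun i _ => theta_mul _ _ _
    funext j
    have h3 := congrArg (fun x => π x j) h2
    simp only [map_sum, map_mul, Finset.sum_apply, Pi.mul_apply, AlgEquiv.apply_symm_apply,
      map_zero, Pi.zero_apply] at h3
    rw [Finset.sum_eq_single j] at h3
    · rw [Pi.single_eq_same] at h3
      funext b
      have h4 := congrFun (congrFun h3 (k j)) b
      rw [Matrix.mul_apply, Finset.sum_eq_single (l j)] at h4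
      · simp only [N, Matrix.of_apply, if_true] at h4
        rw [Matrix.zero_apply, ← red_theta] at h4
        exact (mul_eq_zero.1 h4).resolve_left (hkl j)
      · intro a _ ha
        simp only [N, Matrix.of_apply, if_neg ha, mul_zero]
      · intro h
        exact absurd (mem_univ _) h
    · intro i _ hij
      have h4 : (Pi.single (i : Fin n) (N i (y i)) :
          ∀ i, Matrix (Fin (d i)) (Fin (d i)) (D i)) j = 0 :=
        Pi.single_eq_of_ne (fun h => hij (Subtype.ext h.symm)) _
      rw [h4, mul_zero]
    · intro h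
      exact absurd (mem_univ _) h
  have h2 : finrank (ZMod p) (∀ i : I, Fin (d i) → D i) ≤ finrank (ZMod p) (redSpace p S) := by
    refine LinearMap.finrank_le_finrank_of_injective (f := Ψ.codRestrict (redSpace p S) hrange) ?_
    intro y z h
    exact hinj (congrArg Subtype.val h)
  have h3 : finrank (ZMod p) (∀ i : I, Fin (d i) → D i) =
      ∑ i ∈ I, d i * finrank (ZMod p) (D i) := by
    rw [Module.finrank_pi_fintype, ← sum_coe_sort I (fun i => d i * finrank (ZMod p) (D i))]
    refine sum_congr rfl fun i _ => ?_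
    rw [Module.finrank_pi_fintype, sum_const, card_univ, Fintype.card_fin, smul_eq_mul]
  rw [← h3]
  exact h2.trans (finrank_redSpace_le S)

/-- The degree of the centre of a component. -/
theorem finrank_quot_le {S : Submodule ℚ (X → ℚ)} (hS : Invariant G S) [Nonempty X] :
    finrank ℚ ((ConjClasses G → ℚ) ⧸ killers G (S : Set (X → ℚ))) ≤
      ∑ i ∈ idx π (killers G (S : Set (X → ℚ))), finrank (ZMod p) (D i) := by
  classical
  set K := killers G (S : Set (X → ℚ)) with hK
  set I := idx π K with hI
  let Θ : (ConjClasses G → ZMod p) →ₗ[ZMod p] (∀ i : I, D i) :=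
    { toFun := fun b i => π (cls b) i 0 0
      map_add' := by
        intro a b
        funext i
        rw [cls_add, map_add]
        rfl
      map_smul' := by
        intro r b
        funext i
        rw [cls_smul, map_smul]
        rfl }
  have hker : LinearMap.ker Θ ≤ redSpace p K := by
    intro b hb
    rw [LinearMap.mem_ker] at hb
    have h1 : ∀ i ∈ I, π (cls b) i = 0 := by
      intro i hi
      obtain ⟨δ, hδ⟩ := exists_scalar π b i
      have h2 : π (cls b) i 0 0 = 0 := congrFun hb ⟨i, hi⟩
      rw [hδ, Matrix.scalar_apply, Matrix.diagonal_apply_eq] at h2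
      rw [hδ, h2, map_zero]
    have h2 : ∀ i : Fin n, ∃ a : ConjClasses G → ℤ, (fun C => (a C : ℚ)) ∈ K ∧
        (i ∉ I → π (red p G (cls a)) i ≠ 0) := by
      intro i
      by_cases hi : i ∈ I
      · refine ⟨0, ?_, fun h => absurd hi h⟩
        have h3 : (fun C : ConjClasses G => (((0 : ConjClasses G → ℤ) C : ℤ) : ℚ)) = 0 := by
          funext C
          simp
        rw [h3]
        exact K.zero_mem
      · rw [hI, mem_idx] at hi
        push Not at hi
        obtain ⟨a, ha, hne⟩ := hi
        exact ⟨a, ha, fun _ => hne⟩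
    choose a ha hane using h2
    choose β hβ using fun i => exists_scalar π b i
    choose δ hδ using fun i => exists_scalar π (fun C => ((a i C : ℤ) : ZMod p)) i
    have hδ' : ∀ i, π (red p G (cls (a i))) i = Matrix.scalar (Fin (d i)) (δ i) := by
      intro i
      rw [red_cls, hδ]
    have hδ0 : ∀ i, i ∉ I → δ i ≠ 0 := by
      intro i hi h
      apply hane i hi
      rw [hδ', h, map_zero]
    choose w hw using fun i => exists_lift (p := p) π (Pi.single i (β i * (δ i)⁻¹))
    set y : MonoidAlgebra ℤ G := ∑ i ∈ univ.filter (fun i => i ∉ I), cls (w i) * cls (a i) with hy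
    have hyc : ∀ x, y * x = x * y := by
      intro x
      rw [hy, sum_mul, mul_sum]
      refine sum_congr rfl fun i _ => ?_
      rw [mul_assoc, cls_comm (a i) x, ← mul_assoc, cls_comm (w i) x, mul_assoc]
    have hyK : (fun C => ((coefCls y C : ℤ) : ℚ)) ∈ K := by
      rw [hK]
      apply cast_mem_killers
      intro v hv
      rw [← eq_cls hyc, hy]
      have h3 : ∀ s : Finset (Fin n), act v (∑ i ∈ s, cls (w i) * cls (a i)) = 0 := by
        intro s
        induction s using Finset.induction_on with
        | empty =>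
          rw [sum_empty]
          funext x
          simp [act]
        | insert i s hi ih =>
          rw [sum_insert hi, act_add_right, ih, add_zero, act_mul,
            act_eq_zero (ha i) (act_mem_intPart hS hv _)]
      exact h3 _
    refine ⟨coefCls y, hyK, ?_⟩
    apply cls_injective
    rw [← red_cls, ← eq_cls hyc]
    apply π.injective
    funext j
    rw [hy, map_sum, map_sum, Finset.sum_apply]
    have h3 : ∀ i ∈ univ.filter (fun i => i ∉ I), π (red p G (cls (w i) * cls (a i))) j =
        if i = j then π (cls b) j else 0 := by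
      intro i hi
      have hi' := (mem_filter.1 hi).2
      rw [map_mul, map_mul, Pi.mul_apply, hw]
      change Matrix.scalar (Fin (d j)) ((Pi.single i (β i * (δ i)⁻¹) : ∀ i, D i) j) * _ = _
      by_cases hij : i = j
      · subst hij
        rw [if_pos rfl, Pi.single_eq_same, hδ', hβ, ← map_mul, mul_assoc,
          inv_mul_cancel₀ (hδ0 i hi'), mul_one]
      · rw [if_neg hij, Pi.single_eq_of_ne (Ne.symm hij), map_zero, zero_mul]
    rw [sum_congr rfl h3, sum_ite_eq']
    split_ifs with hj
    · rfl
    · rw [mem_filter, not_and, not_not] at hj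
      exact (h1 j (hj (mem_univ j))).symm
  have h1 := LinearMap.finrank_range_add_finrank_ker Θ
  have h2 : finrank (ZMod p) (LinearMap.ker Θ) ≤ finrank ℚ K :=
    (Submodule.finrank_mono hker).trans (finrank_redSpace_le K)
  have h3 : finrank (ZMod p) (LinearMap.range Θ) ≤ ∑ i ∈ I, finrank (ZMod p) (D i) := by
    refine (Submodule.finrank_le _).trans (le_of_eq ?_)
    rw [Module.finrank_pi_fintype, ← sum_coe_sort I (fun i => finrank (ZMod p) (D i))]
  have h4 := Submodule.finrank_quotient_add_finrank K
  rw [Module.finrank_fintype_fun_eq_card] at h1 h4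
  omega

end Pool.Agent.TH170.QC
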