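import Mathlib
import Pool.Agent.TH170.QC.Comp
import Pool.Agent.TH170.QC.Count

/-!
# Counting the odd sign functions that are degenerate at several components
-/

set_option linter.unusedSectionVars false
set_option linter.unusedVariables false

namespace Pool.Agent.TH170.QC

open Finset Module Pool.Agent.TH170.MF Pool.Agent.TH170.GC

variable {p : ℕ} [Fact p.Prime] {G X : Type*} [Group G] [Fintype G] [MulAction G X] [Fintype X]
  [DecidableEq X] [MulAction.IsPretransitive G X] {n : ℕ} {D : Fin n → Type*} {d : Fin n → ℕ}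
  [∀ i, Field (D i)] [∀ i, Algebra (ZMod p) (D i)] [∀ i, Module.Finite (ZMod p) (D i)]
  [∀ i, NeZero (d i)]
  (π : MonoidAlgebra (ZMod p) G ≃ₐ[ZMod p] Π i, Matrix (Fin (d i)) (Fin (d i)) (D i))

/-- A vector of a simple module fixed by the stabilizer of `x₀` and odd with respect to `c`. -/
def Good (x₀ : X) (c : G) (i : Fin n) (v : Fin (d i) → D i) : Prop :=
  v ≠ 0 ∧ (∀ h : G, h • x₀ = x₀ → (π (MonoidAlgebra.single h 1) i).mulVec v = v) ∧
    (π (MonoidAlgebra.single c 1) i).mulVec v = - v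

theorem el_eq_sum (y : G → ZMod p) : el y = ∑ γ, y γ • (MonoidAlgebra.single γ (1 : ZMod p)) := by
  rw [el]
  refine sum_congr rfl fun γ _ => ?_
  rw [MonoidAlgebra.smul_single, smul_eq_mul, mul_one]

theorem pi_el_mulVec (i : Fin n) (y : G → ZMod p) (v : Fin (d i) → D i) :
    (π (el y) i).mulVec v = ∑ γ, y γ • (π (MonoidAlgebra.single γ 1) i).mulVec v := by
  rw [el_eq_sum, map_sum, Finset.sum_apply, Matrix.sum_mulVec]
  refine sum_congr rfl fun γ _ => ?_
  rw [map_smul, Pi.smul_apply, Matrix.smul_mulVec]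

theorem single_mulVec (i : Fin n) (γ δ : G) (v : Fin (d i) → D i) :
    (π (MonoidAlgebra.single (γ * δ) 1) i).mulVec v =
      (π (MonoidAlgebra.single γ 1) i).mulVec ((π (MonoidAlgebra.single δ 1) i).mulVec v) := by
  rw [Matrix.mulVec_mulVec, ← Pi.mul_apply, ← map_mul, MonoidAlgebra.single_mul_single, mul_one]

/-- The number of odd sign functions that kill a given family of vectors. -/
theorem ncard_fam (hp : p ≠ 2) (hpG : ¬ p ∣ Nat.card G) {c : G} (hc : c * c = 1)
    (hfree : ∀ x : X, c • x ≠ x) (hcen : ∀ x, c * x = x * c) {g : ℕ}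
    (hg : Fintype.card X = 2 * g) (x₀ : X) {I : Finset (Fin n)} (hI : I.Nonempty)
    (v : ∀ i : I, Fin (d i) → D i) (hv : ∀ i : I, Good π x₀ c (i : Fin n) (v i)) :
    (({f ∈ oddSigns X (fun x => c • x) |
      ∀ i : I, (π (hat x₀ (fun x => ((f x : ℤ) : ZMod p))) i).mulVec (v i) = 0}.ncard : ℕ) : ℝ) *
      p ^ (∑ i ∈ I, d i * finrank (ZMod p) (D i)) ≤
      2 ^ g * sig p ((g : ℝ) / ((∑ i ∈ I, d i * finrank (ZMod p) (D i) : ℕ) : ℝ)) ^
        (∑ i ∈ I, d i * finrank (ZMod p) (D i)) := by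
  classical
  have hfr : finrank (ZMod p) (∀ i : I, Fin (d i) → D i) =
      ∑ i ∈ I, d i * finrank (ZMod p) (D i) := by
    rw [Module.finrank_pi_fintype, ← sum_coe_sort I (fun i => d i * finrank (ZMod p) (D i))]
    refine sum_congr rfl fun i _ => ?_
    rw [Module.finrank_pi_fintype, sum_const, card_univ, Fintype.card_fin, smul_eq_mul]
  choose γx hγx using fun x : X => MulAction.exists_smul_eq G x₀ x
  let L : X → (∀ i : I, Fin (d i) → D i) := fun x i =>
    (π (MonoidAlgebra.single (γx x) 1) i).mulVec (v i)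
  have hLeq : ∀ γ : G, L (γ • x₀) = fun i : I => (π (MonoidAlgebra.single γ 1) i).mulVec (v i) := by
    intro γ
    funext i
    have h1 : ((γx (γ • x₀))⁻¹ * γ) • x₀ = x₀ := by
      rw [mul_smul, inv_smul_eq_iff, hγx]
    have h2 := (hv i).2.1 _ h1
    change (π (MonoidAlgebra.single (γx (γ • x₀)) 1) i).mulVec (v i) = _
    conv_lhs => rw [← h2]
    rw [← single_mulVec, mul_inv_cancel_left]
  let R : G → (∀ i : I, Fin (d i) → D i) →ₗ[ZMod p] (∀ i : I, Fin (d i) → D i) := fun γ =>
    { toFun := fun w i => (π (MonoidAlgebra.single γ 1) i).mulVec (w i)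
      map_add' := fun w w' => by
        funext i
        simp only [Pi.add_apply, Matrix.mulVec_add]
      map_smul' := fun r w => by
        funext i
        simp only [Pi.smul_apply, Matrix.mulVec_smul, RingHom.id_apply] }
  have hL : ∀ (γ : G) x, L (γ • x) = R γ (L x) := by
    intro γ x
    have h1 : γ • x = (γ * γx x) • x₀ := by rw [mul_smul, hγx]
    rw [h1, hLeq]
    funext i
    exact single_mulVec π i _ _ _
  have hodd : ∀ x, L (c • x) = - L x := by
    intro x
    have h1 : c • x = (γx x * c) • x₀ := by rw [← hcen, mul_smul, hγx]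
    rw [h1, hLeq]
    funext i
    rw [single_mulVec, (hv i).2.2, Matrix.mulVec_neg]
    rfl
  have hspan : Submodule.span (ZMod p) (Set.range L) = ⊤ := by
    rw [eq_top_iff]
    rintro w -
    have h1 : ∀ i : I, ∃ M : Matrix (Fin (d i)) (Fin (d i)) (D i), M.mulVec (v i) = w i := by
      intro i
      obtain ⟨k, hk⟩ := Function.ne_iff.1 (hv i).1
      rw [Pi.zero_apply] at hk
      refine ⟨Matrix.of fun l l' => if l' = k then w i l * (v i k)⁻¹ else 0, ?_⟩
      funext l
      simp only [Matrix.mulVec, dotProduct, Matrix.of_apply, ite_mul, zero_mul,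
        sum_ite_eq', mem_univ, if_true]
      rw [mul_assoc, inv_mul_cancel₀ hk, mul_one]
    choose M hM using h1
    set y := π.symm (fun i => if h : i ∈ I then M ⟨i, h⟩ else 0) with hy
    have h2 : w = ∑ γ, y.coeff γ • L (γ • x₀) := by
      funext i
      rw [Finset.sum_apply]
      have h3 : (π y i).mulVec (v i) = w i := by
        rw [hy, AlgEquiv.apply_symm_apply, dif_pos i.2]
        exact hM i
      rw [← h3]
      conv_lhs => rw [eq_el y]
      rw [pi_el_mulVec]
      refine sum_congr rfl fun γ _ => ?_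
      rw [hLeq]
      rfl
    rw [h2]
    exact Submodule.sum_mem _ fun γ _ => Submodule.smul_mem _ _ (Submodule.subset_span ⟨_, rfl⟩)
  have hnt : Nontrivial (∀ i : I, Fin (d i) → D i) := by
    obtain ⟨i, hi⟩ := hI
    refine ⟨v, 0, fun h => (hv ⟨i, hi⟩).1 ?_⟩
    rw [h]
    rfl
  have h1 := QC.ncard_kill hc hfree hp hg L R hL hodd hspan
  rw [hfr] at h1
  have h2 : {f ∈ oddSigns X (fun x => c • x) |
      ∀ i : I, (π (hat x₀ (fun x => ((f x : ℤ) : ZMod p))) i).mulVec (v i) = 0} =
      {f ∈ oddSigns X (fun x => c • x) | ∑ x, ((f x : ℤ) : ZMod p) • L x = 0} := by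
    ext f
    simp only [Set.mem_sep_iff]
    refine and_congr_right fun _ => ?_
    set m := (univ.filter (fun γ : G => γ • x₀ = x₀)).card with hm
    have hmX : ∀ x, (univ.filter (fun γ : G => γ • x₀ = x)).card = m := by
      intro x
      have h3 := card_fiber (G := G) x₀ x
      have h4 := card_fiber (G := G) x₀ x₀
      have h5 : 0 < Fintype.card X := Fintype.card_pos_iff.2 ⟨x₀⟩
      exact Nat.eq_of_mul_eq_mul_right h5 (h3.trans h4.symm)
    have hm0 : ((m : ℕ) : ZMod p) ≠ 0 := by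
      intro h
      rw [ZMod.natCast_eq_zero_iff] at h
      apply hpG
      rw [Nat.card_eq_fintype_card, ← card_fiber (G := G) x₀ x₀]
      exact Dvd.dvd.mul_right h _
    have h3 : (fun i : I => (π (hat x₀ (fun x => ((f x : ℤ) : ZMod p))) i).mulVec (v i)) =
        (m : ZMod p) • ∑ x, ((f x : ℤ) : ZMod p) • L x := by
      have h4 := sum_orbit (G := G) x₀ hmX (fun x => ((f x : ℤ) : ZMod p) • L x)
      rw [← Nat.cast_smul_eq_nsmul (ZMod p)] at h4
      rw [← h4]
      funext i
      rw [Finset.sum_apply, hat, pi_el_mulVec]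
      refine sum_congr rfl fun γ _ => ?_
      rw [Pi.smul_apply, hLeq]
    constructor
    · intro h
      have h4 : (m : ZMod p) • ∑ x, ((f x : ℤ) : ZMod p) • L x = 0 := by
        rw [← h3]
        funext i
        exact h i
      exact (smul_eq_zero.1 h4).resolve_left hm0
    · intro h i
      rw [h, smul_zero] at h3
      exact congrFun h3 i
  rw [h2]
  exact h1

theorem sub_one_pow_le (q : ℕ) (hq : 1 ≤ q) {r : ℕ} (hr : 0 < r) : (q - 1) ^ r ≤ q ^ r - 1 := by
  obtain ⟨a, rfl⟩ : ∃ a, q = a + 1 := ⟨q - 1, by omega⟩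
  rw [Nat.add_sub_cancel]
  have h1 : a ^ r + 1 ≤ (a + 1) ^ r := by
    obtain ⟨s, rfl⟩ : ∃ s, r = s + 1 := ⟨r - 1, by omega⟩
    induction s with
    | zero => simp
    | succ s ih =>
      have ih' := ih (by omega)
      have h2 := Nat.mul_le_mul_right (a + 1) ih'
      rw [pow_succ (a + 1), pow_succ a]
      have h3 : (a ^ (s + 1) + 1) * (a + 1) = a ^ (s + 1) * a + 1 + (a ^ (s + 1) + a) := by ring
      rw [h3] at h2
      exact (Nat.le_add_right _ _).trans h2
  omega

/-- The number of odd sign functions that are degenerate at all components of a set. -/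
theorem ncard_degAll (hp : p ≠ 2) (hpG : ¬ p ∣ Nat.card G) {c : G} (hc : c * c = 1)
    (hfree : ∀ x : X, c • x ≠ x) (hcen : ∀ x, c * x = x * c) {g : ℕ}
    (hg : Fintype.card X = 2 * g) (x₀ : X) {I : Finset (Fin n)} (hI : I.Nonempty) :
    (({f ∈ oddSigns X (fun x => c • x) | ∀ i ∈ I, ∃ v, Good π x₀ c i v ∧
      (π (hat x₀ (fun x => ((f x : ℤ) : ZMod p))) i).mulVec v = 0}.ncard : ℕ) : ℝ) *
      ((p - 1 : ℕ) : ℝ) ^ (∑ i ∈ I, finrank (ZMod p) (D i)) ≤
      2 ^ g * sig p ((g : ℝ) / ((∑ i ∈ I, d i * finrank (ZMod p) (D i) : ℕ) : ℝ)) ^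
        (∑ i ∈ I, d i * finrank (ZMod p) (D i)) := by
  classical
  have hDfin : ∀ i, Finite (D i) := fun i => Module.finite_of_finite (ZMod p)
  have hDft : ∀ i, Fintype (D i) := fun i => Fintype.ofFinite _
  set m := ∑ i ∈ I, d i * finrank (ZMod p) (D i) with hm
  set σ := sig p ((g : ℝ) / (m : ℝ)) with hσ
  have hcardD : ∀ i, Fintype.card (D i) = p ^ finrank (ZMod p) (D i) := by
    intro i
    rw [Module.card_eq_pow_finrank (K := ZMod p) (V := D i), ZMod.card]
  have hcardS : Fintype.card (∀ i : I, Fin (d i) → D i) = p ^ m := by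
    rw [Fintype.card_pi, hm, ← sum_coe_sort I (fun i => d i * finrank (ZMod p) (D i)),
      ← prod_pow_eq_pow_sum]
    refine prod_congr rfl fun i _ => ?_
    rw [Fintype.card_fun, Fintype.card_fin, hcardD, ← pow_mul, mul_comm]
  let Fs : Finset (X → ℤ) := (finite_oddSigns (X := X) (fun x => c • x)).toFinset
  let kil : (X → ℤ) → (∀ i : I, Fin (d i) → D i) → Prop := fun f v =>
    ∀ i : I, (π (hat x₀ (fun x => ((f x : ℤ) : ZMod p))) i).mulVec (v i) = 0
  let V : Finset (∀ i : I, Fin (d i) → D i) := univ.filter (fun v =>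
    ∀ i : I, Good π x₀ c (i : Fin n) (v i))
  let N : Finset (X → ℤ) := Fs.filter (fun f => ∃ v ∈ V, kil f v)
  have hN : {f ∈ oddSigns X (fun x => c • x) | ∀ i ∈ I, ∃ v, Good π x₀ c i v ∧
      (π (hat x₀ (fun x => ((f x : ℤ) : ZMod p))) i).mulVec v = 0}.ncard ≤ N.card := by
    rw [← Set.ncard_coe_finset]
    refine Set.ncard_le_ncard ?_ (Finset.finite_toSet _)
    rintro f ⟨hf, hex⟩
    choose! v hv using hex
    simp only [N, Fs, V, coe_filter, Set.Finite.mem_toFinset, mem_filter, mem_univ, true_and,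
      Set.mem_ofPred_eq]
    exact ⟨hf, fun i => v i, fun i => (hv i i.2).1, fun i => (hv i i.2).2⟩
  set Q : ℕ := ∏ i : I, (Fintype.card (D i) - 1) with hQ
  have hQp : (p - 1) ^ (∑ i ∈ I, finrank (ZMod p) (D i)) ≤ Q := by
    rw [hQ, ← sum_coe_sort I (fun i => finrank (ZMod p) (D i)), ← prod_pow_eq_pow_sum]
    refine prod_le_prod' fun i _ => ?_
    rw [hcardD]
    exact sub_one_pow_le p (Fact.out : p.Prime).one_le finrank_pos
  -- double counting
  have h1 : N.card * Q ≤ ∑ v ∈ V, (Fs.filter (fun f => kil f v)).card := by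
    have h2 : ∑ v ∈ V, (Fs.filter (fun f => kil f v)).card =
        ∑ f ∈ Fs, (V.filter (fun v => kil f v)).card := by
      simp only [card_filter]
      rw [sum_comm]
    rw [h2, ← smul_eq_mul, ← sum_const]
    refine (sum_le_sum fun f hf => ?_).trans (sum_le_sum_of_subset (filter_subset _ _))
    obtain ⟨v, hv, hfv⟩ := (mem_filter.1 hf).2
    have hv' := (mem_filter.1 hv).2
    have h3 : ((Fintype.piFinset (fun i : I => univ.filter (fun α : D i => α ≠ 0))).image
        (fun α => fun i => α i • v i)).card = Q := by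
      rw [card_image_of_injOn, Fintype.card_piFinset, hQ]
      · refine prod_congr rfl fun i _ => ?_
        rw [filter_ne' univ (0 : D i), card_erase_of_mem (mem_univ _), card_univ]
      · intro α _ β _ h
        funext i
        have h4 : (α i - β i) • v i = 0 := by
          rw [sub_smul]
          exact sub_eq_zero.2 (congrFun h i)
        exact sub_eq_zero.1 ((smul_eq_zero.1 h4).resolve_right (hv' i).1)
    rw [← h3]
    refine card_le_card ?_
    intro w hw
    obtain ⟨α, hα, rfl⟩ := mem_image.1 hw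
    have hα' : ∀ i, α i ≠ 0 := fun i =>
      (mem_filter.1 (Fintype.mem_piFinset.1 hα i)).2
    rw [mem_filter]
    refine ⟨mem_filter.2 ⟨mem_univ _, fun i => ⟨smul_ne_zero (hα' i) (hv' i).1, ?_, ?_⟩⟩, ?_⟩
    · intro h hh
      rw [Matrix.mulVec_smul, (hv' i).2.1 h hh]
    · rw [Matrix.mulVec_smul, (hv' i).2.2, smul_neg]
    · intro i
      rw [Matrix.mulVec_smul, hfv i, smul_zero]
  have h2 : ∀ v ∈ V, (((Fs.filter (fun f => kil f v)).card : ℕ) : ℝ) * p ^ m ≤
      2 ^ g * σ ^ m := by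
    intro v hv
    have hv' := (mem_filter.1 hv).2
    have h3 := ncard_fam π hp hpG hc hfree hcen hg x₀ hI v hv'
    refine le_trans (le_of_eq ?_) h3
    congr 2
    rw [← Set.ncard_coe_finset]
    congr 1
    ext f
    simp only [Fs, kil, coe_filter, Set.Finite.mem_toFinset, Set.mem_ofPred_eq]
  have hp0 : (0 : ℝ) < p := Nat.cast_pos.2 (Fact.out : p.Prime).pos
  have h3 : ((N.card : ℕ) : ℝ) * (Q : ℝ) * p ^ m ≤ p ^ m * (2 ^ g * σ ^ m) := by
    have h4 : ((N.card * Q : ℕ) : ℝ) ≤
        ∑ v ∈ V, (((Fs.filter (fun f => kil f v)).card : ℕ) : ℝ) := by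
      exact_mod_cast h1
    rw [Nat.cast_mul] at h4
    calc (N.card : ℝ) * Q * p ^ m ≤
        (∑ v ∈ V, (((Fs.filter (fun f => kil f v)).card : ℕ) : ℝ)) * p ^ m :=
          mul_le_mul_of_nonneg_right h4 (by positivity)
      _ = ∑ v ∈ V, (((Fs.filter (fun f => kil f v)).card : ℕ) : ℝ) * p ^ m := by rw [sum_mul]
      _ ≤ ∑ v ∈ V, 2 ^ g * σ ^ m := sum_le_sum h2
      _ = V.card * (2 ^ g * σ ^ m) := by rw [sum_const, nsmul_eq_mul]
      _ ≤ p ^ m * (2 ^ g * σ ^ m) := by
        refine mul_le_mul_of_nonneg_right ?_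
          (mul_nonneg (by positivity) (pow_nonneg (sig_nonneg _ _) _))
        have h5 : V.card ≤ p ^ m := by
          rw [← hcardS]
          exact (card_le_card (filter_subset _ _)).trans (le_of_eq card_univ)
        exact_mod_cast h5
  have h4 : (0 : ℝ) < p ^ m := by positivity
  have h5 : ((N.card : ℕ) : ℝ) * (Q : ℝ) ≤ 2 ^ g * σ ^ m := by
    have h6 : p ^ m * (((N.card : ℕ) : ℝ) * (Q : ℝ)) ≤ p ^ m * (2 ^ g * σ ^ m) := by
      linarith
    exact le_of_mul_le_mul_left h6 h4
  refine le_trans ?_ h5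
  have h6 : (((p - 1 : ℕ) : ℝ)) ^ (∑ i ∈ I, finrank (ZMod p) (D i)) ≤ Q := by
    exact_mod_cast hQp
  exact mul_le_mul (Nat.cast_le.2 hN) h6 (by positivity) (Nat.cast_nonneg _)

end Pool.Agent.TH170.QC
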