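import Mathlib
import Pool.Agent.TH170.QC.Fam

/-!
# Counting the odd sign functions that are degenerate at several components, with the dimensions of
the spaces of fixed vectors
-/

set_option linter.unusedSectionVars false
set_option linter.unusedVariables false

namespace Pool.Agent.TH170.QC

open Finset Module Pool.Agent.TH170.MF Pool.Agent.TH170.GC

variable {p : ℕ} [Fact p.Prime] {G X : Type*} [Group G] [Fintype G] [MulAction G X] [Fintype X]
  [DecidableEq X] [MulAction.IsPretransitive G X] {n : ℕ} {D : Fin n → Type*} {d : Fin n → ℕ}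
  [∀ i, Field (D i)] [∀ i, Algebra (ZMod p) (D i)] [∀ i, Module.Finite (ZMod p) (D i)]
  [∀ i, NeZero (d i)]
  (π : MonoidAlgebra (ZMod p) G ≃ₐ[ZMod p] Π i, Matrix (Fin (d i)) (Fin (d i)) (D i))

/-- The space of the vectors fixed by the stabilizer of `x₀` and odd with respect to `c`. -/
def goodSpace (x₀ : X) (c : G) (i : Fin n) : Submodule (D i) (Fin (d i) → D i) where
  carrier := {v | (∀ h : G, h • x₀ = x₀ → (π (MonoidAlgebra.single h 1) i).mulVec v = v) ∧
    (π (MonoidAlgebra.single c 1) i).mulVec v = - v}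
  zero_mem' := ⟨fun h _ => Matrix.mulVec_zero _, by rw [Matrix.mulVec_zero, neg_zero]⟩
  add_mem' := by
    rintro v w ⟨h1, h2⟩ ⟨h3, h4⟩
    refine ⟨fun h hh => ?_, ?_⟩
    · rw [Matrix.mulVec_add, h1 h hh, h3 h hh]
    · rw [Matrix.mulVec_add, h2, h4, neg_add]
  smul_mem' := by
    rintro r v ⟨h1, h2⟩
    refine ⟨fun h hh => ?_, ?_⟩
    · rw [Matrix.mulVec_smul, h1 h hh]
    · rw [Matrix.mulVec_smul, h2, smul_neg]

theorem finrank_restrict (i : Fin n) (V : Submodule (D i) (Fin (d i) → D i)) :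
    Nat.card V = p ^ (finrank (ZMod p) (D i) * finrank (D i) V) := by
  classical
  have hDfin : Finite (D i) := Module.finite_of_finite (ZMod p)
  have hDft : Fintype (D i) := Fintype.ofFinite _
  have h1 : Nat.card V = Nat.card (D i) ^ finrank (D i) V := by
    rw [Nat.card_eq_fintype_card, Nat.card_eq_fintype_card, Module.card_eq_pow_finrank (K := D i)]
  have h2 : Nat.card (D i) = p ^ finrank (ZMod p) (D i) := by
    rw [Nat.card_eq_fintype_card, Module.card_eq_pow_finrank (K := ZMod p) (V := D i), ZMod.card]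
  rw [h1, h2, ← pow_mul]

/-- The number of odd sign functions that are degenerate at all components of a set. -/
theorem ncard_degAll_good (hp : p ≠ 2) (hpG : ¬ p ∣ Nat.card G) {c : G} (hc : c * c = 1)
    (hfree : ∀ x : X, c • x ≠ x) (hcen : ∀ x, c * x = x * c) {g : ℕ}
    (hg : Fintype.card X = 2 * g) (x₀ : X) {I : Finset (Fin n)} (hI : I.Nonempty) :
    (({f ∈ oddSigns X (fun x => c • x) | ∀ i ∈ I, ∃ v, Good π x₀ c i v ∧
      (π (hat x₀ (fun x => ((f x : ℤ) : ZMod p))) i).mulVec v = 0}.ncard : ℕ) : ℝ) *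
      ((p - 1 : ℕ) : ℝ) ^ (∑ i ∈ I, finrank (ZMod p) (D i)) *
      (p : ℝ) ^ (∑ i ∈ I, d i * finrank (ZMod p) (D i)) ≤
      2 ^ g * sig p ((g : ℝ) / ((∑ i ∈ I, d i * finrank (ZMod p) (D i) : ℕ) : ℝ)) ^
        (∑ i ∈ I, d i * finrank (ZMod p) (D i)) *
      (p : ℝ) ^ (∑ i ∈ I, finrank (ZMod p) (D i) * finrank (D i) (goodSpace π x₀ c i)) := by
  classical
  have hDfin : ∀ i, Finite (D i) := fun i => Module.finite_of_finite (ZMod p)
  have hDft : ∀ i, Fintype (D i) := fun i => Fintype.ofFinite _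
  set m := ∑ i ∈ I, d i * finrank (ZMod p) (D i) with hm
  set σ := sig p ((g : ℝ) / (m : ℝ)) with hσ
  have hcardD : ∀ i, Fintype.card (D i) = p ^ finrank (ZMod p) (D i) := by
    intro i
    rw [Module.card_eq_pow_finrank (K := ZMod p) (V := D i), ZMod.card]
  have hcardS : Fintype.card (∀ i : I, Fin (d i) → D i) = p ^ m := by
    rw [Fintype.card_pi, hm, ← sum_coe_sort I (fun i => d i * finrank (ZMod p) (D i)),
      ← prod_pow_eq_pow_sum]
    refine prod_congr rfl fun i _ => ?_
    rw [Fintype.card_fun, Fintype.card_fin, hcardD, ← pow_mul, mul_comm]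
  let Fs : Finset (X → ℤ) := (finite_oddSigns (X := X) (fun x => c • x)).toFinset
  let kil : (X → ℤ) → (∀ i : I, Fin (d i) → D i) → Prop := fun f v =>
    ∀ i : I, (π (hat x₀ (fun x => ((f x : ℤ) : ZMod p))) i).mulVec (v i) = 0
  let V : Finset (∀ i : I, Fin (d i) → D i) := univ.filter (fun v =>
    ∀ i : I, Good π x₀ c (i : Fin n) (v i))
  let N : Finset (X → ℤ) := Fs.filter (fun f => ∃ v ∈ V, kil f v)
  have hN : {f ∈ oddSigns X (fun x => c • x) | ∀ i ∈ I, ∃ v, Good π x₀ c i v ∧
      (π (hat x₀ (fun x => ((f x : ℤ) : ZMod p))) i).mulVec v = 0}.ncard ≤ N.card := by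
    rw [← Set.ncard_coe_finset]
    refine Set.ncard_le_ncard ?_ (Finset.finite_toSet _)
    rintro f ⟨hf, hex⟩
    choose! v hv using hex
    simp only [N, Fs, V, coe_filter, Set.Finite.mem_toFinset, mem_filter, mem_univ, true_and,
      Set.mem_ofPred_eq]
    exact ⟨hf, fun i => v i, fun i => (hv i i.2).1, fun i => (hv i i.2).2⟩
  set Q : ℕ := ∏ i : I, (Fintype.card (D i) - 1) with hQ
  have hQp : (p - 1) ^ (∑ i ∈ I, finrank (ZMod p) (D i)) ≤ Q := by
    rw [hQ, ← sum_coe_sort I (fun i => finrank (ZMod p) (D i)), ← prod_pow_eq_pow_sum]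
    refine prod_le_prod' fun i _ => ?_
    rw [hcardD]
    exact sub_one_pow_le p (Fact.out : p.Prime).one_le finrank_pos
  -- double counting
  have h1 : N.card * Q ≤ ∑ v ∈ V, (Fs.filter (fun f => kil f v)).card := by
    have h2 : ∑ v ∈ V, (Fs.filter (fun f => kil f v)).card =
        ∑ f ∈ Fs, (V.filter (fun v => kil f v)).card := by
      simp only [card_filter]
      rw [sum_comm]
    rw [h2, ← smul_eq_mul, ← sum_const]
    refine (sum_le_sum fun f hf => ?_).trans (sum_le_sum_of_subset (filter_subset _ _))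
    obtain ⟨v, hv, hfv⟩ := (mem_filter.1 hf).2
    have hv' := (mem_filter.1 hv).2
    have h3 : ((Fintype.piFinset (fun i : I => univ.filter (fun α : D i => α ≠ 0))).image
        (fun α => fun i => α i • v i)).card = Q := by
      rw [card_image_of_injOn, Fintype.card_piFinset, hQ]
      · refine prod_congr rfl fun i _ => ?_
        rw [filter_ne' univ (0 : D i), card_erase_of_mem (mem_univ _), card_univ]
      · intro α _ β _ h
        funext i
        have h4 : (α i - β i) • v i = 0 := by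
          rw [sub_smul]
          exact sub_eq_zero.2 (congrFun h i)
        exact sub_eq_zero.1 ((smul_eq_zero.1 h4).resolve_right (hv' i).1)
    rw [← h3]
    refine card_le_card ?_
    intro w hw
    obtain ⟨α, hα, rfl⟩ := mem_image.1 hw
    have hα' : ∀ i, α i ≠ 0 := fun i =>
      (mem_filter.1 (Fintype.mem_piFinset.1 hα i)).2
    rw [mem_filter]
    refine ⟨mem_filter.2 ⟨mem_univ _, fun i => ⟨smul_ne_zero (hα' i) (hv' i).1, ?_, ?_⟩⟩, ?_⟩
    · intro h hh
      rw [Matrix.mulVec_smul, (hv' i).2.1 h hh]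
    · rw [Matrix.mulVec_smul, (hv' i).2.2, smul_neg]
    · intro i
      rw [Matrix.mulVec_smul, hfv i, smul_zero]
  have h2 : ∀ v ∈ V, (((Fs.filter (fun f => kil f v)).card : ℕ) : ℝ) * p ^ m ≤
      2 ^ g * σ ^ m := by
    intro v hv
    have hv' := (mem_filter.1 hv).2
    have h3 := ncard_fam π hp hpG hc hfree hcen hg x₀ hI v hv'
    refine le_trans (le_of_eq ?_) h3
    congr 2
    rw [← Set.ncard_coe_finset]
    congr 1
    ext f
    simp only [Fs, kil, coe_filter, Set.Finite.mem_toFinset, Set.mem_ofPred_eq]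
  have hp0 : (0 : ℝ) < p := Nat.cast_pos.2 (Fact.out : p.Prime).pos
  have hVcard : V.card ≤ p ^ (∑ i ∈ I, finrank (ZMod p) (D i) *
      finrank (D i) (goodSpace π x₀ c i)) := by
    have h5 : Nat.card (∀ i : I, goodSpace π x₀ c (i : Fin n)) =
        p ^ (∑ i ∈ I, finrank (ZMod p) (D i) * finrank (D i) (goodSpace π x₀ c i)) := by
      rw [Nat.card_pi, ← sum_coe_sort I (fun i => finrank (ZMod p) (D i) *
        finrank (D i) (goodSpace π x₀ c i)), ← prod_pow_eq_pow_sum]
      exact prod_congr rfl fun i _ => finrank_restrict (p := p) (i : Fin n) _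
    rw [← h5, ← Fintype.card_coe, ← Nat.card_eq_fintype_card]
    have h6 : ∀ i : I, Finite (goodSpace π x₀ c (i : Fin n)) := fun i => inferInstance
    refine Nat.card_le_card_of_injective (fun v : V => fun i : I =>
      (⟨v.1 i, ((mem_filter.1 v.2).2 i).2⟩ : goodSpace π x₀ c (i : Fin n))) ?_
    intro v w h
    apply Subtype.ext
    funext i
    exact congrArg Subtype.val (congrFun h i)
  set h' := ∑ i ∈ I, finrank (ZMod p) (D i) * finrank (D i) (goodSpace π x₀ c i) with hh'
  have h3 : ((N.card : ℕ) : ℝ) * (Q : ℝ) * p ^ m ≤ 2 ^ g * σ ^ m * p ^ h' := by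
    have h4 : ((N.card * Q : ℕ) : ℝ) ≤
        ∑ v ∈ V, (((Fs.filter (fun f => kil f v)).card : ℕ) : ℝ) := by
      exact_mod_cast h1
    rw [Nat.cast_mul] at h4
    calc (N.card : ℝ) * Q * p ^ m ≤
        (∑ v ∈ V, (((Fs.filter (fun f => kil f v)).card : ℕ) : ℝ)) * p ^ m :=
          mul_le_mul_of_nonneg_right h4 (by positivity)
      _ = ∑ v ∈ V, (((Fs.filter (fun f => kil f v)).card : ℕ) : ℝ) * p ^ m := by rw [sum_mul]
      _ ≤ ∑ v ∈ V, 2 ^ g * σ ^ m := sum_le_sum h2
      _ = V.card * (2 ^ g * σ ^ m) := by rw [sum_const, nsmul_eq_mul]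
      _ ≤ p ^ h' * (2 ^ g * σ ^ m) := by
        refine mul_le_mul_of_nonneg_right ?_
          (mul_nonneg (by positivity) (pow_nonneg (sig_nonneg _ _) _))
        exact_mod_cast hVcard
      _ = _ := mul_comm _ _
  refine le_trans ?_ h3
  have h6 : (((p - 1 : ℕ) : ℝ)) ^ (∑ i ∈ I, finrank (ZMod p) (D i)) ≤ Q := by
    exact_mod_cast hQp
  refine mul_le_mul_of_nonneg_right ?_ (by positivity)
  exact mul_le_mul (Nat.cast_le.2 hN) h6 (by positivity) (Nat.cast_nonneg _)

end Pool.Agent.TH170.QC
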