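import Mathlib
import Pool.Agent.TH170.QC.Kil

/-!
# The dimension of the reduction of a rational space
-/

set_option linter.unusedSectionVars false
set_option linter.unusedVariables false

namespace Pool.Agent.TH170.QC

open Finset Module

variable {p : ℕ} [Fact p.Prime] {X : Type*} [Fintype X]

theorem le_finrank_redSpace (W : Submodule ℚ (X → ℚ)) :
    finrank ℚ W ≤ finrank (ZMod p) (redSpace p W) := by
  classical
  let b := Module.Free.chooseBasis ℤ (intPart W)
  let ι := Module.Free.ChooseBasisIndex ℤ (intPart W)
  -- the basis spans the rational space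
  have h1 : finrank ℚ W ≤ Fintype.card ι := by
    let v : ι → (X → ℚ) := fun i x => ((b i : X → ℤ) x : ℚ)
    have h2 : W ≤ Submodule.span ℚ (Set.range v) := by
      intro s hs
      obtain ⟨N, hN, u, hu, hus⟩ := exists_multiple hs
      have hN' : (N : ℚ) ≠ 0 := by exact_mod_cast hN
      have h3 : s = (N : ℚ)⁻¹ • fun x => (u x : ℚ) := by
        rw [hus, smul_smul, inv_mul_cancel₀ hN', one_smul]
      rw [h3]
      refine Submodule.smul_mem _ _ ?_
      have h4 := b.sum_repr ⟨u, hu⟩
      have h5 : (fun x => (u x : ℚ)) = ∑ i, ((b.repr ⟨u, hu⟩ i : ℤ) : ℚ) • v i := by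
        funext x
        have h6 : ((∑ i, (b.repr ⟨u, hu⟩ i) • b i : intPart W) : X → ℤ) x = u x :=
          congrFun (congrArg Subtype.val h4) x
        rw [← h6, Finset.sum_apply, Submodule.coe_sum, Finset.sum_apply]
        push_cast
        refine sum_congr rfl fun i _ => ?_
        simp only [v, Pi.smul_apply, smul_eq_mul]
        push_cast
        rfl
      rw [h5]
      exact Submodule.sum_mem _ fun i _ => Submodule.smul_mem _ _
        (Submodule.subset_span ⟨i, rfl⟩)
    exact (Submodule.finrank_mono h2).trans (finrank_range_le_card v)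
  refine h1.trans ?_
  -- the reductions are linearly independent
  let w : ι → redSpace p W := fun i => ⟨fun x => (((b i : X → ℤ) x : ℤ) : ZMod p),
    (b i : X → ℤ), (b i).2, rfl⟩
  have hli : LinearIndependent (ZMod p) w := by
    rw [Fintype.linearIndependent_iff]
    intro c hc i
    set u : intPart W := ∑ i, ((c i).val : ℤ) • b i with hu
    have h2 : ∀ x, (p : ℤ) ∣ (u : X → ℤ) x := by
      intro x
      rw [← ZMod.intCast_zmod_eq_zero_iff_dvd]
      have h3 := congrFun (congrArg Subtype.val hc) x
      rw [Submodule.coe_sum, Finset.sum_apply] at h3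
      rw [hu, Submodule.coe_sum, Finset.sum_apply]
      push_cast
      refine Eq.trans (sum_congr rfl fun i _ => ?_) h3
      simp only [w, Submodule.coe_smul, Pi.smul_apply, smul_eq_mul]
      push_cast
      rw [ZMod.natCast_zmod_val]
    choose u' hu' using h2
    have hp0 : (p : ℚ) ≠ 0 := by exact_mod_cast (Fact.out : p.Prime).ne_zero
    have hmem : u' ∈ intPart W := by
      rw [mem_intPart]
      have h3 : (fun x => (u' x : ℚ)) = (p : ℚ)⁻¹ • fun x => ((u : X → ℤ) x : ℚ) := by
        funext x
        rw [Pi.smul_apply, smul_eq_mul, hu' x]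
        push_cast
        field_simp
      rw [h3]
      exact W.smul_mem _ u.2
    have hup : u = (p : ℤ) • (⟨u', hmem⟩ : intPart W) := by
      apply Subtype.ext
      funext x
      rw [Submodule.coe_smul, Pi.smul_apply, smul_eq_mul]
      exact hu' x
    have h3 : b.repr u i = ((c i).val : ℤ) := by
      rw [hu]
      rw [map_sum, Finsupp.finsetSum_apply, Finset.sum_eq_single i]
      · rw [map_smul, Finsupp.smul_apply, Basis.repr_self, Finsupp.single_eq_same, smul_eq_mul,
          mul_one]
      · intro j _ hj
        rw [map_smul, Finsupp.smul_apply, Basis.repr_self, Finsupp.single_eq_of_ne (Ne.symm hj),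
          smul_zero]
      · intro h
        exact absurd (mem_univ _) h
    have h4 : (p : ℤ) ∣ ((c i).val : ℤ) := by
      rw [← h3, hup, map_smul, Finsupp.smul_apply, smul_eq_mul]
      exact Dvd.intro _ rfl
    have h5 : p ∣ (c i).val := by exact_mod_cast h4
    have h6 := Nat.eq_zero_of_dvd_of_lt h5 (ZMod.val_lt (c i))
    exact (ZMod.val_eq_zero _).1 h6
  exact hli.fintype_card_le_finrank

theorem finrank_redSpace (W : Submodule ℚ (X → ℚ)) :
    finrank (ZMod p) (redSpace p W) = finrank ℚ W :=
  le_antisymm (finrank_redSpace_le W) (le_finrank_redSpace W)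

end Pool.Agent.TH170.QC
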