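import Mathlib
import Pool.Agent.TH170.QC.Good
import Pool.Agent.TH170.QC.Sat

/-!
# The fixed vectors of the simple components of a stable rational space
-/

set_option linter.unusedSectionVars false
set_option linter.unusedVariables false

namespace Pool.Agent.TH170.QC

open Finset Module Pool.Agent.TH170.MF

/-- The functions of a space that are invariant under the stabilizer of a point. -/
def fixedPart (G : Type*) {X : Type*} [Group G] [MulAction G X] (x₀ : X)
    (S : Submodule ℚ (X → ℚ)) : Submodule ℚ (X → ℚ) where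
  carrier := {u | u ∈ S ∧ ∀ h : G, h • x₀ = x₀ → ∀ x, u (h • x) = u x}
  zero_mem' := ⟨S.zero_mem, fun h _ x => rfl⟩
  add_mem' := by
    rintro u v ⟨h1, h2⟩ ⟨h3, h4⟩
    exact ⟨S.add_mem h1 h3, fun h hh x => by rw [Pi.add_apply, Pi.add_apply, h2 h hh, h4 h hh]⟩
  smul_mem' := by
    rintro r u ⟨h1, h2⟩
    exact ⟨S.smul_mem r h1, fun h hh x => by rw [Pi.smul_apply, Pi.smul_apply, h2 h hh]⟩

variable {p : ℕ} [Fact p.Prime] {G X : Type*} [Group G] [Fintype G] [MulAction G X] [Fintype X]
  [DecidableEq X] [MulAction.IsPretransitive G X] {n : ℕ} {D : Fin n → Type*} {d : Fin n → ℕ}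
  [∀ i, Field (D i)] [∀ i, Algebra (ZMod p) (D i)] [∀ i, Module.Finite (ZMod p) (D i)]
  [∀ i, NeZero (d i)]
  (π : MonoidAlgebra (ZMod p) G ≃ₐ[ZMod p] Π i, Matrix (Fin (d i)) (Fin (d i)) (D i))

/-- The space of the row vectors fixed by the stabilizer of `x₀`. -/
def rowSpace (x₀ : X) (i : Fin n) : Submodule (D i) (Fin (d i) → D i) where
  carrier := {y | ∀ h : G, h • x₀ = x₀ → Matrix.vecMul y (π (MonoidAlgebra.single h 1) i) = y}
  zero_mem' := fun h _ => Matrix.zero_vecMul _
  add_mem' := by
    intro v w h1 h2 h hh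
    rw [Matrix.add_vecMul, h1 h hh, h2 h hh]
  smul_mem' := by
    intro r v h1 h hh
    rw [Matrix.smul_vecMul, h1 h hh]

/-- The sum of the elements of the stabilizer. -/
noncomputable def stabSum (p : ℕ) [Fact p.Prime] (G : Type*) [Group G] [Fintype G]
    {X : Type*} [MulAction G X] [DecidableEq X] (x₀ : X) : MonoidAlgebra (ZMod p) G :=
  ∑ γ ∈ univ.filter (fun γ : G => γ • x₀ = x₀), MonoidAlgebra.single γ 1

theorem stabSum_mul {x₀ : X} {h : G} (hh : h • x₀ = x₀) :
    stabSum p G x₀ * MonoidAlgebra.single h 1 = stabSum p G x₀ := by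
  classical
  rw [stabSum, sum_mul]
  refine Finset.sum_bij' (fun γ _ => γ * h) (fun γ _ => γ * h⁻¹) ?_ ?_ ?_ ?_ ?_
  · intro γ hγ
    rw [mem_filter] at hγ ⊢
    exact ⟨mem_univ _, by rw [mul_smul, hh, hγ.2]⟩
  · intro γ hγ
    rw [mem_filter] at hγ ⊢
    refine ⟨mem_univ _, ?_⟩
    have h1 : h⁻¹ • x₀ = x₀ := by rw [inv_smul_eq_iff, hh]
    rw [mul_smul, h1, hγ.2]
  · intro γ _
    rw [mul_inv_cancel_right]
  · intro γ _
    rw [inv_mul_cancel_right]
  · intro γ _
    rw [MonoidAlgebra.single_mul_single, one_mul]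

theorem card_stab_ne_zero (hpG : ¬ p ∣ Nat.card G) (x₀ : X) :
    (((univ.filter (fun γ : G => γ • x₀ = x₀)).card : ℕ) : ZMod p) ≠ 0 := by
  intro h
  rw [ZMod.natCast_eq_zero_iff] at h
  apply hpG
  rw [Nat.card_eq_fintype_card, ← card_fiber (G := G) x₀ x₀]
  exact Dvd.dvd.mul_right h _

theorem finrank_goodSpace_le (hpG : ¬ p ∣ Nat.card G) (x₀ : X) (c : G) (i : Fin n) :
    finrank (D i) (goodSpace π x₀ c i) ≤ finrank (D i) (rowSpace π x₀ i) := by
  classical
  set A := π (stabSum p G x₀) i with hA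
  set N := (univ.filter (fun γ : G => γ • x₀ = x₀)).card with hN
  have hN0 : ((N : ℕ) : D i) ≠ 0 := by
    intro h
    apply card_stab_ne_zero (p := p) hpG x₀
    have h1 : algebraMap (ZMod p) (D i) ((N : ℕ) : ZMod p) = 0 := by
      rw [map_natCast]
      exact h
    exact (map_eq_zero _).1 h1
  have h1 : goodSpace π x₀ c i ≤ LinearMap.range A.mulVecLin := by
    rintro v ⟨hv, -⟩
    refine ⟨((N : ℕ) : D i)⁻¹ • v, ?_⟩
    rw [Matrix.mulVecLin_apply, Matrix.mulVec_smul]
    have h2 : A.mulVec v = ((N : ℕ) : D i) • v := by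
      rw [hA, stabSum, map_sum, Finset.sum_apply, Matrix.sum_mulVec,
        sum_congr rfl fun γ hγ => hv γ (mem_filter.1 hγ).2, sum_const, ← hN, Nat.cast_smul_eq_nsmul]
    rw [h2, smul_smul, inv_mul_cancel₀ hN0, one_smul]
  have h2 : LinearMap.range A.transpose.mulVecLin ≤ rowSpace π x₀ i := by
    rintro _ ⟨z, rfl⟩ h hh
    rw [Matrix.mulVecLin_apply, Matrix.mulVec_transpose, Matrix.vecMul_vecMul, hA, ← Pi.mul_apply,
      ← map_mul, stabSum_mul hh]
  calc finrank (D i) (goodSpace π x₀ c i) ≤ finrank (D i) (LinearMap.range A.mulVecLin) :=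
        Submodule.finrank_mono h1
    _ = finrank (D i) (LinearMap.range A.transpose.mulVecLin) := by
        have h3 := Matrix.rank_transpose A
        rw [Matrix.rank, Matrix.rank] at h3
        exact h3.symm
    _ ≤ _ := Submodule.finrank_mono h2

/-- Row vectors give functions in the reduction of a stable space. -/
theorem exists_rows {S : Submodule ℚ (X → ℚ)} (hS : Invariant G S) (hS0 : S ≠ ⊥)
    {I : Finset (Fin n)} (hI : I = idx π (killers G (S : Set (X → ℚ)))) :
    ∃ Ψ : (∀ i : I, Fin (d i) → D i) →ₗ[ZMod p] (X → ZMod p),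
      Function.Injective Ψ ∧ (∀ y, Ψ y ∈ redSpace p S) ∧
      ∀ y (h : G), (∀ i : I,
        Matrix.vecMul (y i) (π (MonoidAlgebra.single h 1) i) = y i) → ∀ x, Ψ y (h • x) = Ψ y x := by
  classical
  obtain ⟨u₀, hu₀, hu₀0⟩ := exists_ne_zero_intPart hS0
  obtain ⟨x₀, -⟩ := Function.ne_iff.1 hu₀0
  have h1 : ∀ i : I, ∃ u : X → ℤ, u ∈ intPart S ∧ ∃ k l, π (red p G (theta x₀ u)) i k l ≠ 0 := by
    intro i
    have hi : (i : Fin n) ∈ idx π (killers G (S : Set (X → ℚ))) := hI ▸ i.2
    obtain ⟨u, hu, hne⟩ := exists_ne_zero (p := p) π hS hS0 x₀ hi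
    refine ⟨u, hu, ?_⟩
    by_contra hcon
    push Not at hcon
    apply hne
    ext k l
    exact hcon k l
  choose u hu k l hkl using h1
  let N : ∀ i : I, (Fin (d i) → D i) → Matrix (Fin (d i)) (Fin (d i)) (D i) := fun i y =>
    Matrix.of fun a b => if a = l i then y b else 0
  let Ψ : (∀ i : I, Fin (d i) → D i) →ₗ[ZMod p] (X → ZMod p) :=
    { toFun := fun y => ∑ i : I, act (fun x => ((u i x : ℤ) : ZMod p))
        (π.symm (Pi.single (i : Fin n) (N i (y i))))
      map_add' := by
        intro y z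
        rw [← sum_add_distrib]
        refine sum_congr rfl fun i _ => ?_
        rw [← act_add_right, ← map_add, ← Pi.single_add]
        congr 3
        ext a b
        simp only [N, Matrix.of_apply, Matrix.add_apply, Pi.add_apply]
        split_ifs
        · rfl
        · rw [add_zero]
      map_smul' := by
        intro r y
        rw [RingHom.id_apply, smul_sum]
        refine sum_congr rfl fun i _ => ?_
        rw [← act_smul_right, ← map_smul, ← Pi.single_smul]
        congr 3
        ext a b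
        simp only [N, Matrix.of_apply, Matrix.smul_apply, Pi.smul_apply]
        split_ifs
        · rfl
        · rw [smul_zero] }
  have hΨ : ∀ y, Ψ y = ∑ i : I, act (fun x => ((u i x : ℤ) : ZMod p))
      (π.symm (Pi.single (i : Fin n) (N i (y i)))) := fun y => rfl
  have hrange : ∀ y, Ψ y ∈ redSpace p S := by
    intro y
    rw [hΨ]
    refine (redSpace p S).sum_mem fun i _ => act_mem_redSpace hS ?_ _
    exact ⟨u i, hu i, rfl⟩
  have htheta : ∀ y, (theta x₀ (Ψ y) : MonoidAlgebra (ZMod p) G) =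
      ∑ i : I, theta x₀ (fun x => ((u i x : ℤ) : ZMod p)) *
        (π.symm (Pi.single (i : Fin n) (N i (y i)))) := by
    intro y
    rw [hΨ]
    have h4 : ∀ (s : Finset I) (F : I → (X → ZMod p)),
        (theta x₀ (∑ i ∈ s, F i) : MonoidAlgebra (ZMod p) G) = ∑ i ∈ s, theta x₀ (F i) := by
      intro s F
      induction s using Finset.induction_on with
      | empty => rw [sum_empty, sum_empty, theta_zero]
      | insert i s hi ih => rw [sum_insert hi, sum_insert hi, theta_add, ih]
    rw [h4]
    exact sum_congr rfl fun i _ => (theta_mul _ _ _).symm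
  have hinj : Function.Injective Ψ := by
    rw [← LinearMap.ker_eq_bot, LinearMap.ker_eq_bot']
    intro y hy
    have h2 : ∑ i : I, theta x₀ (fun x => ((u i x : ℤ) : ZMod p)) *
        (π.symm (Pi.single (i : Fin n) (N i (y i)))) = 0 := by
      rw [← htheta, hy, theta_zero]
    funext j
    have h3 := congrArg (fun x => π x j) h2
    simp only [map_sum, map_mul, Finset.sum_apply, Pi.mul_apply, AlgEquiv.apply_symm_apply,
      map_zero, Pi.zero_apply] at h3
    rw [Finset.sum_eq_single j] at h3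
    · rw [Pi.single_eq_same] at h3
      funext b
      have h4 := congrFun (congrFun h3 (k j)) b
      rw [Matrix.mul_apply, Finset.sum_eq_single (l j)] at h4
      · simp only [N, Matrix.of_apply, if_true] at h4
        rw [Matrix.zero_apply, ← red_theta] at h4
        exact (mul_eq_zero.1 h4).resolve_left (hkl j)
      · intro a _ ha
        simp only [N, Matrix.of_apply, if_neg ha, mul_zero]
      · intro h
        exact absurd (mem_univ _) h
    · intro i _ hij
      have h4 : (Pi.single (i : Fin n) (N i (y i)) :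
          ∀ i, Matrix (Fin (d i)) (Fin (d i)) (D i)) j = 0 :=
        Pi.single_eq_of_ne (fun h => hij (Subtype.ext h.symm)) _
      rw [h4, mul_zero]
    · intro h
      exact absurd (mem_univ _) h
  refine ⟨Ψ, hinj, hrange, fun y h hy => ?_⟩
  have h2 : (theta x₀ (Ψ y) : MonoidAlgebra (ZMod p) G) * MonoidAlgebra.single h 1 =
      theta x₀ (Ψ y) := by
    rw [htheta, sum_mul]
    refine sum_congr rfl fun i _ => ?_
    rw [mul_assoc]
    congr 1
    apply π.injective
    rw [map_mul, AlgEquiv.apply_symm_apply]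
    funext j
    rw [Pi.mul_apply]
    by_cases hj : j = i
    · subst hj
      rw [Pi.single_eq_same]
      ext a b
      rw [Matrix.mul_apply]
      simp only [N, Matrix.of_apply]
      split_ifs with ha
      · exact congrFun (hy i) b
      · simp
    · rw [Pi.single_eq_of_ne hj, zero_mul]
  rw [theta_mul] at h2
  have h3 := theta_injective (G := G) x₀ h2
  intro x
  have h4 := congrFun h3 x
  rw [act, Finset.sum_eq_single h] at h4
  · rw [MonoidAlgebra.coeff_single, Finsupp.single_eq_same, one_mul] at h4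
    exact h4
  · intro γ _ hγ
    rw [MonoidAlgebra.coeff_single, Finsupp.single_eq_of_ne hγ, zero_mul]
  · intro h5
    exact absurd (mem_univ _) h5

/-- The number of fixed vectors of the simple components of a stable space. -/
theorem sum_good_le (hpG : ¬ p ∣ Nat.card G) {S : Submodule ℚ (X → ℚ)} (hS : Invariant G S)
    (hS0 : S ≠ ⊥) (x₀ : X) (c : G) :
    ∑ i ∈ idx π (killers G (S : Set (X → ℚ))),
      finrank (ZMod p) (D i) * finrank (D i) (goodSpace π x₀ c i) ≤
      finrank ℚ (fixedPart G x₀ S) := by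
  classical
  set I := idx π (killers G (S : Set (X → ℚ))) with hI
  obtain ⟨Ψ, hinj, hrange, hfix⟩ := exists_rows (p := p) π hS hS0 hI
  have hfinite : ∀ i : I, Module.Finite (ZMod p) (rowSpace π x₀ (i : Fin n)) := fun i =>
    Module.Finite.trans (D i) _
  let ι : (∀ i : I, rowSpace π x₀ (i : Fin n)) →ₗ[ZMod p] (∀ i : I, Fin (d i) → D i) :=
    { toFun := fun y i => (y i : Fin (d i) → D i)
      map_add' := fun y z => rfl
      map_smul' := fun r y => rfl }
  have hmem : ∀ y, (Ψ ∘ₗ ι) y ∈ redSpace p (fixedPart G x₀ S) := by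
    intro y
    obtain ⟨u, hu, huy⟩ := hrange (ι y)
    have hinv : ∀ h : G, h • x₀ = x₀ → ∀ x, Ψ (ι y) (h • x) = Ψ (ι y) x := fun h hh =>
      hfix (ι y) h fun i => (y i).2 h hh
    set Hs := univ.filter (fun γ : G => γ • x₀ = x₀) with hHs
    have h1 : (fun x => ((∑ h ∈ Hs, u (h • x) : ℤ) : ℚ)) ∈ fixedPart G x₀ S := by
      constructor
      · have h2 : (fun x => ((∑ h ∈ Hs, u (h • x) : ℤ) : ℚ)) =
            ∑ h ∈ Hs, fun x => ((u (h • x) : ℤ) : ℚ) := by
          funext x
          rw [Finset.sum_apply]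
          push_cast
          rfl
        rw [h2]
        exact S.sum_mem fun h _ => hS h _ hu
      · intro h hh x
        beta_reduce
        congr 1
        refine Finset.sum_bij' (fun γ _ => γ * h) (fun γ _ => γ * h⁻¹) ?_ ?_ ?_ ?_ ?_
        · intro γ hγ
          rw [hHs, mem_filter] at hγ ⊢
          exact ⟨mem_univ _, by rw [mul_smul, hh, hγ.2]⟩
        · intro γ hγ
          rw [hHs, mem_filter] at hγ ⊢
          refine ⟨mem_univ _, ?_⟩
          have h1 : h⁻¹ • x₀ = x₀ := by rw [inv_smul_eq_iff, hh]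
          rw [mul_smul, h1, hγ.2]
        · intro γ _
          rw [mul_inv_cancel_right]
        · intro γ _
          rw [inv_mul_cancel_right]
        · intro γ _
          rw [mul_smul]
    have h2 : ((Hs.card : ℕ) : ZMod p) • (Ψ (ι y)) ∈ redSpace p (fixedPart G x₀ S) := by
      refine ⟨fun x => ∑ h ∈ Hs, u (h • x), h1, ?_⟩
      funext x
      rw [Pi.smul_apply, smul_eq_mul]
      push_cast
      have h3 : ∀ h ∈ Hs, ((u (h • x) : ℤ) : ZMod p) = Ψ (ι y) x := by
        intro h hh
        rw [← hinv h (mem_filter.1 hh).2 x, ← huy]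
      rw [sum_congr rfl h3, sum_const, nsmul_eq_mul]
    have h3 := (redSpace p (fixedPart G x₀ S)).smul_mem (((Hs.card : ℕ) : ZMod p))⁻¹ h2
    rw [smul_smul, inv_mul_cancel₀ (card_stab_ne_zero hpG x₀), one_smul] at h3
    exact h3
  have h1 : finrank (ZMod p) (∀ i : I, rowSpace π x₀ (i : Fin n)) ≤
      finrank (ZMod p) (redSpace p (fixedPart G x₀ S)) := by
    refine LinearMap.finrank_le_finrank_of_injective
      (f := (Ψ ∘ₗ ι).codRestrict (redSpace p (fixedPart G x₀ S)) hmem) ?_
    intro y z h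
    have h2 : ι y = ι z := hinj (congrArg Subtype.val h)
    funext i
    exact Subtype.ext (congrFun h2 i)
  have h2 : finrank (ZMod p) (∀ i : I, rowSpace π x₀ (i : Fin n)) =
      ∑ i ∈ I, finrank (ZMod p) (D i) * finrank (D i) (rowSpace π x₀ i) := by
    rw [Module.finrank_pi_fintype, ← sum_coe_sort I (fun i => finrank (ZMod p) (D i) *
      finrank (D i) (rowSpace π x₀ i))]
    refine sum_congr rfl fun i _ => ?_
    exact (Module.finrank_mul_finrank (ZMod p) (D i) (rowSpace π x₀ (i : Fin n))).symm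
  rw [finrank_redSpace, h2] at h1
  refine le_trans (sum_le_sum fun i _ => ?_) h1
  exact Nat.mul_le_mul_left _ (finrank_goodSpace_le π hpG x₀ c i)

end Pool.Agent.TH170.QC
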