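import Mathlib
import Pool.Agent.TH170.QC.Row

/-!
# Stable spaces with commuting equivariant endomorphisms
-/

set_option linter.unusedSectionVars false
set_option linter.unusedVariables false

namespace Pool.Agent.TH170.QC

open Finset Module Pool.Agent.TH170.MF

/-- The equivariant endomorphisms of a stable space commute with each other. -/
def CommEnd (G : Type*) {X : Type*} [Group G] [MulAction G X] (S : Submodule ℚ (X → ℚ)) : Prop :=
  ∀ A B : (X → ℚ) →ₗ[ℚ] (X → ℚ),
    (∀ (γ : G) (u : X → ℚ) (x : X), A (fun y => u (γ • y)) x = A u (γ • x)) →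
    (∀ (γ : G) (u : X → ℚ) (x : X), B (fun y => u (γ • y)) x = B u (γ • x)) →
    (∀ u, A u ∈ S) → (∀ u, B u ∈ S) → ∀ s ∈ S, A (B s) = B (A s)

section lift

variable {p : ℕ} [Fact p.Prime] {G X : Type*} [Group G] [Fintype G] [MulAction G X] [Fintype X]
  [DecidableEq X]

/-- Equivariant maps to the reduction of a stable space lift, up to the order of the group. -/
theorem exists_equivariant_lift {S : Submodule ℚ (X → ℚ)} (hS : Invariant G S)
    (φ : (X → ZMod p) →ₗ[ZMod p] (X → ZMod p)) (hφ : ∀ w, φ w ∈ redSpace p S)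
    (heq : ∀ (γ : G) (w : X → ZMod p) (x : X), φ (fun y => w (γ • y)) x = φ w (γ • x)) :
    ∃ A : (X → ℚ) →ₗ[ℚ] (X → ℚ),
      (∀ (γ : G) (u : X → ℚ) (x : X), A (fun y => u (γ • y)) x = A u (γ • x)) ∧
      (∀ u, A u ∈ S) ∧
      ∀ u : X → ℤ, ∃ v ∈ intPart S, A (fun x => (u x : ℚ)) = (fun x => (v x : ℚ)) ∧
        ∀ x, ((v x : ℤ) : ZMod p) = (Nat.card G : ZMod p) * φ (fun y => ((u y : ℤ) : ZMod p)) x := by
  classical
  choose s hs hsφ using fun y : X => hφ (Pi.single y 1)
  let A : (X → ℚ) →ₗ[ℚ] (X → ℚ) :=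
    { toFun := fun u x => ∑ γ : G, ∑ y, u (γ⁻¹ • y) * (s y (γ • x) : ℚ)
      map_add' := by
        intro u v
        funext x
        simp only [Pi.add_apply, add_mul, sum_add_distrib]
      map_smul' := by
        intro r u
        funext x
        simp only [Pi.smul_apply, smul_eq_mul, RingHom.id_apply, mul_sum, mul_assoc] }
  have hA : ∀ u x, A u x = ∑ γ : G, ∑ y, u (γ⁻¹ • y) * (s y (γ • x) : ℚ) := fun u x => rfl
  have hAS : ∀ u, A u ∈ S := by
    intro u
    have h1 : A u = ∑ γ : G, ∑ y, u (γ⁻¹ • y) • fun x => (s y (γ • x) : ℚ) := by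
      funext x
      rw [hA, Finset.sum_apply]
      refine sum_congr rfl fun γ _ => ?_
      rw [Finset.sum_apply]
      exact sum_congr rfl fun y _ => by rw [Pi.smul_apply, smul_eq_mul]
    rw [h1]
    exact S.sum_mem fun γ _ => S.sum_mem fun y _ => S.smul_mem _ (hS γ _ (hs y))
  refine ⟨A, ?_, hAS, ?_⟩
  · intro δ u x
    rw [hA, hA, ← Equiv.sum_comp (Equiv.mulRight δ)
      (fun γ : G => ∑ y, (fun y => u (δ • y)) (γ⁻¹ • y) * (s y (γ • x) : ℚ))]
    refine sum_congr rfl fun γ _ => sum_congr rfl fun y _ => ?_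
    rw [Equiv.coe_mulRight]
    beta_reduce
    rw [mul_inv_rev, mul_smul, smul_inv_smul, mul_smul]
  · intro u
    let v : X → ℤ := fun x => ∑ γ : G, ∑ y, u (γ⁻¹ • y) * s y (γ • x)
    have hv : A (fun x => (u x : ℚ)) = (fun x => (v x : ℚ)) := by
      funext x
      rw [hA]
      simp only [v]
      push_cast
      rfl
    refine ⟨v, ?_, hv, ?_⟩
    · rw [mem_intPart, ← hv]
      exact hAS _
    · intro x
      simp only [v]
      push_cast
      have h1 : ∀ (w : X → ZMod p) (x : X), φ w x = ∑ y, w y * ((s y x : ℤ) : ZMod p) := by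
        intro w x
        have h2 : w = ∑ y, w y • (Pi.single y 1 : X → ZMod p) := by
          funext z
          rw [Finset.sum_apply, Finset.sum_eq_single z]
          · rw [Pi.smul_apply, Pi.single_eq_same, smul_eq_mul, mul_one]
          · intro y _ hy
            rw [Pi.smul_apply, Pi.single_eq_of_ne (Ne.symm hy), smul_zero]
          · intro h
            exact absurd (mem_univ _) h
        conv_lhs => rw [h2]
        rw [map_sum, Finset.sum_apply]
        refine sum_congr rfl fun y _ => ?_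
        rw [map_smul, Pi.smul_apply, smul_eq_mul, ← hsφ]
      have h2 : ∀ γ : G, ∑ y, ((u (γ⁻¹ • y) : ℤ) : ZMod p) * ((s y (γ • x) : ℤ) : ZMod p) =
          φ (fun y => ((u y : ℤ) : ZMod p)) x := by
        intro γ
        rw [← h1 (fun y => ((u (γ⁻¹ • y) : ℤ) : ZMod p))]
        have h3 := heq γ⁻¹ (fun y => ((u y : ℤ) : ZMod p)) (γ • x)
        rw [inv_smul_smul] at h3
        exact h3
      rw [sum_congr rfl fun γ _ => h2 γ, sum_const, card_univ, nsmul_eq_mul,
        Nat.card_eq_fintype_card]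

/-- Equivariant maps to the reduction of a space with commuting endomorphisms commute. -/
theorem comm_of_commEnd (hpG : ¬ p ∣ Nat.card G) {S : Submodule ℚ (X → ℚ)} (hS : Invariant G S)
    (hcomm : CommEnd G S) (φ ψ : (X → ZMod p) →ₗ[ZMod p] (X → ZMod p))
    (hφ : ∀ w, φ w ∈ redSpace p S) (hψ : ∀ w, ψ w ∈ redSpace p S)
    (heφ : ∀ (γ : G) (w : X → ZMod p) (x : X), φ (fun y => w (γ • y)) x = φ w (γ • x))
    (heψ : ∀ (γ : G) (w : X → ZMod p) (x : X), ψ (fun y => w (γ • y)) x = ψ w (γ • x))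
    {w : X → ZMod p} (hw : w ∈ redSpace p S) : φ (ψ w) = ψ (φ w) := by
  obtain ⟨A, hA, hAS, hAr⟩ := exists_equivariant_lift hS φ hφ heφ
  obtain ⟨B, hB, hBS, hBr⟩ := exists_equivariant_lift hS ψ hψ heψ
  obtain ⟨u, hu, rfl⟩ := hw
  obtain ⟨v, hv, hAu, hvr⟩ := hAr u
  obtain ⟨v', hv', hBv, hvr'⟩ := hBr v
  obtain ⟨w, hw, hBu, hwr⟩ := hBr u
  obtain ⟨w', hw', hAw, hwr'⟩ := hAr w
  have h1 := hcomm A B hA hB hAS hBS _ hu
  rw [hAu, hBu, hBv, hAw] at h1
  have hG : (Nat.card G : ZMod p) ≠ 0 := fun h => hpG ((ZMod.natCast_eq_zero_iff _ _).1 h)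
  have key : ∀ (χ : (X → ZMod p) →ₗ[ZMod p] (X → ZMod p)) (a : X → ZMod p) (b : X → ℤ) (x : X),
      (∀ y, ((b y : ℤ) : ZMod p) = (Nat.card G : ZMod p) * a y) →
      χ (fun y => ((b y : ℤ) : ZMod p)) x = (Nat.card G : ZMod p) * χ a x := by
    intro χ a b x hb
    have h2 : (fun y => ((b y : ℤ) : ZMod p)) = (Nat.card G : ZMod p) • a := by
      funext y
      rw [hb, Pi.smul_apply, smul_eq_mul]
    rw [h2, map_smul, Pi.smul_apply, smul_eq_mul]
  funext x
  have h2 := congrFun h1 x
  have h3 : w' x = v' x := by exact_mod_cast h2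
  have h4 := congrArg (fun t : ℤ => (t : ZMod p)) h3
  beta_reduce at h4
  rw [hvr', hwr', key φ _ _ _ hwr, key ψ _ _ _ hvr] at h4
  exact mul_left_cancel₀ hG (mul_left_cancel₀ hG h4)

end lift

variable {p : ℕ} [Fact p.Prime] {G X : Type*} [Group G] [Fintype G] [MulAction G X] [Fintype X]
  [DecidableEq X] [MulAction.IsPretransitive G X] {n : ℕ} {D : Fin n → Type*} {d : Fin n → ℕ}
  [∀ i, Field (D i)] [∀ i, Algebra (ZMod p) (D i)] [∀ i, Module.Finite (ZMod p) (D i)]
  [∀ i, NeZero (d i)]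
  (π : MonoidAlgebra (ZMod p) G ≃ₐ[ZMod p] Π i, Matrix (Fin (d i)) (Fin (d i)) (D i))

/-- The rank one endomorphism of the reduction of a stable space. -/
theorem exists_rank_one {S : Submodule ℚ (X → ℚ)} (hS : Invariant G S) (x₀ : X) (i : Fin n)
    {w₀ : X → ZMod p} (hw₀ : w₀ ∈ redSpace p S) (z : Fin (d i) → D i)
    (a : Fin (d i) → D i) (hz : z = (π (theta x₀ w₀) i).mulVec a) (ξ : Fin (d i) → D i) :
    ∃ φ : (X → ZMod p) →ₗ[ZMod p] (X → ZMod p), (∀ w, φ w ∈ redSpace p S) ∧
      (∀ (γ : G) (w : X → ZMod p) (x : X), φ (fun y => w (γ • y)) x = φ w (γ • x)) ∧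
      ∀ w, π (theta x₀ (φ w)) i =
        Matrix.vecMulVec z (Matrix.vecMul ξ (π (theta x₀ w) i)) := by
  classical
  let F : (X → ZMod p) → MonoidAlgebra (ZMod p) G := fun w =>
    π.symm (Pi.single i (Matrix.vecMulVec a (Matrix.vecMul ξ (π (theta x₀ w) i))))
  have hFadd : ∀ w w', F (w + w') = F w + F w' := by
    intro w w'
    simp only [F]
    rw [← map_add, ← Pi.single_add, theta_add, map_add, Pi.add_apply, Matrix.vecMul_add,
      Matrix.vecMulVec_add]
  have hFsmul : ∀ (r : ZMod p) w, F (r • w) = r • F w := by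
    intro r w
    simp only [F]
    rw [← map_smul, ← Pi.single_smul, theta_smul, map_smul, Pi.smul_apply, Matrix.vecMul_smul,
      Matrix.vecMulVec_smul]
  let φ : (X → ZMod p) →ₗ[ZMod p] (X → ZMod p) :=
    { toFun := fun w => act w₀ (F w)
      map_add' := by
        intro w w'
        rw [hFadd, act_add_right]
      map_smul' := by
        intro r w
        rw [hFsmul, act_smul_right, RingHom.id_apply] }
  have hφ : ∀ w, φ w = act w₀ (F w) := fun w => rfl
  have hθ : ∀ w, (theta x₀ (φ w) : MonoidAlgebra (ZMod p) G) =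
      π.symm (Pi.single i (Matrix.vecMulVec z (Matrix.vecMul ξ (π (theta x₀ w) i)))) := by
    intro w
    rw [hφ, ← theta_mul]
    apply π.injective
    rw [map_mul, AlgEquiv.apply_symm_apply, AlgEquiv.apply_symm_apply]
    funext j
    rw [Pi.mul_apply]
    by_cases hj : j = i
    · subst hj
      rw [Pi.single_eq_same, Pi.single_eq_same, hz, Matrix.mul_vecMulVec]
    · rw [Pi.single_eq_of_ne hj, Pi.single_eq_of_ne hj, mul_zero]
  refine ⟨φ, fun w => act_mem_redSpace hS hw₀ _, ?_, ?_⟩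
  · intro γ w x
    have h1 : ∀ w' : X → ZMod p, act w' (MonoidAlgebra.single γ 1) = fun x => w' (γ • x) := by
      intro w'
      funext x
      rw [act, Finset.sum_eq_single γ]
      · rw [MonoidAlgebra.coeff_single, Finsupp.single_eq_same, one_mul]
      · intro δ _ hδ
        rw [MonoidAlgebra.coeff_single, Finsupp.single_eq_of_ne hδ, zero_mul]
      · intro h5
        exact absurd (mem_univ _) h5
    have h2 : φ (fun y => w (γ • y)) = fun x => φ w (γ • x) := by
      apply theta_injective (G := G) x₀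
      rw [← h1, ← h1, ← theta_mul, hθ, hθ, ← theta_mul]
      apply π.injective
      simp only [map_mul, AlgEquiv.apply_symm_apply]
      funext j
      simp only [Pi.mul_apply]
      by_cases hj : j = i
      · subst hj
        rw [Pi.single_eq_same, Pi.single_eq_same, ← Matrix.vecMul_vecMul,
          Matrix.vecMulVec_mul]
      · rw [Pi.single_eq_of_ne hj, Pi.single_eq_of_ne hj, zero_mul]
    exact congrFun h2 x
  · intro w
    rw [hθ, AlgEquiv.apply_symm_apply, Pi.single_eq_same]

/-- If the endomorphisms commute, the columns of the components are proportional. -/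
theorem columns_proportional (hpG : ¬ p ∣ Nat.card G) {S : Submodule ℚ (X → ℚ)}
    (hS : Invariant G S) (hcomm : CommEnd G S) (x₀ : X) (i : Fin n) {w₀ w : X → ZMod p}
    (hw₀ : w₀ ∈ redSpace p S) (hw : w ∈ redSpace p S) {k₀ l₀ : Fin (d i)}
    (hne : π (theta x₀ w₀) i k₀ l₀ ≠ 0) (h0 : ∀ l, π (theta x₀ w) i k₀ l = 0) :
    π (theta x₀ w) i = 0 := by
  classical
  by_contra hcon
  obtain ⟨k₁, l₁, hkl⟩ : ∃ k l, π (theta x₀ w) i k l ≠ 0 := by
    by_contra h
    push Not at h
    apply hcon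
    ext k l
    exact h k l
  set M₀ := π (theta x₀ w₀) i with hM₀
  set M := π (theta x₀ w) i with hM
  set v := M₀.mulVec (Pi.single l₀ 1) with hv
  set z := M.mulVec (Pi.single l₁ 1) with hz
  have hvk : ∀ k, v k = M₀ k l₀ := fun k => by rw [hv, Matrix.mulVec_single_one]; rfl
  have hzk : ∀ k, z k = M k l₁ := fun k => by rw [hz, Matrix.mulVec_single_one]; rfl
  have hz0 : z k₀ = 0 := by rw [hzk, h0]
  -- the linear forms
  let ξ : Fin (d i) → D i := Pi.single k₀ (M₀ k₀ l₀)⁻¹
  let ξ' : Fin (d i) → D i := Pi.single k₁ 1 - Pi.single k₀ (v k₁ * (v k₀)⁻¹)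
  have hξv : ξ ⬝ᵥ v = 1 := by
    simp only [ξ, single_dotProduct]
    rw [hvk, inv_mul_cancel₀ hne]
  have hξ'v : ξ' ⬝ᵥ v = 0 := by
    simp only [ξ', sub_dotProduct, single_dotProduct, one_mul]
    rw [inv_mul_cancel_right₀ (by rw [hvk]; exact hne), sub_self]
  have hξ'z : ξ' ⬝ᵥ z ≠ 0 := by
    simp only [ξ', sub_dotProduct, single_dotProduct, one_mul]
    rw [hz0, mul_zero, sub_zero, hzk]
    exact hkl
  obtain ⟨φ, hφS, hφe, hφ⟩ := exists_rank_one π hS x₀ i hw z (Pi.single l₁ 1) hz ξ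
  obtain ⟨ψ, hψS, hψe, hψ⟩ := exists_rank_one π hS x₀ i hw₀ v (Pi.single l₀ 1) hv ξ'
  have h1 := comm_of_commEnd hpG hS hcomm φ ψ hφS hψS hφe hψe hw₀
  have h2 := congrArg (fun w => π (theta x₀ w) i) h1
  beta_reduce at h2
  rw [hφ, hψ, hψ, hφ, Matrix.vecMul_vecMulVec, Matrix.vecMul_vecMulVec, hξv] at h2
  have h3 := congrFun (congrFun h2 k₀) l₀
  rw [Matrix.vecMulVec_apply, Matrix.vecMulVec_apply, hz0, zero_mul] at h3
  have h4 : v k₀ ≠ 0 := by rw [hvk]; exact hne
  have h5 := (mul_eq_zero.1 h3.symm).resolve_left h4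
  rw [Pi.smul_apply, smul_eq_mul] at h5
  have h6 : Matrix.vecMul ξ M₀ l₀ = 1 := by
    rw [← hξv, hv, Matrix.dotProduct_mulVec]
    simp
  rw [← hM₀, h6, mul_one] at h5
  exact hξ'z h5

/-- If the endomorphisms of a minimal stable space commute, its dimension is the sum of the
dimensions of the simple components of its reduction. -/
theorem finrank_le_of_commEnd (hpG : ¬ p ∣ Nat.card G) {S : Submodule ℚ (X → ℚ)}
    (hS : Invariant G S) (hS0 : S ≠ ⊥) (hcomm : CommEnd G S) (x₀ : X) :
    finrank ℚ S ≤ ∑ i ∈ idx π (killers G (S : Set (X → ℚ))), d i * finrank (ZMod p) (D i) := by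
  classical
  set I := idx π (killers G (S : Set (X → ℚ))) with hI
  have h1 : ∀ i : I, ∃ w ∈ redSpace p S, ∃ k l, π (theta x₀ w) i k l ≠ 0 := by
    intro i
    obtain ⟨u, hu, hne⟩ := exists_ne_zero (p := p) π hS hS0 x₀ i.2
    refine ⟨fun x => ((u x : ℤ) : ZMod p), ⟨u, hu, rfl⟩, ?_⟩
    rw [← red_theta]
    by_contra hcon
    push Not at hcon
    apply hne
    ext k l
    exact hcon k l
  choose w hw k l hkl using h1
  let Θ : redSpace p S →ₗ[ZMod p] (∀ i : I, Fin (d i) → D i) :=
    { toFun := fun a i => π (theta x₀ (a : X → ZMod p)) i (k i)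
      map_add' := by
        intro a b
        funext i
        rw [Submodule.coe_add, theta_add, map_add]
        rfl
      map_smul' := by
        intro r a
        funext i
        rw [Submodule.coe_smul, theta_smul, map_smul]
        rfl }
  have hΘ : Function.Injective Θ := by
    rw [← LinearMap.ker_eq_bot, LinearMap.ker_eq_bot']
    intro a ha
    have h2 : (theta x₀ (a : X → ZMod p) : MonoidAlgebra (ZMod p) G) = 0 := by
      apply π.injective
      rw [map_zero]
      funext j
      rw [Pi.zero_apply]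
      by_cases hj : j ∈ I
      · exact columns_proportional π hpG hS hcomm x₀ j (hw ⟨j, hj⟩) a.2 (hkl ⟨j, hj⟩)
          (fun l => congrFun (congrFun ha ⟨j, hj⟩) l)
      · rw [hI, mem_idx] at hj
        push Not at hj
        obtain ⟨b, hb, hne⟩ := hj
        obtain ⟨u, hu, hua⟩ := a.2
        obtain ⟨δ, hδ⟩ := exists_scalar π (fun C => ((b C : ℤ) : ZMod p)) j
        have hδ0 : δ ≠ 0 := by
          rintro rfl
          apply hne
          rw [red_cls, hδ, map_zero]
        have h3 : theta x₀ u * cls b = 0 := by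
          rw [theta_mul, act_eq_zero hb hu, theta_zero]
        have h4 := congrArg (fun y => π (red p G y) j) h3
        simp only [map_mul, Pi.mul_apply, map_zero, Pi.zero_apply, red_theta, red_cls, hua,
          hδ] at h4
        ext a' b'
        have h5 := congrFun (congrFun h4 a') b'
        rw [Matrix.scalar_apply, Matrix.mul_diagonal] at h5
        exact (mul_eq_zero.1 h5).resolve_right hδ0
    apply Subtype.ext
    apply theta_injective (G := G) x₀
    rw [h2]
    exact (theta_zero x₀).symm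
  have h2 := LinearMap.finrank_le_finrank_of_injective hΘ
  have h3 : finrank (ZMod p) (∀ i : I, Fin (d i) → D i) =
      ∑ i ∈ I, d i * finrank (ZMod p) (D i) := by
    rw [Module.finrank_pi_fintype, ← sum_coe_sort I (fun i => d i * finrank (ZMod p) (D i))]
    refine sum_congr rfl fun i _ => ?_
    rw [Module.finrank_pi_fintype, sum_const, card_univ, Fintype.card_fin, smul_eq_mul]
  rw [finrank_redSpace, h3] at h2
  exact h2

end Pool.Agent.TH170.QC
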