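import Mathlib
import Pool.Agent.TH170.QC.Com

/-!
# The degree of the centre and the dimension of the group algebra
-/

set_option linter.unusedSectionVars false
set_option linter.unusedVariables false

namespace Pool.Agent.TH170.QC

open Finset Module Pool.Agent.TH170.MF

variable {p : ℕ} [Fact p.Prime] {G X : Type*} [Group G] [Fintype G] [MulAction G X] [Fintype X]
  [MulAction.IsPretransitive G X] {n : ℕ} {D : Fin n → Type*} {d : Fin n → ℕ}
  [∀ i, Field (D i)] [∀ i, Algebra (ZMod p) (D i)] [∀ i, Module.Finite (ZMod p) (D i)]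
  [∀ i, NeZero (d i)]
  (π : MonoidAlgebra (ZMod p) G ≃ₐ[ZMod p] Π i, Matrix (Fin (d i)) (Fin (d i)) (D i))

/-- The degree of the centre is not smaller than the degree of its reduction. -/
theorem sum_finrank_le_quot (K : Submodule ℚ (ConjClasses G → ℚ)) :
    ∑ i ∈ idx π K, finrank (ZMod p) (D i) ≤ finrank ℚ ((ConjClasses G → ℚ) ⧸ K) := by
  classical
  set I := idx π K with hI
  let Θ : (ConjClasses G → ZMod p) →ₗ[ZMod p] (∀ i : I, D i) :=
    { toFun := fun b i => π (cls b) i 0 0
      map_add' := by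
        intro a b
        funext i
        rw [cls_add, map_add]
        rfl
      map_smul' := by
        intro r b
        funext i
        rw [cls_smul, map_smul]
        rfl }
  have hsurj : Function.Surjective Θ := by
    intro δ
    obtain ⟨b, hb⟩ := exists_lift (p := p) π (fun i => if h : i ∈ I then δ ⟨i, h⟩ else 0)
    refine ⟨fun C => ((b C : ℤ) : ZMod p), ?_⟩
    funext i
    change π (cls (fun C => ((b C : ℤ) : ZMod p))) i 0 0 = δ i
    rw [← red_cls, hb]
    beta_reduce
    rw [dif_pos i.2, Matrix.scalar_apply, Matrix.diagonal_apply_eq]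
  have hker : redSpace p K ≤ LinearMap.ker Θ := by
    rintro _ ⟨a, ha, rfl⟩
    rw [LinearMap.mem_ker]
    funext i
    change π (cls (fun C => ((a C : ℤ) : ZMod p))) i 0 0 = 0
    have hi : (i : Fin n) ∈ idx π K := i.2
    rw [← red_cls, (mem_idx π).1 hi a ha]
    rfl
  have h1 := LinearMap.finrank_range_add_finrank_ker Θ
  have h2 : finrank ℚ K ≤ finrank (ZMod p) (LinearMap.ker Θ) := by
    rw [← finrank_redSpace (p := p) K]
    exact Submodule.finrank_mono hker
  have h3 : finrank (ZMod p) (LinearMap.range Θ) = ∑ i ∈ I, finrank (ZMod p) (D i) := by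
    rw [LinearMap.range_eq_top.2 hsurj, finrank_top, Module.finrank_pi_fintype,
      ← sum_coe_sort I (fun i => finrank (ZMod p) (D i))]
  have h4 := Submodule.finrank_quotient_add_finrank K
  rw [Module.finrank_fintype_fun_eq_card] at h1 h4
  omega

include π in
/-- The dimension of the group algebra. -/
theorem sum_sq_le (I : Finset (Fin n)) :
    ∑ i ∈ I, d i * d i * finrank (ZMod p) (D i) ≤ Nat.card G := by
  classical
  have h1 : finrank (ZMod p) (MonoidAlgebra (ZMod p) G) =
      finrank (ZMod p) (Π i, Matrix (Fin (d i)) (Fin (d i)) (D i)) :=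
    LinearEquiv.finrank_eq π.toLinearEquiv
  rw [Module.finrank_pi_fintype, finrank_eq_card_basis (MonoidAlgebra.basis G (ZMod p)),
    ← Nat.card_eq_fintype_card] at h1
  rw [h1]
  refine (sum_le_sum_of_subset (subset_univ I)).trans (le_of_eq ?_)
  refine sum_congr rfl fun i _ => ?_
  rw [Module.finrank_matrix, Fintype.card_fin]

include π in
theorem sq_sum_le (I : Finset (Fin n)) {r : ℕ} (hr : ∑ i ∈ I, finrank (ZMod p) (D i) ≤ r) :
    (∑ i ∈ I, d i * finrank (ZMod p) (D i)) ^ 2 ≤ r * Nat.card G := by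
  classical
  have h1 := Finset.sum_mul_sq_le_sq_mul_sq I
    (fun i => (d i : ℝ) * √(finrank (ZMod p) (D i) : ℝ))
    (fun i => √(finrank (ZMod p) (D i) : ℝ))
  have h2 : ∀ i, (d i : ℝ) * √(finrank (ZMod p) (D i) : ℝ) * √(finrank (ZMod p) (D i) : ℝ) =
      ((d i * finrank (ZMod p) (D i) : ℕ) : ℝ) := by
    intro i
    rw [mul_assoc, Real.mul_self_sqrt (Nat.cast_nonneg _)]
    push_cast
    rfl
  have h3 : ∀ i, ((d i : ℝ) * √(finrank (ZMod p) (D i) : ℝ)) ^ 2 =
      ((d i * d i * finrank (ZMod p) (D i) : ℕ) : ℝ) := by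
    intro i
    rw [mul_pow, Real.sq_sqrt (Nat.cast_nonneg _)]
    push_cast
    ring
  have h4 : ∀ i, √(finrank (ZMod p) (D i) : ℝ) ^ 2 = ((finrank (ZMod p) (D i) : ℕ) : ℝ) :=
    fun i => Real.sq_sqrt (Nat.cast_nonneg _)
  simp only [h2, h3, h4] at h1
  have h5 : (∑ i ∈ I, d i * finrank (ZMod p) (D i)) ^ 2 ≤
      (∑ i ∈ I, d i * d i * finrank (ZMod p) (D i)) * ∑ i ∈ I, finrank (ZMod p) (D i) := by
    exact_mod_cast h1
  calc _ ≤ _ := h5
    _ ≤ Nat.card G * r := Nat.mul_le_mul (sum_sq_le π I) hr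
    _ = _ := mul_comm _ _

end Pool.Agent.TH170.QC
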