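import Mathlib
import Pool.Agent.TH170.QC.Fam

/-!
# The odd sign functions orthogonal to a stable space with given central character
-/

set_option linter.unusedSectionVars false
set_option linter.unusedVariables false

namespace Pool.Agent.TH170.QC

open Finset Module Pool.Agent.TH170.MF Pool.Agent.TH170.GC

variable {G X : Type*} [Group G] [Fintype G] [MulAction G X] [Fintype X]
  [DecidableEq X] [MulAction.IsPretransitive G X]

/-- The odd sign functions orthogonal to a minimal stable space of odd functions whose class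
functions are those of `K`. -/
def orthClass (c : G) (X : Type*) [MulAction G X] [Fintype X]
    (K : Submodule ℚ (ConjClasses G → ℚ)) : Set (X → ℤ) :=
  {f | f ∈ oddSigns X (fun x => c • x) ∧ ∃ S ∈ MinInv G (fun x : X => c • x),
    killers G (S : Set (X → ℚ)) = K ∧ ∀ s ∈ S, ∑ x, (f x : ℚ) * s x = 0}

theorem quot_pos {S : Submodule ℚ (X → ℚ)} (hS0 : S ≠ ⊥) :
    0 < finrank ℚ ((ConjClasses G → ℚ) ⧸ killers G (S : Set (X → ℚ))) := by
  classical
  have hne : killers G (S : Set (X → ℚ)) ≠ ⊤ := by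
    intro h
    obtain ⟨s, hs, hs0⟩ := (Submodule.ne_bot_iff S).1 hS0
    apply hs0
    have h1 : (fun C : ConjClasses G => if C = ConjClasses.mk 1 then (1 : ℚ) else 0) ∈
        killers G (S : Set (X → ℚ)) := by
      rw [h]
      exact Submodule.mem_top
    funext x
    have h2 := h1 s hs x
    rw [Finset.sum_eq_single 1] at h2
    · simp only [if_true, one_mul, one_smul] at h2
      exact h2
    · intro γ _ hγ
      have h3 : ConjClasses.mk γ ≠ ConjClasses.mk 1 := by
        intro h4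
        rw [ConjClasses.mk_eq_mk_iff_isConj, isConj_one_left] at h4
        exact hγ h4
      beta_reduce
      rw [if_neg h3, zero_mul]
    · intro h
      exact absurd (mem_univ _) h
  rw [Module.finrank_pos_iff]
  exact Submodule.Quotient.nontrivial_iff.2 hne

theorem ncard_orthClass {p : ℕ} [Fact p.Prime] (hp : p ≠ 2) (hpG : ¬ p ∣ Nat.card G) {c : G}
    (hc : c * c = 1) (hfree : ∀ x : X, c • x ≠ x) (hcen : ∀ x, c * x = x * c) {g : ℕ}
    (hg : Fintype.card X = 2 * g) {S₀ : Submodule ℚ (X → ℚ)}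
    (hS₀ : S₀ ∈ MinInv G (fun x : X => c • x)) :
    ∃ m : ℕ, 0 < m ∧ m ≤ finrank ℚ S₀ ∧
      (((orthClass c X (killers G (S₀ : Set (X → ℚ)))).ncard : ℕ) : ℝ) * ((p - 1 : ℕ) : ℝ) ^
        finrank ℚ ((ConjClasses G → ℚ) ⧸ killers G (S₀ : Set (X → ℚ))) ≤
      2 ^ g * sig p ((g : ℝ) / (m : ℝ)) ^ m := by
  classical
  obtain ⟨hS0, hSi, hSo, hSm⟩ := hS₀
  obtain ⟨s₀, -, hs₀⟩ := (Submodule.ne_bot_iff S₀).1 hS0
  obtain ⟨x₀, -⟩ := Function.ne_iff.1 hs₀
  have hX : Nonempty X := ⟨x₀⟩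
  obtain ⟨n, D, d, _, _, _, hd, ⟨π⟩⟩ := exists_fields p G hpG
  set K := killers G (S₀ : Set (X → ℚ)) with hK
  set I := idx π K with hI
  have hr := finrank_quot_le π (G := G) (X := X) (S := S₀) hSi
  rw [← hK, ← hI] at hr
  have hr0 : 0 < finrank ℚ ((ConjClasses G → ℚ) ⧸ K) := quot_pos hS0
  have hIne : I.Nonempty := by
    rw [Finset.nonempty_iff_ne_empty]
    intro h
    rw [h, sum_empty] at hr
    omega
  have hm := sum_dim_le π (G := G) (X := X) (S := S₀) hSi hS0
  rw [← hK, ← hI] at hm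
  set m := ∑ i ∈ I, d i * finrank (ZMod p) (D i) with hmdef
  have hm0 : 0 < m := by
    obtain ⟨i, hi⟩ := hIne
    exact Finset.sum_pos' (fun _ _ => Nat.zero_le _)
      ⟨i, hi, Nat.mul_pos (NeZero.pos (d i)) finrank_pos⟩
  refine ⟨m, hm0, hm, ?_⟩
  have h1 := ncard_degAll π hp hpG hc hfree hcen hg x₀ hIne
  refine le_trans ?_ h1
  have hp1 : 1 ≤ p - 1 := by
    have := (Fact.out : p.Prime).two_le
    omega
  have hpow : (((p - 1 : ℕ) : ℝ)) ^ finrank ℚ ((ConjClasses G → ℚ) ⧸ K) ≤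
      ((p - 1 : ℕ) : ℝ) ^ (∑ i ∈ I, finrank (ZMod p) (D i)) :=
    pow_le_pow_right₀ (by exact_mod_cast hp1) hr
  refine mul_le_mul (Nat.cast_le.2 ?_) hpow (by positivity) (Nat.cast_nonneg _)
  refine Set.ncard_le_ncard ?_ ((finite_oddSigns (X := X) (fun x => c • x)).subset
    fun f hf => hf.1)
  rintro f ⟨hf, S, ⟨hT0, hTi, hTo, hTm⟩, hSK, horth⟩
  refine ⟨hf, fun i hi => ?_⟩
  rw [hI, ← hSK] at hi
  obtain ⟨u, hu, hne⟩ := exists_ne_zero π hTi hT0 x₀ hi
  obtain ⟨k, l, hkl⟩ : ∃ k l, π (red p G (theta x₀ u)) i k l ≠ 0 := by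
    by_contra hcon
    push Not at hcon
    apply hne
    ext k l
    exact hcon k l
  set M := π (red p G (theta x₀ u)) i with hM
  have hcol : ∀ A : Matrix (Fin (d i)) (Fin (d i)) (D i), A.mulVec (fun k => M k l) =
      fun j => (A * M) j l := by
    intro A
    funext j
    rw [Matrix.mul_apply]
    rfl
  refine ⟨fun k => M k l, ⟨?_, ?_, ?_⟩, ?_⟩
  · intro h
    exact hkl (congrFun h k)
  · intro h hh
    rw [hcol, hM, ← Pi.mul_apply, ← map_mul, red_theta, single_mul_theta hh]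
  · have hodd : ∀ x, ((u (c • x) : ℤ) : ZMod p) = - ((u x : ℤ) : ZMod p) := by
      intro x
      have h2 : ((u (c • x) : ℤ) : ℚ) = - ((u x : ℤ) : ℚ) := hTo _ hu x
      have h3 : u (c • x) = - u x := by exact_mod_cast h2
      rw [h3]
      push_cast
      rfl
    rw [hcol, hM, ← Pi.mul_apply, ← map_mul, red_theta, single_mul_theta_odd hc hcen hodd,
      map_neg]
    rfl
  · rw [hcol, hM, ← Pi.mul_apply, ← map_mul, red_theta]
    have hmX : ∀ x, (univ.filter (fun γ : G => γ • x₀ = x)).card =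
        (univ.filter (fun γ : G => γ • x₀ = x₀)).card := by
      intro x
      have h3 := card_fiber (G := G) x₀ x
      have h4 := card_fiber (G := G) x₀ x₀
      have h5 : 0 < Fintype.card X := Fintype.card_pos_iff.2 ⟨x₀⟩
      exact Nat.eq_of_mul_eq_mul_right h5 (h3.trans h4.symm)
    rw [hat_mul_theta x₀ hmX, map_zero]
    · rfl
    · intro γ
      have h2 := horth _ (hTi γ _ hu)
      have h3 : ∑ x, f x * u (γ • x) = 0 := by exact_mod_cast h2
      have h4 := congrArg (fun t : ℤ => (t : ZMod p)) h3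
      push_cast at h4
      exact h4

end Pool.Agent.TH170.QC
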