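import Mathlib
import Pool.Agent.TH170.QC.Com
import Pool.Agent.TH170.QC.Deg
import Pool.Agent.TH170.QC.Group
import Pool.Agent.TH170.GC.Sig

/-!
# The odd sign functions orthogonal to a minimal stable space, with the codimension
-/

set_option linter.unusedSectionVars false
set_option linter.unusedVariables false

namespace Pool.Agent.TH170.QC

open Finset Module Pool.Agent.TH170.MF Pool.Agent.TH170.GC

theorem cw_le_one (N : ℕ) [NeZero N] (t : ZMod N) : cw N t ≤ 1 := by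
  rw [cw]
  have h1 : ‖(ZMod.stdAddChar t : ℂ) + ZMod.stdAddChar (-t)‖ ≤ 1 + 1 := by
    refine (norm_add_le _ _).trans ?_
    rw [AddChar.norm_apply, AddChar.norm_apply]
  linarith

theorem sig_anti {p : ℕ} [NeZero p] {a b : ℝ} (ha : 0 < a) (hab : a ≤ b) :
    sig p b ≤ sig p a := by
  rw [sig, sig]
  refine sum_le_sum fun t _ => ?_
  rcases (cw_nonneg p t).eq_or_lt with h | h
  · rw [← h, Real.zero_rpow (by linarith), Real.zero_rpow ha.ne']
  · exact Real.rpow_le_rpow_of_exponent_ge h (cw_le_one p t) hab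

theorem sig_pow_mono {p : ℕ} [NeZero p] {g m d : ℕ} (hg : 0 < g) (hm : 0 < m) (hmd : m ≤ d) :
    sig p ((g : ℝ) / m) ^ m ≤ sig p ((g : ℝ) / d) ^ d := by
  have hg' : (0 : ℝ) < g := Nat.cast_pos.2 hg
  have hm' : (0 : ℝ) < m := Nat.cast_pos.2 hm
  have hmd' : (m : ℝ) ≤ d := Nat.cast_le.2 hmd
  have h1 : sig p ((g : ℝ) / m) ≤ sig p ((g : ℝ) / d) :=
    sig_anti (div_pos hg' (hm'.trans_le hmd')) (by gcongr)
  calc sig p ((g : ℝ) / m) ^ m ≤ sig p ((g : ℝ) / d) ^ m :=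
        pow_le_pow_left₀ (sig_nonneg _ _) h1 m
    _ ≤ _ := pow_le_pow_right₀ (one_le_sig _) hmd

section good

variable {p : ℕ} [Fact p.Prime] {G X : Type*} [Group G] [Fintype G] [MulAction G X] [Fintype X]
  [DecidableEq X] [MulAction.IsPretransitive G X] {n : ℕ} {D : Fin n → Type*} {d : Fin n → ℕ}
  [∀ i, Field (D i)] [∀ i, Algebra (ZMod p) (D i)] [∀ i, Module.Finite (ZMod p) (D i)]
  [∀ i, NeZero (d i)]
  (π : MonoidAlgebra (ZMod p) G ≃ₐ[ZMod p] Π i, Matrix (Fin (d i)) (Fin (d i)) (D i))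

theorem exists_good {c : G} (hc : c * c = 1) (hcen : ∀ x, c * x = x * c)
    {S : Submodule ℚ (X → ℚ)} (hS : S ∈ MinInv G (fun x : X => c • x)) (x₀ : X) {i : Fin n}
    (hi : i ∈ idx π (killers G (S : Set (X → ℚ)))) :
    ∃ v, Good π x₀ c i v ∧ ∀ f : X → ℤ, (∀ s ∈ S, ∑ x, (f x : ℚ) * s x = 0) →
      (π (hat x₀ (fun x => ((f x : ℤ) : ZMod p))) i).mulVec v = 0 := by
  classical
  obtain ⟨hT0, hTi, hTo, hTm⟩ := hS
  obtain ⟨u, hu, hne⟩ := exists_ne_zero π hTi hT0 x₀ hi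
  obtain ⟨k, l, hkl⟩ : ∃ k l, π (red p G (theta x₀ u)) i k l ≠ 0 := by
    by_contra hcon
    push Not at hcon
    apply hne
    ext k l
    exact hcon k l
  set M := π (red p G (theta x₀ u)) i with hM
  have hcol : ∀ A : Matrix (Fin (d i)) (Fin (d i)) (D i), A.mulVec (fun k => M k l) =
      fun j => (A * M) j l := by
    intro A
    funext j
    rw [Matrix.mul_apply]
    rfl
  refine ⟨fun k => M k l, ⟨?_, ?_, ?_⟩, fun f horth => ?_⟩
  · intro h
    exact hkl (congrFun h k)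
  · intro h hh
    rw [hcol, hM, ← Pi.mul_apply, ← map_mul, red_theta, single_mul_theta hh]
  · have hodd : ∀ x, ((u (c • x) : ℤ) : ZMod p) = - ((u x : ℤ) : ZMod p) := by
      intro x
      have h2 : ((u (c • x) : ℤ) : ℚ) = - ((u x : ℤ) : ℚ) := hTo _ hu x
      have h3 : u (c • x) = - u x := by exact_mod_cast h2
      rw [h3]
      push_cast
      rfl
    rw [hcol, hM, ← Pi.mul_apply, ← map_mul, red_theta, single_mul_theta_odd hc hcen hodd,
      map_neg]
    rfl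
  · rw [hcol, hM, ← Pi.mul_apply, ← map_mul, red_theta]
    have hmX : ∀ x, (univ.filter (fun γ : G => γ • x₀ = x)).card =
        (univ.filter (fun γ : G => γ • x₀ = x₀)).card := by
      intro x
      have h3 := card_fiber (G := G) x₀ x
      have h4 := card_fiber (G := G) x₀ x₀
      have h5 : 0 < Fintype.card X := Fintype.card_pos_iff.2 ⟨x₀⟩
      exact Nat.eq_of_mul_eq_mul_right h5 (h3.trans h4.symm)
    rw [hat_mul_theta x₀ hmX, map_zero]
    · rfl
    · intro γ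
      have h2 := horth _ (hTi γ _ hu)
      have h3 : ∑ x, f x * u (γ • x) = 0 := by exact_mod_cast h2
      have h4 := congrArg (fun t : ℤ => (t : ZMod p)) h3
      push_cast at h4
      exact h4

end good

variable {G X : Type*} [Group G] [Fintype G] [MulAction G X] [Fintype X]
  [DecidableEq X] [MulAction.IsPretransitive G X]

/-- The degree of the centre. -/
noncomputable def cdeg (G : Type*) {X : Type*} [Group G] [Fintype G] [MulAction G X]
    (S : Submodule ℚ (X → ℚ)) : ℕ :=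
  finrank ℚ ((ConjClasses G → ℚ) ⧸ killers G (S : Set (X → ℚ)))

open Classical in
/-- The excess of the codimension of the degenerate locus. -/
noncomputable def excess (G : Type*) {X : Type*} [Group G] [MulAction G X]
    (x₀ : X) (S : Submodule ℚ (X → ℚ)) : ℕ :=
  if CommEnd G S then finrank ℚ S - finrank ℚ (fixedPart G x₀ S) else 0

/-- The number of odd sign functions orthogonal to some space of given class, for every prime
number that does not divide the order of the group. -/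
theorem ncard_orthClass_gen {p : ℕ} [Fact p.Prime] (hp : p ≠ 2) (hpG : ¬ p ∣ Nat.card G) {c : G}
    (hc : c * c = 1) (hfree : ∀ x : X, c • x ≠ x) (hcen : ∀ x, c * x = x * c) {g : ℕ}
    (hg : Fintype.card X = 2 * g) {S₀ : Submodule ℚ (X → ℚ)}
    (hS₀ : S₀ ∈ MinInv G (fun x : X => c • x)) (x₀ : X) :
    cdeg G S₀ + excess G x₀ S₀ ≤ finrank ℚ S₀ ∧
      ∃ m : ℕ, 0 < m ∧ m ≤ finrank ℚ S₀ ∧ m ^ 2 ≤ cdeg G S₀ * Nat.card G ∧
      (((orthClass c X (killers G (S₀ : Set (X → ℚ)))).ncard : ℕ) : ℝ) *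
        (((p - 1 : ℕ) : ℝ) ^ cdeg G S₀ * (p : ℝ) ^ excess G x₀ S₀) ≤
      2 ^ g * sig p ((g : ℝ) / (m : ℝ)) ^ m := by
  classical
  obtain ⟨hS0, hSi, hSo, hSm⟩ := hS₀
  have hX : Nonempty X := ⟨x₀⟩
  have hg1 : 0 < g := by
    have := Fintype.card_pos (α := X)
    omega
  obtain ⟨n, D, d, _, _, _, hd, ⟨π⟩⟩ := exists_fields p G hpG
  set K := killers G (S₀ : Set (X → ℚ)) with hK
  set I := idx π K with hI
  have hr : cdeg G S₀ ≤ ∑ i ∈ I, finrank (ZMod p) (D i) :=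
    finrank_quot_le π (G := G) (X := X) (S := S₀) hSi
  have hr0 : 0 < cdeg G S₀ := quot_pos hS0
  have hIne : I.Nonempty := by
    rw [Finset.nonempty_iff_ne_empty]
    intro h
    rw [h, sum_empty] at hr
    omega
  have hm : ∑ i ∈ I, d i * finrank (ZMod p) (D i) ≤ finrank ℚ S₀ :=
    sum_dim_le π (G := G) (X := X) (S := S₀) hSi hS0
  have hh : ∑ i ∈ I, finrank (ZMod p) (D i) * finrank (D i) (goodSpace π x₀ c i) ≤
      finrank ℚ (fixedPart G x₀ S₀) := sum_good_le π hpG hSi hS0 x₀ c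
  have hFr : ∑ i ∈ I, finrank (ZMod p) (D i) ≤ cdeg G S₀ := sum_finrank_le_quot π K
  have hmsq : (∑ i ∈ I, d i * finrank (ZMod p) (D i)) ^ 2 ≤ cdeg G S₀ * Nat.card G :=
    sq_sum_le π I hFr
  set m := ∑ i ∈ I, d i * finrank (ZMod p) (D i) with hmdef
  set F := ∑ i ∈ I, finrank (ZMod p) (D i) with hF
  set h' := ∑ i ∈ I, finrank (ZMod p) (D i) * finrank (D i) (goodSpace π x₀ c i) with hh'
  have hm0 : 0 < m := by
    obtain ⟨i, hi⟩ := hIne
    exact Finset.sum_pos' (fun _ _ => Nat.zero_le _)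
      ⟨i, hi, Nat.mul_pos (NeZero.pos (d i)) finrank_pos⟩
  have hFm : F ≤ m := by
    rw [hF, hmdef]
    exact sum_le_sum fun i _ => Nat.le_mul_of_pos_left _ (NeZero.pos (d i))
  have hFh : F ≤ h' := by
    rw [hF, hh']
    refine sum_le_sum fun i hi => Nat.le_mul_of_pos_right _ ?_
    obtain ⟨v, hv, -⟩ := exists_good π hc hcen ⟨hS0, hSi, hSo, hSm⟩ x₀ hi
    rw [Module.finrank_pos_iff]
    refine ⟨⟨v, hv.2.1, hv.2.2⟩, 0, fun h => hv.1 (congrArg Subtype.val h)⟩
  have hfix : finrank ℚ (fixedPart G x₀ S₀) ≤ finrank ℚ S₀ :=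
    Submodule.finrank_mono fun u hu => hu.1
  -- the set of the functions
  have hset : (orthClass c X K).ncard ≤ {f ∈ oddSigns X (fun x => c • x) | ∀ i ∈ I,
      ∃ v, Good π x₀ c i v ∧
        (π (hat x₀ (fun x => ((f x : ℤ) : ZMod p))) i).mulVec v = 0}.ncard := by
    refine Set.ncard_le_ncard ?_ ((finite_oddSigns (X := X) (fun x => c • x)).subset
      fun f hf => hf.1)
    rintro f ⟨hf, S, hS, hSK, horth⟩
    refine ⟨hf, fun i hi => ?_⟩
    rw [hI, ← hSK] at hi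
    obtain ⟨v, hv, hk⟩ := exists_good π hc hcen hS x₀ hi
    exact ⟨v, hv, hk f horth⟩
  set N := {f ∈ oddSigns X (fun x => c • x) | ∀ i ∈ I,
      ∃ v, Good π x₀ c i v ∧
        (π (hat x₀ (fun x => ((f x : ℤ) : ZMod p))) i).mulVec v = 0}.ncard with hN
  have hp1 : 1 ≤ p - 1 := by
    have := (Fact.out : p.Prime).two_le
    omega
  have hp0 : (0 : ℝ) < p := Nat.cast_pos.2 (Fact.out : p.Prime).pos
  have hp1' : (1 : ℝ) ≤ p := by exact_mod_cast (Fact.out : p.Prime).one_le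
  have hpow : (((p - 1 : ℕ) : ℝ)) ^ cdeg G S₀ ≤ ((p - 1 : ℕ) : ℝ) ^ F :=
    pow_le_pow_right₀ (by exact_mod_cast hp1) hr
  by_cases hcomm : CommEnd G S₀
  · have hex : excess G x₀ S₀ = finrank ℚ S₀ - finrank ℚ (fixedPart G x₀ S₀) := if_pos hcomm
    have hmd : finrank ℚ S₀ = m := le_antisymm (finrank_le_of_commEnd π hpG hSi hS0 hcomm x₀) hm
    refine ⟨by rw [hex]; omega, m, hm0, hm, hmsq, ?_⟩
    have h1 := ncard_degAll_good π hp hpG hc hfree hcen hg x₀ hIne
    rw [← hmdef, ← hF, ← hh', ← hN] at h1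
    have h2 : (N : ℝ) * ((p - 1 : ℕ) : ℝ) ^ F * (p : ℝ) ^ m ≤
        2 ^ g * sig p ((g : ℝ) / (m : ℝ)) ^ m * (p : ℝ) ^ finrank ℚ (fixedPart G x₀ S₀) := by
      refine h1.trans ?_
      refine mul_le_mul_of_nonneg_left (pow_le_pow_right₀ hp1' hh) ?_
      exact mul_nonneg (by positivity) (pow_nonneg (sig_nonneg _ _) _)
    rw [hex, hmd]
    set h := finrank ℚ (fixedPart G x₀ S₀) with hhdef
    have hhm : h ≤ m := by rw [← hmd]; exact hfix
    have h3 : (p : ℝ) ^ m = (p : ℝ) ^ (m - h) * (p : ℝ) ^ h := by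
      rw [← pow_add, Nat.sub_add_cancel hhm]
    rw [h3] at h2
    have h4 : (N : ℝ) * (((p - 1 : ℕ) : ℝ) ^ F * (p : ℝ) ^ (m - h)) * (p : ℝ) ^ h ≤
        2 ^ g * sig p ((g : ℝ) / (m : ℝ)) ^ m * (p : ℝ) ^ h := by
      refine le_trans (le_of_eq ?_) h2
      ring
    have h5 := le_of_mul_le_mul_right h4 (by positivity)
    refine le_trans ?_ h5
    refine mul_le_mul (Nat.cast_le.2 hset) ?_ (by positivity) (Nat.cast_nonneg _)
    exact mul_le_mul_of_nonneg_right hpow (by positivity)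
  · have hex : excess G x₀ S₀ = 0 := if_neg hcomm
    refine ⟨by rw [hex]; omega, m, hm0, hm, hmsq, ?_⟩
    rw [hex, pow_zero, mul_one]
    have h1 := ncard_degAll π hp hpG hc hfree hcen hg x₀ hIne
    rw [← hmdef, ← hF, ← hN] at h1
    calc _ ≤ (N : ℝ) * ((p - 1 : ℕ) : ℝ) ^ F :=
          mul_le_mul (Nat.cast_le.2 hset) hpow (by positivity) (Nat.cast_nonneg _)
      _ ≤ _ := h1

end Pool.Agent.TH170.QC
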