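import Mathlib
import Pool.Agent.TH170.QC.Gen

/-!
# Minimal stable spaces with the same class functions are isomorphic
-/

set_option linter.unusedSectionVars false
set_option linter.unusedVariables false

namespace Pool.Agent.TH170.QC

open Finset Module Pool.Agent.TH170.MF

variable {G X : Type*} [Group G] [Fintype G] [MulAction G X] [Fintype X]
  [DecidableEq X] [MulAction.IsPretransitive G X]

theorem exists_equivariant {S S' : Submodule ℚ (X → ℚ)} (hS : Invariant G S) (hS0 : S ≠ ⊥)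
    (hS' : Invariant G S') (hS0' : S' ≠ ⊥)
    (hK : killers G (S : Set (X → ℚ)) = killers G (S' : Set (X → ℚ))) :
    ∃ A : (X → ℚ) →ₗ[ℚ] (X → ℚ),
      (∀ (γ : G) (u : X → ℚ) (x : X), A (fun y => u (γ • y)) x = A u (γ • x)) ∧
      (∀ u, A u ∈ S') ∧ ∃ s ∈ S, A s ≠ 0 := by
  classical
  obtain ⟨s₀, -, hs₀⟩ := (Submodule.ne_bot_iff S).1 hS0
  obtain ⟨x₀, -⟩ := Function.ne_iff.1 hs₀
  have hX : Nonempty X := ⟨x₀⟩
  obtain ⟨p, hple, hp⟩ := Nat.exists_infinite_primes (Nat.card G + 1)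
  have hfact : Fact p.Prime := ⟨hp⟩
  have hpG : ¬ p ∣ Nat.card G := fun h => by
    have := Nat.le_of_dvd Nat.card_pos h
    omega
  obtain ⟨n, D, d, _, _, _, hd, ⟨π⟩⟩ := exists_fields p G hpG
  obtain ⟨i, hi⟩ : (idx π (killers G (S : Set (X → ℚ)))).Nonempty := by
    have h1 := finrank_quot_le π (G := G) (X := X) (S := S) hS
    have h2 := quot_pos (G := G) hS0
    rw [Finset.nonempty_iff_ne_empty]
    intro h
    rw [h, sum_empty] at h1
    omega
  obtain ⟨u, hu, hne⟩ := exists_ne_zero π hS hS0 x₀ hi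
  rw [hK] at hi
  obtain ⟨u', hu', hne'⟩ := exists_ne_zero π hS' hS0' x₀ hi
  have hentry : ∀ M : Matrix (Fin (d i)) (Fin (d i)) (D i), M ≠ 0 → ∃ k l, M k l ≠ 0 := by
    intro M hM
    by_contra hcon
    push Not at hcon
    apply hM
    ext k l
    exact hcon k l
  obtain ⟨k, l, hkl⟩ := hentry _ hne
  obtain ⟨k', l', hkl'⟩ := hentry _ hne'
  rw [red_theta] at hkl hkl'
  obtain ⟨φ, hφS, hφe, hφ⟩ := exists_rank_one (p := p) π hS' x₀ i
    (w₀ := fun x => ((u' x : ℤ) : ZMod p)) ⟨u', hu', rfl⟩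
    ((π (theta x₀ (fun x => ((u' x : ℤ) : ZMod p))) i).mulVec (Pi.single l' 1))
    (Pi.single l' 1) rfl (Pi.single k 1)
  obtain ⟨A, hA, hAS, hAr⟩ := exists_equivariant_lift hS' φ hφS hφe
  refine ⟨A, hA, hAS, fun x => (u x : ℚ), hu, ?_⟩
  intro h0
  obtain ⟨v, hv, hAv, hvr⟩ := hAr u
  rw [hAv] at h0
  have hG : (Nat.card G : ZMod p) ≠ 0 := fun h => hpG ((ZMod.natCast_eq_zero_iff _ _).1 h)
  have h1 : φ (fun y => ((u y : ℤ) : ZMod p)) = 0 := by
    funext x
    have h2 : (v x : ℚ) = 0 := congrFun h0 x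
    have h3 : v x = 0 := by exact_mod_cast h2
    have h4 := hvr x
    rw [h3, Int.cast_zero] at h4
    exact (mul_eq_zero.1 h4.symm).resolve_left hG
  have h2 := hφ (fun y => ((u y : ℤ) : ZMod p))
  rw [h1, theta_zero, map_zero, Pi.zero_apply] at h2
  have h3 := congrFun (congrFun h2 k') l
  rw [Matrix.vecMulVec_apply, Matrix.mulVec_single_one, Matrix.single_one_vecMul] at h3
  rcases mul_eq_zero.1 h3.symm with h4 | h4
  · exact hkl' h4
  · exact hkl h4

end Pool.Agent.TH170.QC
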