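import Mathlib

/-!
# A prime number of given size that does not divide a given number
-/

set_option linter.unusedSectionVars false
set_option linter.unusedVariables false

namespace Pool.Agent.TH170.QC

open Real Finset Chebyshev

theorem log_le_of_ge {P : ℝ} (hP : 10 ^ 4 ≤ P) :
    log P ≤ 9.7041 + 2 * (√P / 100 - 1) := by
  have h0 : (0 : ℝ) < P := by linarith [show (0 : ℝ) < 10 ^ 4 by norm_num]
  have h1 : √P ^ 2 = P := sq_sqrt h0.le
  have h2 : (0 : ℝ) < √P := sqrt_pos.2 h0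
  have h3 : log P = log (10 ^ 4) + 2 * log (√P / 100) := by
    rw [← log_rpow (by positivity), ← log_mul (by norm_num) (by positivity)]
    congr 1
    rw [rpow_two, div_pow, h1]
    ring
  have h4 : log (√P / 100) ≤ √P / 100 - 1 := log_le_sub_one_of_pos (by positivity)
  have h5 : log ((10 : ℝ) ^ 4) ≤ 14 * log 2 := by
    rw [← log_rpow (by norm_num)]
    refine log_le_log (by norm_num) ?_
    norm_num
  have h6 := log_two_lt_d9
  generalize log ((10 : ℝ) ^ 4) = L at h3 h5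
  generalize log (√P / 100) = M at h3 h4
  generalize log P = N at h3 ⊢
  linarith

theorem theta_sub {P : ℝ} (hP : 10 ^ 4 ≤ P) : P / 10 < θ P - θ (P / 4) := by
  have h0 : (10000 : ℝ) ≤ P := by
    refine le_trans (by norm_num) hP
  set n := ⌊P⌋₊ with hn
  have hnP : (n : ℝ) ≤ P := Nat.floor_le (by linarith)
  have hnP' : P < n + 1 := Nat.lt_floor_add_one _
  have h1 := theta_ge n
  have h2 : θ P = θ n := theta_eq_theta_coe_floor P
  have h3 : θ (P / 4) ≤ log 4 * (P / 4) := theta_le_log4_mul_x (by linarith)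
  have h4 : log 4 = 2 * log 2 := by
    rw [show (4 : ℝ) = 2 ^ 2 by norm_num, log_pow]
    norm_num
  have hl1 := log_two_gt_d9
  have hl2 := log_two_lt_d9
  have hL := log_le_of_ge hP
  set s := √P / 100 with hs
  have hsq : √P ^ 2 = P := sq_sqrt (by linarith)
  have hs1 : 1 ≤ s := by
    rw [hs, le_div_iff₀ (by norm_num), one_mul]
    exact le_sqrt_of_sq_le (by linarith)
  have hPs : P = 10000 * s ^ 2 := by
    rw [hs, div_pow, hsq]
    ring
  have hn1 : (1 : ℝ) ≤ n := by linarith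
  have h5 : log n ≤ 9.7041 + 2 * (s - 1) := (log_le_log (by linarith) hnP).trans hL
  have h6 : log (n + 1) ≤ log 2 + (9.7041 + 2 * (s - 1)) := by
    have h7 : log ((n : ℝ) + 1) ≤ log (2 * P) := log_le_log (by linarith) (by linarith)
    rw [log_mul (by norm_num) (by linarith)] at h7
    linarith
  have h7 : √(n : ℝ) ≤ 100 * s := by
    have : √(n : ℝ) ≤ √P := sqrt_le_sqrt hnP
    rw [hs]
    linarith
  have h8 : 2 * √(n : ℝ) * log n ≤ 2 * (100 * s) * (9.7041 + 2 * (s - 1)) := by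
    have h9 : 0 ≤ log (n : ℝ) := log_nonneg hn1
    gcongr
  have h9 : (n : ℝ) * log 2 ≥ (P - 1) * 0.6931 := by
    have : P - 1 ≤ n := by linarith
    have h10 : (0.6931 : ℝ) ≤ log 2 := by linarith
    have h11 : 0 ≤ P - 1 := by linarith
    calc (P - 1) * 0.6931 ≤ n * log 2 := by gcongr
      _ = _ := rfl
  rw [h2]
  have h10 : log 4 * (P / 4) ≤ 0.69315 * (P / 2) := by
    rw [h4]
    have h11 : log 2 ≤ 0.69315 := by linarith
    nlinarith
  have h11 : s ≤ s ^ 2 := by nlinarith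
  nlinarith

/-- A prime number between `P / 4` and `P` that does not divide `N`. -/
theorem exists_prime_not_dvd {P : ℝ} (hP : 10 ^ 4 ≤ P) {N : ℕ} (hN : 0 < N)
    (hlog : 10 * log N ≤ P) : ∃ p : ℕ, p.Prime ∧ ¬ p ∣ N ∧ P / 4 < p ∧ (p : ℝ) ≤ P := by
  classical
  by_contra hcon
  push Not at hcon
  have h0 : (0 : ℝ) ≤ P := le_trans (by norm_num) hP
  have h1 := theta_sub hP
  have h2 : θ P - θ (P / 4) = ∑ p ∈ (Finset.Ioc 0 ⌊P⌋₊).filter
      (fun p : ℕ => p.Prime ∧ P / 4 < p), log (p : ℝ) := by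
    rw [theta, theta]
    have h3 : (Finset.Ioc 0 ⌊P⌋₊).filter (fun p : ℕ => p.Prime) =
        (Finset.Ioc 0 ⌊P / 4⌋₊).filter (fun p : ℕ => p.Prime) ∪
          (Finset.Ioc 0 ⌊P⌋₊).filter (fun p : ℕ => p.Prime ∧ P / 4 < p) := by
      ext p
      simp only [mem_union, mem_filter, mem_Ioc]
      rw [Nat.le_floor_iff h0, Nat.le_floor_iff (by linarith)]
      constructor
      · rintro ⟨⟨h3, h4⟩, h5⟩
        rcases le_or_gt (p : ℝ) (P / 4) with h6 | h6
        · exact Or.inl ⟨⟨h3, h6⟩, h5⟩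
        · exact Or.inr ⟨⟨h3, h4⟩, h5, h6⟩
      · rintro (⟨⟨h3, h4⟩, h5⟩ | ⟨⟨h3, h4⟩, h5, h6⟩)
        · exact ⟨⟨h3, by linarith⟩, h5⟩
        · exact ⟨⟨h3, h4⟩, h5⟩
    rw [h3, sum_union, add_sub_cancel_left]
    rw [Finset.disjoint_left]
    intro p hp hp'
    simp only [mem_filter, mem_Ioc] at hp hp'
    rw [Nat.le_floor_iff (by linarith)] at hp
    linarith [hp.1.2, hp'.2.2]
  set F := (Finset.Ioc 0 ⌊P⌋₊).filter (fun p : ℕ => p.Prime ∧ P / 4 < p) with hF
  have hdvd : ∏ p ∈ F, p ∣ N := by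
    refine Finset.prod_primes_dvd N ?_ ?_
    · intro p hp
      rw [hF, mem_filter] at hp
      exact Nat.prime_iff.1 hp.2.1
    · intro p hp
      rw [hF, mem_filter, mem_Ioc, Nat.le_floor_iff h0] at hp
      by_contra h3
      exact absurd (hcon p hp.2.1 h3 hp.2.2) (not_lt.2 hp.1.2)
  have h4 : ∑ p ∈ F, log (p : ℝ) ≤ log N := by
    rw [← log_prod]
    · rw [← Nat.cast_prod]
      refine log_le_log ?_ ?_
      · rw [Nat.cast_pos]
        exact Nat.pos_of_dvd_of_pos hdvd hN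
      · exact_mod_cast Nat.le_of_dvd hN hdvd
    · intro p hp
      rw [hF, mem_filter] at hp
      exact_mod_cast hp.2.1.ne_zero
  rw [h2] at h1
  linarith

end Pool.Agent.TH170.QC
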