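import Mathlib
import Pool.Agent.TH170.GC.Sig
import Pool.Agent.TH170.QC.Group
import Pool.Agent.TH170.QC.Prime

/-!
# The explicit bound for the sign functions orthogonal to a minimal space of given character
-/

set_option linter.unusedSectionVars false
set_option linter.unusedVariables false

namespace Pool.Agent.TH170.QC

open Real Finset Module Pool.Agent.TH170.MF Pool.Agent.TH170.GC

theorem ncard_oddSigns_le {X : Type*} [Fintype X] [DecidableEq X] {c : X → X}
    (hcc : ∀ x, c (c x) = x) (hne : ∀ x, c x ≠ x) {g : ℕ} (hg : Fintype.card X = 2 * g) :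
    (oddSigns X c).ncard ≤ 2 ^ g := by
  classical
  obtain ⟨T, hT⟩ := exists_transversal hcc hne
  have hTg : T.card = g := by
    have := card_transversal hcc hT
    omega
  have h1 : (signs T).card = 2 ^ g := by
    rw [signs, Fintype.card_piFinset]
    rw [prod_const, card_pair (by norm_num), card_univ, Fintype.card_coe, hTg]
  rw [← h1, ← Set.ncard_coe_finset]
  refine Set.ncard_le_ncard_of_injOn (fun f => fun x : T => f x) ?_ ?_ (Finset.finite_toSet _)
  · intro f hf
    rw [mem_coe]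
    exact (mem_signs _).2 fun x => hf.1 x
  · intro f hf f' hf' h
    funext x
    by_cases hx : x ∈ T
    · exact congrFun h ⟨x, hx⟩
    · have hx' : c x ∈ T := by
        rw [hT]
        rw [hcc]
        exact hx
      have h1 : f (c x) = f' (c x) := congrFun h ⟨c x, hx'⟩
      have h3 : f (c x) = - f x := hf.2 x
      have h4 : f' (c x) = - f' x := hf'.2 x
      rw [h3, h4] at h1
      exact neg_injective h1

/-- The numerical facts about the size of the prime number. -/
theorem numerics {g d n : ℕ} {L : ℝ} (hd : 1 ≤ d) (hn : 2 * g ≤ n) (hg : 1 ≤ g)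
    (hL : L = log n) (hlt : 10 ^ 6 * L ^ 3 * d < g) :
    0.69 < L ∧ 10 ^ 4 ≤ 3 / 2 * √(g / (d * L)) ∧ 10 * L ≤ 3 / 2 * √(g / (d * L)) := by
  have hgR : (1 : ℝ) ≤ g := by exact_mod_cast hg
  have hdR : (1 : ℝ) ≤ d := by exact_mod_cast hd
  have hnR : 2 * (g : ℝ) ≤ n := by exact_mod_cast hn
  have h2 := log_two_gt_d9
  have hL0 : 0.69 < L := by
    have h1 : log 2 ≤ log n := log_le_log (by norm_num) (by linarith)
    rw [hL]
    linarith
  have hLpos : 0 < L := by linarith
  have h3 : (0.328 : ℝ) ≤ L ^ 3 := by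
    have : (0.69 : ℝ) ^ 3 ≤ L ^ 3 := pow_le_pow_left₀ (by norm_num) hL0.le 3
    norm_num at this ⊢
    linarith
  have h4 : (328000 : ℝ) < g := by
    have h5 : (0.328 : ℝ) * 1 ≤ L ^ 3 * d := mul_le_mul h3 hdR (by norm_num) (by positivity)
    nlinarith
  have h5 : 13 ≤ L := by
    have h5' : (2 : ℝ) ^ 19 = 524288 := by norm_num
    have h6 : log ((2 : ℝ) ^ 19) ≤ log n := log_le_log (by norm_num) (by rw [h5']; linarith)
    rw [log_pow] at h6
    push_cast at h6
    rw [hL]
    linarith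
  have hkey : 2250000 * L ^ 2 ≤ (3 / 2 * √(g / (d * L))) ^ 2 := by
    rw [mul_pow, sq_sqrt (by positivity)]
    have h6 : 10 ^ 6 * L ^ 2 ≤ g / (d * L) := by
      rw [le_div_iff₀ (by positivity)]
      nlinarith
    nlinarith
  refine ⟨hL0, ?_, ?_⟩
  · refine (pow_le_pow_iff_left₀ (by norm_num) (by positivity) two_ne_zero).1 ?_
    refine le_trans ?_ hkey
    nlinarith
  · refine (pow_le_pow_iff_left₀ (by positivity) (by positivity) two_ne_zero).1 ?_
    refine le_trans ?_ hkey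
    nlinarith

variable {G X : Type*} [Group G] [Fintype G] [MulAction G X] [Fintype X]
  [DecidableEq X] [MulAction.IsPretransitive G X]

/-- The explicit bound. -/
theorem ncard_orthClass_le {c : G} (hc : c * c = 1) (hfree : ∀ x : X, c • x ≠ x)
    (hcen : ∀ x, c * x = x * c) {g : ℕ} (hg : Fintype.card X = 2 * g)
    {S₀ : Submodule ℚ (X → ℚ)} (hS₀ : S₀ ∈ MinInv G (fun x : X => c • x)) :
    (((orthClass c X (killers G (S₀ : Set (X → ℚ)))).ncard : ℕ) : ℝ) ≤
      2 ^ g * √(10 ^ 6 * log (Nat.card G) ^ 3 * finrank ℚ S₀ / g) ^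
        finrank ℚ ((ConjClasses G → ℚ) ⧸ killers G (S₀ : Set (X → ℚ))) := by
  classical
  have hcc : ∀ x : X, c • c • x = x := fun x => by rw [smul_smul, hc, one_smul]
  have hS0 := hS₀.1
  obtain ⟨s₀, -, hs₀⟩ := (Submodule.ne_bot_iff S₀).1 hS0
  obtain ⟨x₀, -⟩ := Function.ne_iff.1 hs₀
  have hX : Nonempty X := ⟨x₀⟩
  have hg1 : 1 ≤ g := by
    have := Fintype.card_pos (α := X)
    omega
  have hgR : (1 : ℝ) ≤ g := by exact_mod_cast hg1
  have hn : 2 * g ≤ Nat.card G := by
    rw [← hg, ← Nat.card_eq_fintype_card (α := X)]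
    refine Nat.card_le_card_of_surjective (fun γ : G => γ • x₀) ?_
    intro x
    exact MulAction.exists_smul_eq G x₀ x
  have hd1 : 1 ≤ finrank ℚ S₀ := by
    have h1 : 0 < finrank ℚ S₀ := by
      rw [Module.finrank_pos_iff]
      exact Submodule.nontrivial_iff_ne_bot.2 hS0
    exact h1
  have hdg : finrank ℚ S₀ ≤ g := finrank_le_of_allOdd hcc hfree hS₀.2.2.1 hg
  set r := finrank ℚ ((ConjClasses G → ℚ) ⧸ killers G (S₀ : Set (X → ℚ))) with hr
  have hr0 : 0 < r := quot_pos hS0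
  set d := finrank ℚ S₀ with hd
  set L := log (Nat.card G) with hL
  have hdR : (1 : ℝ) ≤ d := by exact_mod_cast hd1
  have htot : (((orthClass c X (killers G (S₀ : Set (X → ℚ)))).ncard : ℕ) : ℝ) ≤ 2 ^ g := by
    have h1 : (orthClass c X (killers G (S₀ : Set (X → ℚ)))).ncard ≤ 2 ^ g :=
      (Set.ncard_le_ncard (fun f hf => hf.1) (finite_oddSigns _)).trans
        (ncard_oddSigns_le hcc hfree hg)
    exact_mod_cast h1
  set B := √(10 ^ 6 * L ^ 3 * d / g) with hB
  have hL69 : 0.69 < L := by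
    have h1 : log 2 ≤ log (Nat.card G) := log_le_log (by norm_num) (by
      have : ((2 * g : ℕ) : ℝ) ≤ Nat.card G := by exact_mod_cast hn
      push_cast at this
      linarith)
    linarith [log_two_gt_d9]
  have hLpos : 0 < L := by linarith
  by_cases hB1 : 1 ≤ B
  · refine htot.trans ?_
    calc (2 : ℝ) ^ g = 2 ^ g * 1 := (mul_one _).symm
      _ ≤ _ := mul_le_mul_of_nonneg_left (one_le_pow₀ hB1) (by positivity)
  push Not at hB1
  have hlt : 10 ^ 6 * L ^ 3 * d < g := by
    have h1 : B ^ 2 < 1 := by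
      have hB0 : 0 ≤ B := sqrt_nonneg _
      nlinarith
    rw [hB, sq_sqrt (by positivity), div_lt_one (by linarith)] at h1
    exact h1
  obtain ⟨-, hP1, hP2⟩ := numerics hd1 hn hg1 hL hlt
  set P := 3 / 2 * √((g : ℝ) / (d * L)) with hP
  have hP0 : 0 < P := lt_of_lt_of_le (by norm_num) hP1
  have hPsq : P ^ 2 = 9 / 4 * (g / (d * L)) := by
    rw [hP, mul_pow, sq_sqrt (by positivity)]
    norm_num
  have hcardpos : 0 < Nat.card G := Nat.card_pos
  obtain ⟨p, hp, hpG, hp1, hp2⟩ := exists_prime_not_dvd hP1 hcardpos hP2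
  have hfact : Fact p.Prime := ⟨hp⟩
  have hp3 : 2 < p := by
    have h1 : (2 : ℝ) < p := by
      have : (10 : ℝ) ^ 4 / 4 ≤ P / 4 := by linarith
      norm_num at this
      linarith
    exact_mod_cast h1
  have hodd : Odd p := hp.odd_of_ne_two (by omega)
  have hp0 : (0 : ℝ) < p := by linarith
  obtain ⟨m, hm0, hmd, hmain⟩ := ncard_orthClass (p := p) (by omega) hpG hc hfree hcen hg hS₀
  rw [← hr] at hmain
  have hm0R : (0 : ℝ) < m := by exact_mod_cast hm0
  have hmdR : (m : ℝ) ≤ d := by exact_mod_cast hmd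
  have hsig : sig p ((g : ℝ) / (m : ℝ)) ^ m ≤ exp 1 := by
    refine sig_pow_le hodd (by positivity) ?_
    have h1 : 2 * L ≤ π ^ 2 * ((g : ℝ) / m) / (2 * p ^ 2) := by
      rw [le_div_iff₀ (by positivity)]
      have h2 : (p : ℝ) ^ 2 ≤ 9 / 4 * (g / (d * L)) := by
        rw [← hPsq]
        exact pow_le_pow_left₀ hp0.le hp2 2
      have h3 : (p : ℝ) ^ 2 * L ≤ 9 / 4 * (g / d) := by
        have h4 := mul_le_mul_of_nonneg_right h2 hLpos.le
        have h5 : 9 / 4 * ((g : ℝ) / (d * L)) * L = 9 / 4 * (g / d) := by field_simp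
        linarith
      have h4 : (g : ℝ) / d ≤ g / m := by gcongr
      have h5 : (9 : ℝ) ≤ π ^ 2 := by nlinarith [pi_gt_three]
      have h6 : 0 ≤ (g : ℝ) / m := by positivity
      nlinarith
    have h2 : (p : ℝ) ≤ 2 * g := by
      refine hp2.trans ?_
      refine (pow_le_pow_iff_left₀ hP0.le (by positivity) two_ne_zero).1 ?_
      rw [hPsq, mul_pow, ← mul_div_assoc, div_le_iff₀ (by positivity)]
      have h3 : 0.69 ≤ (d : ℝ) * L := by nlinarith
      have h4 : 9 / 4 * (g : ℝ) ≤ 2 ^ 2 * (g : ℝ) ^ 2 * 0.69 := by nlinarith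
      have h5 : 2 ^ 2 * (g : ℝ) ^ 2 * 0.69 ≤ 2 ^ 2 * (g : ℝ) ^ 2 * (d * L) := by gcongr
      linarith
    have h3 : (m : ℝ) ≤ 2 * g := by
      have : (d : ℝ) ≤ g := by exact_mod_cast hdg
      linarith
    have h4 : 2 * (g : ℝ) ≤ Nat.card G := by exact_mod_cast hn
    calc (p : ℝ) * m ≤ (2 * g) * (2 * g) := by gcongr
      _ ≤ Nat.card G * Nat.card G := by gcongr
      _ = exp (2 * L) := by
        rw [two_mul L, exp_add, hL, exp_log (by linarith)]
      _ ≤ _ := exp_le_exp.2 h1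
  have hcast : ((p - 1 : ℕ) : ℝ) = (p : ℝ) - 1 := by
    rw [Nat.cast_sub (by omega), Nat.cast_one]
  rw [hcast] at hmain
  have hpP : P / 5 ≤ (p : ℝ) - 1 := by
    have : (10 : ℝ) ^ 4 = 10000 := by norm_num
    rw [this] at hP1
    linarith
  have hBP : B * P = 1500 * L := by
    have h1 : (B * P) ^ 2 = (1500 * L) ^ 2 := by
      rw [mul_pow, hPsq, hB, sq_sqrt (by positivity)]
      field_simp
      ring
    have h2 : 0 ≤ B * P := by positivity
    exact (pow_left_inj₀ h2 (by positivity) two_ne_zero).1 h1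
  have hB0 : 0 ≤ B := sqrt_nonneg _
  have hBp : exp 1 ≤ B * ((p : ℝ) - 1) := by
    have h1 : B * (P / 5) ≤ B * ((p : ℝ) - 1) := mul_le_mul_of_nonneg_left hpP hB0
    have h2 : exp 1 ≤ 2.7182818286 := exp_one_lt_d9.le
    nlinarith
  have hpow : exp 1 ≤ (B * ((p : ℝ) - 1)) ^ r := by
    have h1 : 1 ≤ B * ((p : ℝ) - 1) := by
      have := one_le_exp (zero_le_one (α := ℝ))
      linarith
    exact hBp.trans (le_self_pow₀ h1 hr0.ne')
  have hpp : 0 < ((p : ℝ) - 1) ^ r := by
    refine pow_pos ?_ r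
    have : (2 : ℝ) < p := by exact_mod_cast hp3
    linarith
  have hfin : (((orthClass c X (killers G (S₀ : Set (X → ℚ)))).ncard : ℕ) : ℝ) *
      ((p : ℝ) - 1) ^ r ≤ 2 ^ g * B ^ r * ((p : ℝ) - 1) ^ r := by
    refine hmain.trans ?_
    rw [mul_assoc, ← mul_pow]
    exact mul_le_mul_of_nonneg_left (hsig.trans hpow) (by positivity)
  exact le_of_mul_le_mul_right hfin hpp

end Pool.Agent.TH170.QC
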