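import Mathlib
import Pool.Agent.TH170.QC.Bound
import Pool.Agent.TH170.QC.Gen

/-!
# Explicit bounds with the codimension of the degenerate locus
-/

set_option linter.unusedSectionVars false
set_option linter.unusedVariables false

namespace Pool.Agent.TH170.QC

open Real Finset Module Pool.Agent.TH170.MF Pool.Agent.TH170.GC

/-- The bound for spaces of small dimension. -/
noncomputable def boundA (g c : ℕ) (D L : ℝ) : ℝ := √(10 ^ 6 * L ^ 3 * D / g) ^ c

/-- The bound for spaces of small multiplicity. -/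
noncomputable def boundC (g d c : ℕ) (L : ℝ) : ℝ :=
  8 * √(2 * d / (π * g)) ^ d * (10 ^ 4 + 10 * L + 6 * √(d * g)) ^ (d - c)

variable {G X : Type*} [Group G] [Fintype G] [MulAction G X] [Fintype X]
  [DecidableEq X] [MulAction.IsPretransitive G X]

/-- The numerical facts about the size of the prime number. -/
theorem numerics_real {g n : ℕ} {D L : ℝ} (hd : 1 ≤ D) (hn : 2 * g ≤ n) (hg : 1 ≤ g)
    (hL : L = log n) (hlt : 10 ^ 6 * L ^ 3 * D < g) :
    10 ^ 4 ≤ 3 / 2 * √(g / (D * L)) ∧ 10 * L ≤ 3 / 2 * √(g / (D * L)) := by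
  have hgR : (1 : ℝ) ≤ g := by exact_mod_cast hg
  have hnR : 2 * (g : ℝ) ≤ n := by exact_mod_cast hn
  have h2 := log_two_gt_d9
  have hL0 : 0.69 < L := by
    have h1 : log 2 ≤ log n := log_le_log (by norm_num) (by linarith)
    rw [hL]
    linarith
  have hLpos : 0 < L := by linarith
  have h3 : (0.328 : ℝ) ≤ L ^ 3 := by
    have : (0.69 : ℝ) ^ 3 ≤ L ^ 3 := pow_le_pow_left₀ (by norm_num) hL0.le 3
    norm_num at this ⊢
    linarith
  have h4 : (328000 : ℝ) < g := by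
    have h5 : (0.328 : ℝ) * 1 ≤ L ^ 3 * D := mul_le_mul h3 hd (by norm_num) (by positivity)
    nlinarith
  have h5 : 13 ≤ L := by
    have h5' : (2 : ℝ) ^ 19 = 524288 := by norm_num
    have h6 : log ((2 : ℝ) ^ 19) ≤ log n := log_le_log (by norm_num) (by rw [h5']; linarith)
    rw [log_pow] at h6
    push_cast at h6
    rw [hL]
    linarith
  have hkey : 2250000 * L ^ 2 ≤ (3 / 2 * √(g / (D * L))) ^ 2 := by
    rw [mul_pow, sq_sqrt (by positivity)]
    have h6 : 10 ^ 6 * L ^ 2 ≤ g / (D * L) := by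
      rw [le_div_iff₀ (by positivity)]
      nlinarith
    nlinarith
  refine ⟨?_, ?_⟩
  · refine (pow_le_pow_iff_left₀ (by norm_num) (by positivity) two_ne_zero).1 ?_
    refine le_trans ?_ hkey
    nlinarith
  · refine (pow_le_pow_iff_left₀ (by positivity) (by positivity) two_ne_zero).1 ?_
    refine le_trans ?_ hkey
    nlinarith

theorem exp_one_le_pow {x : ℝ} {n : ℕ} (hx : 2.72 ≤ x) (hn : 0 < n) : exp 1 ≤ x ^ n := by
  have h2 : exp 1 ≤ 2.7182818286 := exp_one_lt_d9.le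
  have h3 : x ≤ x ^ n := le_self_pow₀ (by linarith) hn.ne'
  linarith

theorem basics {c : G} (hc : c * c = 1) (hfree : ∀ x : X, c • x ≠ x) {g : ℕ}
    (hg : Fintype.card X = 2 * g) {S₀ : Submodule ℚ (X → ℚ)}
    (hS₀ : S₀ ∈ MinInv G (fun x : X => c • x)) (x₀ : X) :
    1 ≤ g ∧ 2 * g ≤ Nat.card G ∧ 1 ≤ finrank ℚ S₀ ∧ finrank ℚ S₀ ≤ g ∧ 0 < cdeg G S₀ ∧
      0.69 < log (Nat.card G) := by
  classical
  have hcc : ∀ x : X, c • c • x = x := fun x => by rw [smul_smul, hc, one_smul]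
  have hX : Nonempty X := ⟨x₀⟩
  have hg1 : 1 ≤ g := by
    have := Fintype.card_pos (α := X)
    omega
  have hgR : (1 : ℝ) ≤ g := by exact_mod_cast hg1
  have hn : 2 * g ≤ Nat.card G := by
    rw [← hg, ← Nat.card_eq_fintype_card (α := X)]
    refine Nat.card_le_card_of_surjective (fun γ : G => γ • x₀) ?_
    intro x
    exact MulAction.exists_smul_eq G x₀ x
  have hd1 : 1 ≤ finrank ℚ S₀ := by
    have h1 : 0 < finrank ℚ S₀ := by
      rw [Module.finrank_pos_iff]
      exact Submodule.nontrivial_iff_ne_bot.2 hS₀.1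
    exact h1
  refine ⟨hg1, hn, hd1, finrank_le_of_allOdd hcc hfree hS₀.2.2.1 hg, quot_pos hS₀.1, ?_⟩
  have h1 : log 2 ≤ log (Nat.card G) := log_le_log (by norm_num) (by
    have : ((2 * g : ℕ) : ℝ) ≤ Nat.card G := by exact_mod_cast hn
    push_cast at this
    linarith)
  linarith [log_two_gt_d9]

/-- The first explicit bound. -/
theorem ncard_orthClass_boundA {c : G} (hc : c * c = 1) (hfree : ∀ x : X, c • x ≠ x)
    (hcen : ∀ x, c * x = x * c) {g : ℕ} (hg : Fintype.card X = 2 * g)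
    {S₀ : Submodule ℚ (X → ℚ)} (hS₀ : S₀ ∈ MinInv G (fun x : X => c • x)) (x₀ : X) :
    (((orthClass c X (killers G (S₀ : Set (X → ℚ)))).ncard : ℕ) : ℝ) ≤
      2 ^ g * boundA g (cdeg G S₀ + excess G x₀ S₀)
        (min (finrank ℚ S₀ : ℝ) √(cdeg G S₀ * Nat.card G)) (log (Nat.card G)) := by
  classical
  have hcc : ∀ x : X, c • c • x = x := fun x => by rw [smul_smul, hc, one_smul]
  obtain ⟨hg1, hn, hd1, hdg, hr0, hL69⟩ := basics hc hfree hg hS₀ x₀
  have hgR : (1 : ℝ) ≤ g := by exact_mod_cast hg1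
  set r := cdeg G S₀ with hr
  set e := excess G x₀ S₀ with he
  set d := finrank ℚ S₀ with hd
  set L := log (Nat.card G) with hL
  have hcardpos : 0 < Nat.card G := Nat.card_pos
  set D : ℝ := min (d : ℝ) √(r * Nat.card G) with hD
  have hdR : (1 : ℝ) ≤ D := by
    refine le_min (by exact_mod_cast hd1) ?_
    refine one_le_sqrt.2 ?_
    have : 1 ≤ r * Nat.card G := Nat.mul_pos hr0 hcardpos
    exact_mod_cast this
  have hDd : D ≤ d := min_le_left _ _
  have htot : (((orthClass c X (killers G (S₀ : Set (X → ℚ)))).ncard : ℕ) : ℝ) ≤ 2 ^ g := by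
    have h1 : (orthClass c X (killers G (S₀ : Set (X → ℚ)))).ncard ≤ 2 ^ g :=
      (Set.ncard_le_ncard (fun f hf => hf.1) (finite_oddSigns _)).trans
        (ncard_oddSigns_le hcc hfree hg)
    exact_mod_cast h1
  rw [boundA]
  set B := √(10 ^ 6 * L ^ 3 * D / g) with hB
  have hLpos : 0 < L := by linarith
  by_cases hB1 : 1 ≤ B
  · refine htot.trans ?_
    calc (2 : ℝ) ^ g = 2 ^ g * 1 := (mul_one _).symm
      _ ≤ _ := mul_le_mul_of_nonneg_left (one_le_pow₀ hB1) (by positivity)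
  push Not at hB1
  have hlt : 10 ^ 6 * L ^ 3 * D < g := by
    have h1 : B ^ 2 < 1 := by
      have hB0 : 0 ≤ B := sqrt_nonneg _
      nlinarith
    rw [hB, sq_sqrt (by positivity), div_lt_one (by linarith)] at h1
    exact h1
  obtain ⟨hP1, hP2⟩ := numerics_real hdR hn hg1 hL hlt
  set P := 3 / 2 * √((g : ℝ) / (D * L)) with hP
  have hP0 : 0 < P := lt_of_lt_of_le (by norm_num) hP1
  have hPsq : P ^ 2 = 9 / 4 * (g / (D * L)) := by
    rw [hP, mul_pow, sq_sqrt (by positivity)]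
    norm_num
  obtain ⟨p, hp, hpG, hp1, hp2⟩ := exists_prime_not_dvd hP1 hcardpos hP2
  have hfact : Fact p.Prime := ⟨hp⟩
  have hp3 : 2 < p := by
    have h1 : (2 : ℝ) < p := by
      have : (10 : ℝ) ^ 4 / 4 ≤ P / 4 := by linarith
      norm_num at this
      linarith
    exact_mod_cast h1
  have hodd : Odd p := hp.odd_of_ne_two (by omega)
  have hp0 : (0 : ℝ) < p := by linarith
  obtain ⟨-, m, hm0, hmd, hmsq, hmain⟩ :=
    ncard_orthClass_gen (p := p) (by omega) hpG hc hfree hcen hg hS₀ x₀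
  rw [← hr, ← he] at hmain
  rw [← hr] at hmsq
  rw [← hd] at hmd
  have hm0R : (0 : ℝ) < m := by exact_mod_cast hm0
  have hmD : (m : ℝ) ≤ D := by
    refine le_min (by exact_mod_cast hmd) (le_sqrt_of_sq_le ?_)
    exact_mod_cast hmsq
  have hsig : sig p ((g : ℝ) / (m : ℝ)) ^ m ≤ exp 1 := by
    refine sig_pow_le hodd (by positivity) ?_
    have h1 : 2 * L ≤ π ^ 2 * ((g : ℝ) / m) / (2 * p ^ 2) := by
      rw [le_div_iff₀ (by positivity)]
      have h2 : (p : ℝ) ^ 2 ≤ 9 / 4 * (g / (D * L)) := by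
        rw [← hPsq]
        exact pow_le_pow_left₀ hp0.le hp2 2
      have h3 : (p : ℝ) ^ 2 * L ≤ 9 / 4 * (g / D) := by
        have h4 := mul_le_mul_of_nonneg_right h2 hLpos.le
        have h5 : 9 / 4 * ((g : ℝ) / (D * L)) * L = 9 / 4 * (g / D) := by field_simp
        linarith
      have h4 : (g : ℝ) / D ≤ g / m := by gcongr
      have h5 : (9 : ℝ) ≤ π ^ 2 := by nlinarith [pi_gt_three]
      have h6 : 0 ≤ (g : ℝ) / m := by positivity
      nlinarith
    have h2 : (p : ℝ) ≤ 2 * g := by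
      refine hp2.trans ?_
      refine (pow_le_pow_iff_left₀ hP0.le (by positivity) two_ne_zero).1 ?_
      rw [hPsq, mul_pow, ← mul_div_assoc, div_le_iff₀ (by positivity)]
      have h3 : 0.69 ≤ (D : ℝ) * L := by nlinarith
      have h4 : 9 / 4 * (g : ℝ) ≤ 2 ^ 2 * (g : ℝ) ^ 2 * 0.69 := by nlinarith
      have h5 : 2 ^ 2 * (g : ℝ) ^ 2 * 0.69 ≤ 2 ^ 2 * (g : ℝ) ^ 2 * (D * L) := by gcongr
      linarith
    have h3 : (m : ℝ) ≤ 2 * g := by
      have : (d : ℝ) ≤ g := by exact_mod_cast hdg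
      linarith
    have h4 : 2 * (g : ℝ) ≤ Nat.card G := by exact_mod_cast hn
    calc (p : ℝ) * m ≤ (2 * g) * (2 * g) := by gcongr
      _ ≤ Nat.card G * Nat.card G := by gcongr
      _ = exp (2 * L) := by
        rw [two_mul L, exp_add, hL, exp_log (by linarith)]
      _ ≤ _ := exp_le_exp.2 h1
  have hcast : ((p - 1 : ℕ) : ℝ) = (p : ℝ) - 1 := by
    rw [Nat.cast_sub (by omega), Nat.cast_one]
  rw [hcast] at hmain
  have hpP : P / 5 ≤ (p : ℝ) - 1 := by
    have : (10 : ℝ) ^ 4 = 10000 := by norm_num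
    rw [this] at hP1
    linarith
  have hBP : B * P = 1500 * L := by
    have h1 : (B * P) ^ 2 = (1500 * L) ^ 2 := by
      rw [mul_pow, hPsq, hB, sq_sqrt (by positivity)]
      field_simp
      ring
    have h2 : 0 ≤ B * P := by positivity
    exact (pow_left_inj₀ h2 (by positivity) two_ne_zero).1 h1
  have hB0 : 0 ≤ B := sqrt_nonneg _
  have hBp : 2.72 ≤ B * ((p : ℝ) - 1) := by
    have h1 : B * (P / 5) ≤ B * ((p : ℝ) - 1) := mul_le_mul_of_nonneg_left hpP hB0
    nlinarith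
  have hpow : exp 1 ≤ (B * ((p : ℝ) - 1)) ^ (r + e) := exp_one_le_pow hBp (by omega)
  have hp10 : 0 < (p : ℝ) - 1 := by
    have : (2 : ℝ) < p := by exact_mod_cast hp3
    linarith
  have hpp : 0 < ((p : ℝ) - 1) ^ (r + e) := pow_pos hp10 _
  have hle : ((p : ℝ) - 1) ^ (r + e) ≤ ((p : ℝ) - 1) ^ r * (p : ℝ) ^ e := by
    rw [pow_add]
    exact mul_le_mul_of_nonneg_left (pow_le_pow_left₀ hp10.le (by linarith) _) (by positivity)
  have hfin : (((orthClass c X (killers G (S₀ : Set (X → ℚ)))).ncard : ℕ) : ℝ) *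
      ((p : ℝ) - 1) ^ (r + e) ≤ 2 ^ g * B ^ (r + e) * ((p : ℝ) - 1) ^ (r + e) := by
    refine (mul_le_mul_of_nonneg_left hle (Nat.cast_nonneg _)).trans (hmain.trans ?_)
    rw [mul_assoc, ← mul_pow]
    exact mul_le_mul_of_nonneg_left (hsig.trans hpow) (by positivity)
  exact le_of_mul_le_mul_right hfin hpp

/-- The second explicit bound. -/
theorem ncard_orthClass_boundC {c : G} (hc : c * c = 1) (hfree : ∀ x : X, c • x ≠ x)
    (hcen : ∀ x, c * x = x * c) {g : ℕ} (hg : Fintype.card X = 2 * g)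
    {S₀ : Submodule ℚ (X → ℚ)} (hS₀ : S₀ ∈ MinInv G (fun x : X => c • x)) (x₀ : X) :
    (((orthClass c X (killers G (S₀ : Set (X → ℚ)))).ncard : ℕ) : ℝ) ≤
      2 ^ g * boundC g (finrank ℚ S₀) (cdeg G S₀ + excess G x₀ S₀) (log (Nat.card G)) := by
  classical
  obtain ⟨hg1, hn, hd1, hdg, hr0, hL69⟩ := basics hc hfree hg hS₀ x₀
  have hgR : (1 : ℝ) ≤ g := by exact_mod_cast hg1
  set r := cdeg G S₀ with hr
  set e := excess G x₀ S₀ with he
  set d := finrank ℚ S₀ with hd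
  set L := log (Nat.card G) with hL
  have hdR : (1 : ℝ) ≤ d := by exact_mod_cast hd1
  have hdgR : (d : ℝ) ≤ g := by exact_mod_cast hdg
  have hLpos : 0 < L := by linarith
  rw [boundC]
  set P := 10 ^ 4 + 10 * L + 6 * √((d : ℝ) * g) with hP
  have hsq0 : 0 ≤ √((d : ℝ) * g) := sqrt_nonneg _
  have hP1 : 10 ^ 4 ≤ P := by linarith
  have hP2 : 10 * L ≤ P := by
    have : (0 : ℝ) ≤ 10 ^ 4 := by norm_num
    linarith
  have hP0 : 0 < P := lt_of_lt_of_le (by norm_num) hP1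
  have hcardpos : 0 < Nat.card G := Nat.card_pos
  obtain ⟨p, hp, hpG, hp1, hp2⟩ := exists_prime_not_dvd hP1 hcardpos hP2
  have hfact : Fact p.Prime := ⟨hp⟩
  have hp4 : 2500 + 1.5 * √((d : ℝ) * g) < p := by
    have h1 : (10 : ℝ) ^ 4 = 10000 := by norm_num
    rw [h1] at hP
    linarith
  have hp3 : 2 < p := by
    have h1 : (2 : ℝ) < p := by linarith
    exact_mod_cast h1
  have hodd : Odd p := hp.odd_of_ne_two (by omega)
  have hp0 : (0 : ℝ) < p := by linarith
  obtain ⟨hcd, m, hm0, hmd, hmsq, hmain'⟩ :=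
    ncard_orthClass_gen (p := p) (by omega) hpG hc hfree hcen hg hS₀ x₀
  have hmain := hmain'.trans (mul_le_mul_of_nonneg_left
    (sig_pow_mono (p := p) hg1 hm0 hmd) (by positivity : (0 : ℝ) ≤ 2 ^ g))
  rw [← hr, ← he, ← hd] at hmain hcd
  have hcast : ((p - 1 : ℕ) : ℝ) = (p : ℝ) - 1 := by
    rw [Nat.cast_sub (by omega), Nat.cast_one]
  rw [hcast] at hmain
  have hdsq : (d : ℝ) ≤ √((d : ℝ) * g) := by
    refine le_sqrt_of_sq_le ?_
    nlinarith
  set s := √(2 * d / (π * g)) with hs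
  have hs0 : 0 < s := sqrt_pos.2 (by positivity)
  have hsig1 : sig p ((g : ℝ) / d) ≤ 1 + p * s := by
    refine (sum_cw_le p hodd (by positivity)).trans (le_of_eq ?_)
    rw [hs]
    congr 3
    field_simp
  have hps : (d : ℝ) ≤ p * s := by
    have h1 : (1.5 * √((d : ℝ) * g)) * s ≤ p * s := by
      refine mul_le_mul_of_nonneg_right (by linarith) hs0.le
    have h2 : √((d : ℝ) * g) * s = d * √(2 / π) := by
      rw [hs, ← sqrt_mul (by positivity)]
      have h3 : (d : ℝ) * g * (2 * d / (π * g)) = d ^ 2 * (2 / π) := by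
        field_simp
      rw [h3, sqrt_mul (by positivity), sqrt_sq (by positivity)]
    have h3 : 0.7 ≤ √(2 / π) := by
      refine le_sqrt_of_sq_le ?_
      rw [le_div_iff₀ pi_pos]
      nlinarith [pi_lt_d2]
    have h4 : (1.5 * √((d : ℝ) * g)) * s = 1.5 * (√((d : ℝ) * g) * s) := by ring
    rw [h4, h2] at h1
    nlinarith
  have hsig : sig p ((g : ℝ) / (d : ℝ)) ^ d ≤ exp 1 * (p * s) ^ d := by
    have h1 : 1 + (p : ℝ) * s ≤ (1 + 1 / d) * (p * s) := by
      have h2 : 1 ≤ 1 / (d : ℝ) * (p * s) := by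
        rw [one_div, inv_mul_eq_div, one_le_div (by linarith)]
        exact hps
      linarith
    calc sig p ((g : ℝ) / (d : ℝ)) ^ d ≤ ((1 + 1 / d) * (p * s)) ^ d :=
          pow_le_pow_left₀ (sig_nonneg _ _) (hsig1.trans h1) d
      _ = (1 + 1 / d) ^ d * (p * s) ^ d := mul_pow _ _ _
      _ ≤ exp 1 * (p * s) ^ d := by
          refine mul_le_mul_of_nonneg_right ?_ (by positivity)
          calc (1 + 1 / (d : ℝ)) ^ d ≤ (exp (1 / d)) ^ d := by
                refine pow_le_pow_left₀ (by positivity) ?_ d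
                rw [add_comm]
                exact add_one_le_exp _
            _ = exp 1 := by rw [← exp_nat_mul, mul_one_div_cancel (by linarith)]
  have hp10 : 0 < (p : ℝ) - 1 := by linarith
  have hrd : (r : ℝ) ≤ (p : ℝ) - 1 := by
    have h1 : (r : ℝ) ≤ d := by
      have : r ≤ d := by omega
      exact_mod_cast this
    linarith
  have hpr : (p : ℝ) ^ r ≤ exp 1 * ((p : ℝ) - 1) ^ r := by
    have h1 : (p : ℝ) = (1 + 1 / ((p : ℝ) - 1)) * ((p : ℝ) - 1) := by
      field_simp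
      ring
    calc (p : ℝ) ^ r = ((1 + 1 / ((p : ℝ) - 1)) * ((p : ℝ) - 1)) ^ r := by rw [← h1]
      _ = (1 + 1 / ((p : ℝ) - 1)) ^ r * ((p : ℝ) - 1) ^ r := mul_pow _ _ _
      _ ≤ exp 1 * ((p : ℝ) - 1) ^ r := by
          refine mul_le_mul_of_nonneg_right ?_ (by positivity)
          calc (1 + 1 / ((p : ℝ) - 1)) ^ r ≤ (exp (1 / ((p : ℝ) - 1))) ^ r := by
                refine pow_le_pow_left₀ (by positivity) ?_ r
                rw [add_comm]
                exact add_one_le_exp _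
            _ = exp (r * (1 / ((p : ℝ) - 1))) := by rw [← exp_nat_mul]
            _ ≤ exp 1 := by
                apply exp_le_exp.2
                rw [mul_one_div, div_le_one hp10]
                exact hrd
  set N := (((orthClass c X (killers G (S₀ : Set (X → ℚ)))).ncard : ℕ) : ℝ) with hN
  have hN0 : 0 ≤ N := Nat.cast_nonneg _
  have hfin : N * (p : ℝ) ^ (r + e) ≤
      2 ^ g * (exp 1 * exp 1) * s ^ d * (p : ℝ) ^ (d - (r + e)) * (p : ℝ) ^ (r + e) := by
    have h1 : (p : ℝ) ^ (d - (r + e)) * (p : ℝ) ^ (r + e) = (p : ℝ) ^ d := by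
      rw [← pow_add, Nat.sub_add_cancel hcd]
    have h2 : N * (p : ℝ) ^ (r + e) ≤ exp 1 * (N * (((p : ℝ) - 1) ^ r * (p : ℝ) ^ e)) := by
      rw [pow_add]
      have h3 : (p : ℝ) ^ r * (p : ℝ) ^ e ≤ exp 1 * ((p : ℝ) - 1) ^ r * (p : ℝ) ^ e :=
        mul_le_mul_of_nonneg_right hpr (by positivity)
      calc N * ((p : ℝ) ^ r * (p : ℝ) ^ e) ≤ N * (exp 1 * ((p : ℝ) - 1) ^ r * (p : ℝ) ^ e) :=
            mul_le_mul_of_nonneg_left h3 hN0
        _ = _ := by ring
    calc N * (p : ℝ) ^ (r + e) ≤ exp 1 * (N * (((p : ℝ) - 1) ^ r * (p : ℝ) ^ e)) := h2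
      _ ≤ exp 1 * (2 ^ g * (exp 1 * (p * s) ^ d)) := by
          refine mul_le_mul_of_nonneg_left (hmain.trans ?_) (exp_pos 1).le
          exact mul_le_mul_of_nonneg_left hsig (by positivity)
      _ = 2 ^ g * (exp 1 * exp 1) * s ^ d * (p : ℝ) ^ d := by
          rw [mul_pow]
          ring
      _ = _ := by
          rw [← h1]
          ring
  have h1 := le_of_mul_le_mul_right hfin (by positivity)
  refine h1.trans ?_
  have h2 : exp 1 * exp 1 ≤ 8 := by
    have h3 : exp 1 ≤ 2.7182818286 := exp_one_lt_d9.le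
    have h4 : 0 < exp 1 := exp_pos 1
    nlinarith
  have h3 : (p : ℝ) ^ (d - (r + e)) ≤ P ^ (d - (r + e)) := pow_le_pow_left₀ hp0.le hp2 _
  calc 2 ^ g * (exp 1 * exp 1) * s ^ d * (p : ℝ) ^ (d - (r + e)) ≤
      2 ^ g * 8 * s ^ d * P ^ (d - (r + e)) := by gcongr
    _ = _ := by ring

end Pool.Agent.TH170.QC
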