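import Mathlib
import Pool.Agent.TH170.QC.Kil
import Pool.Agent.TH170.MF.Min

/-!
# Minimal spaces with different class functions are orthogonal
-/

set_option linter.unusedSectionVars false
set_option linter.unusedVariables false

namespace Pool.Agent.TH170.QC

open Finset Module Pool.Agent.TH170.MF

variable {G X : Type*} [Group G] [Fintype G] [MulAction G X] [Fintype X]

/-- The operator of a class function. -/
def oper (a : ConjClasses G → ℚ) : (X → ℚ) →ₗ[ℚ] (X → ℚ) where
  toFun u x := ∑ γ : G, a (ConjClasses.mk γ) * u (γ • x)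
  map_add' u v := by
    funext x
    simp only [Pi.add_apply, mul_add, sum_add_distrib]
  map_smul' r u := by
    funext x
    simp only [Pi.smul_apply, smul_eq_mul, RingHom.id_apply, mul_sum]
    exact sum_congr rfl fun γ _ => by ring

/-- The adjoint operator of a class function. -/
def operAdj (a : ConjClasses G → ℚ) (u : X → ℚ) : X → ℚ :=
  fun x => ∑ γ : G, a (ConjClasses.mk γ) * u (γ⁻¹ • x)

theorem oper_apply (a : ConjClasses G → ℚ) (u : X → ℚ) (x : X) :
    oper a u x = ∑ γ : G, a (ConjClasses.mk γ) * u (γ • x) := rfl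

theorem oper_smul (a : ConjClasses G → ℚ) (u : X → ℚ) (δ : G) (x : X) :
    oper a u (δ • x) = oper a (fun y => u (δ • y)) x := by
  rw [oper_apply, oper_apply, ← Equiv.sum_comp (MulAut.conj δ).toEquiv]
  refine sum_congr rfl fun γ _ => ?_
  have h1 : ConjClasses.mk ((MulAut.conj δ).toEquiv γ) = ConjClasses.mk γ := by
    rw [ConjClasses.mk_eq_mk_iff_isConj, isConj_comm, isConj_iff]
    exact ⟨δ, rfl⟩
  rw [h1]
  congr 2
  change (δ * γ * δ⁻¹) • δ • x = δ • γ • x
  rw [smul_smul, smul_smul, inv_mul_cancel_right]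

theorem oper_mem {S : Submodule ℚ (X → ℚ)} (hS : Invariant G S) (a : ConjClasses G → ℚ)
    {s : X → ℚ} (hs : s ∈ S) : oper a s ∈ S := by
  have h1 : oper a s = ∑ γ : G, a (ConjClasses.mk γ) • fun x => s (γ • x) := by
    funext x
    rw [Finset.sum_apply, oper_apply]
    exact sum_congr rfl fun γ _ => by rw [Pi.smul_apply, smul_eq_mul]
  rw [h1]
  exact S.sum_mem fun γ _ => S.smul_mem _ (hS γ s hs)

theorem operAdj_mem {S : Submodule ℚ (X → ℚ)} (hS : Invariant G S) (a : ConjClasses G → ℚ)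
    {s : X → ℚ} (hs : s ∈ S) : operAdj a s ∈ S := by
  have h1 : operAdj a s = ∑ γ : G, a (ConjClasses.mk γ) • fun x => s (γ⁻¹ • x) := by
    funext x
    rw [Finset.sum_apply, operAdj]
    exact sum_congr rfl fun γ _ => by rw [Pi.smul_apply, smul_eq_mul]
  rw [h1]
  exact S.sum_mem fun γ _ => S.smul_mem _ (hS γ⁻¹ s hs)

theorem dot_oper (a : ConjClasses G → ℚ) (u v : X → ℚ) :
    dot X u (oper a v) = dot X (operAdj a u) v := by
  rw [dot_apply, dot_apply]
  simp only [oper_apply, operAdj, mul_sum, sum_mul]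
  rw [sum_comm, sum_comm (γ := X) (α := G)]
  refine sum_congr rfl fun γ _ => ?_
  rw [← Equiv.sum_comp (MulAction.toPerm γ)
    (fun x => a (ConjClasses.mk γ) * u (γ⁻¹ • x) * v x)]
  refine sum_congr rfl fun x _ => ?_
  rw [MulAction.toPerm_apply, inv_smul_smul]
  ring

variable {c : X → X}

theorem dot_eq_zero_of {S S' : Submodule ℚ (X → ℚ)} (hS : S ∈ MinInv G c)
    (hS' : S' ∈ MinInv G c) {a : ConjClasses G → ℚ} (ha : a ∈ killers G (S : Set (X → ℚ)))
    (ha' : a ∉ killers G (S' : Set (X → ℚ))) {s s' : X → ℚ} (hs : s ∈ S) (hs' : s' ∈ S') :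
    dot X s s' = 0 := by
  obtain ⟨h0, hi, ho, hmin⟩ := hS
  obtain ⟨h0', hi', ho', hmin'⟩ := hS'
  have hkill : ∀ u ∈ S, oper a u = 0 := fun u hu => funext fun x => ha u hu x
  have hadj : operAdj a s = 0 := by
    apply dot_self
    have h1 : dot X (operAdj a s) (operAdj a s) = dot X s (oper a (operAdj a s)) :=
      (dot_oper a s (operAdj a s)).symm
    rw [h1, hkill _ (operAdj_mem hi a hs), map_zero]
  have himg : S'.map (oper a) = S' := by
    have hinv : Invariant G (S'.map (oper a)) := by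
      rintro γ _ ⟨u, hu, rfl⟩
      refine ⟨fun y => u (γ • y), hi' γ u hu, ?_⟩
      funext x
      exact (oper_smul a u γ x).symm
    have hle : S'.map (oper a) ≤ S' := by
      rintro _ ⟨u, hu, rfl⟩
      exact oper_mem hi' a hu
    rcases hmin' _ hinv hle with h | h
    · exfalso
      apply ha'
      intro u hu x
      have h1 : oper a u ∈ S'.map (oper a) := ⟨u, hu, rfl⟩
      rw [h, Submodule.mem_bot] at h1
      exact congrFun h1 x
    · exact h
  rw [← himg] at hs'
  obtain ⟨t, ht, rfl⟩ := hs'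
  rw [dot_oper, hadj, map_zero]
  rfl

theorem orth_of_killers_ne {S S' : Submodule ℚ (X → ℚ)} (hS : S ∈ MinInv G c)
    (hS' : S' ∈ MinInv G c) (h : killers G (S : Set (X → ℚ)) ≠ killers G (S' : Set (X → ℚ))) :
    S' ≤ (dot X).orthogonal S := by
  intro s' hs' s hs
  by_cases h1 : killers G (S : Set (X → ℚ)) ≤ killers G (S' : Set (X → ℚ))
  · have h2 : ¬ killers G (S' : Set (X → ℚ)) ≤ killers G (S : Set (X → ℚ)) :=
      fun h3 => h (le_antisymm h1 h3)
    obtain ⟨a, ha, ha'⟩ := SetLike.not_le_iff_exists.1 h2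
    change dot X s s' = 0
    rw [dot_comm]
    exact dot_eq_zero_of hS' hS ha ha' hs' hs
  · obtain ⟨a, ha, ha'⟩ := SetLike.not_le_iff_exists.1 h1
    exact dot_eq_zero_of hS hS' ha ha' hs hs'

end Pool.Agent.TH170.QC
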