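import Mathlib
import Pool.Agent.TH170.QC.Bound
import Pool.Agent.TH170.QC.Orth
import Pool.Agent.TH170.MF.Main
import Pool.Agent.TH170.MF.Quad

/-!
# The number of degenerate CM types of an arbitrary CM field
-/

set_option linter.unusedSectionVars false
set_option linter.unusedVariables false

namespace Pool.Agent.TH170.QC

open NumberField Finset Module Pool.Agent.H204R3.CM Pool.Agent.TH170.CM Pool.Agent.TH170.MF
  Pool.Agent.TH170.GC

section defs

variable {E : Type*} [Field E] [NumberField E]

/-- The rational class functions `a` on the Galois group (of the normal closure, acting on the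
complex embeddings) such that `∑ a(γ) u(γ φ) = 0` for all `u` in `S` and all embeddings `φ`. -/
noncomputable def classKillers (S : Submodule ℚ ((E →+* ℂ) → ℚ)) :
    Submodule ℚ (ConjClasses (Gal E) → ℚ) :=
  killers (Gal E) (S : Set ((E →+* ℂ) → ℚ))

/-- The isotypic component of a space: all odd functions annihilated by the class functions that
annihilate the space. -/
noncomputable def component (S : Submodule ℚ ((E →+* ℂ) → ℚ)) :
    Submodule ℚ ((E →+* ℂ) → ℚ) where
  carrier := {u | (∀ φ, u (ComplexEmbedding.conjugate φ) = - u φ) ∧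
    ∀ a ∈ classKillers S, ∀ φ, ∑ γ : Gal E, a (ConjClasses.mk γ) * u (γ • φ) = 0}
  zero_mem' := by
    refine ⟨fun φ => by simp, fun a _ φ => by simp⟩
  add_mem' := by
    rintro u v ⟨h1, h2⟩ ⟨h3, h4⟩
    refine ⟨fun φ => ?_, fun a ha φ => ?_⟩
    · rw [Pi.add_apply, Pi.add_apply, h1, h3]
      ring
    · simp only [Pi.add_apply, mul_add, sum_add_distrib]
      rw [h2 a ha, h4 a ha, add_zero]
  smul_mem' := by
    rintro q u ⟨h1, h2⟩
    refine ⟨fun φ => ?_, fun a ha φ => ?_⟩
    · rw [Pi.smul_apply, Pi.smul_apply, h1, smul_eq_mul, smul_eq_mul]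
      ring
    · simp only [Pi.smul_apply, smul_eq_mul]
      rw [← mul_zero q, ← h2 a ha φ, mul_sum]
      exact sum_congr rfl fun γ _ => by ring

variable (E) in
/-- The isotypic components of the odd functions on the embeddings of `E`. -/
noncomputable def components : Set (Submodule ℚ ((E →+* ℂ) → ℚ)) :=
  component '' minimalSpaces E

/-- The dimension of the space of endomorphisms of `W` given by the class functions (the degree of
the field of values of the character of `W`). -/
noncomputable def centralDegree (W : Submodule ℚ ((E →+* ℂ) → ℚ)) : ℕ :=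
  finrank ℚ ((ConjClasses (Gal E) → ℚ) ⧸ classKillers W)

/-- The dimension of the minimal spaces whose component is `W`. -/
noncomputable def leastDim (W : Submodule ℚ ((E →+* ℂ) → ℚ)) : ℕ :=
  sInf {d | ∃ S ∈ minimalSpaces E, component S = W ∧ finrank ℚ S = d}

open Classical in
/-- The bound for the proportion of the CM types that are degenerate at the component `W`. -/
noncomputable def weight (g : ℕ) (W : Submodule ℚ ((E →+* ℂ) → ℚ)) : ℝ :=
  if W ∈ minimalSpaces E then
    (if Odd g ∧ finrank ℚ W = 1 then 0 else √(2 * finrank ℚ W / (Real.pi * g)) ^ finrank ℚ W)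
  else √(10 ^ 6 * Real.log (Nat.card (Gal E)) ^ 3 * leastDim W / g) ^ centralDegree W

end defs

section

variable {E : Type*} [Field E] [NumberField E]

theorem le_component {S : Submodule ℚ ((E →+* ℂ) → ℚ)} (hS : S ∈ minimalSpaces E) :
    S ≤ component S := fun s hs => ⟨hS.2.2.1 s hs, fun a ha φ => ha s hs φ⟩

theorem classKillers_component {S : Submodule ℚ ((E →+* ℂ) → ℚ)} (hS : S ∈ minimalSpaces E) :
    classKillers (component S) = classKillers S := by
  apply le_antisymm
  · intro a ha s hs φ
    exact ha s (le_component hS hs) φ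
  · intro a ha u hu φ
    exact hu.2 a ha φ

theorem component_congr {S S' : Submodule ℚ ((E →+* ℂ) → ℚ)}
    (h : classKillers S = classKillers S') : component S = component S' := by
  ext u
  change (_ ∧ ∀ a ∈ classKillers S, _) ↔ (_ ∧ ∀ a ∈ classKillers S', _)
  rw [h]

variable [IsCMField E]

theorem comp_conj (σ : ℂ ≃+* ℂ) (φ : E →+* ℂ) :
    (σ : ℂ →+* ℂ).comp (ComplexEmbedding.conjugate φ) =
      ComplexEmbedding.conjugate ((σ : ℂ →+* ℂ).comp φ) := by
  ext x
  have h4 : ComplexEmbedding.conjugate φ x = φ (IsCMField.complexConj E x) := by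
    rw [ComplexEmbedding.conjugate_coe_eq, IsCMField.complexEmbedding_complexConj]
  have h5 : ComplexEmbedding.conjugate ((σ : ℂ →+* ℂ).comp φ) x =
      ((σ : ℂ →+* ℂ).comp φ) (IsCMField.complexConj E x) := by
    rw [ComplexEmbedding.conjugate_coe_eq, IsCMField.complexEmbedding_complexConj]
  rw [h5, RingHom.comp_apply, h4, RingHom.comp_apply]

variable (E) in
/-- Complex conjugation as a central element of the Galois group. -/
theorem exists_conj : ∃ c : Gal E, (∀ φ : E →+* ℂ, c • φ = ComplexEmbedding.conjugate φ) ∧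
    c * c = 1 ∧ ∀ x, c * x = x * c := by
  obtain ⟨c, hc⟩ := exists_gal_smul E (starRingAut : ℂ ≃+* ℂ)
  have hc' : ∀ φ : E →+* ℂ, c • φ = ComplexEmbedding.conjugate φ := fun φ => by
    rw [hc]
    rfl
  have hinj : ∀ x y : Gal E, (∀ φ : E →+* ℂ, x • φ = y • φ) → x = y := fun x y h =>
    Subtype.ext (Equiv.ext h)
  refine ⟨c, hc', hinj _ _ fun φ => ?_, fun x => hinj _ _ fun φ => ?_⟩
  · rw [mul_smul, hc', hc', conj_conj, one_smul]
  · obtain ⟨σ, hσ⟩ := gal_smul E x
    rw [mul_smul, mul_smul, hc', hc', hσ, hσ, comp_conj]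

theorem finite_components : (components E).Finite := by
  classical
  by_contra hinf
  obtain ⟨g, hg⟩ : ∃ g, finrank ℚ E = 2 * g := by
    have h1 := card_transversal (X := E →+* ℂ) (c := ComplexEmbedding.conjugate (K := E))
      conj_conj (T := (exists_transversal conj_conj conj_ne).choose)
      (exists_transversal conj_conj conj_ne).choose_spec
    rw [Embeddings.card] at h1
    exact ⟨_, h1⟩
  obtain ⟨F, hF, hcard⟩ := Set.Infinite.exists_subset_card_eq hinf (g + 1)
  have hch : ∀ W : components E, ∃ S ∈ minimalSpaces E, component S = W.1 := fun W => W.2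
  choose s hs hsW using hch
  let F' := F.attach.image (fun W => s ⟨W.1, hF W.2⟩)
  have hinj : Function.Injective (fun W : {x // x ∈ F} => s ⟨W.1, hF W.2⟩) := by
    intro W W' h
    have h1 := hsW ⟨W.1, hF W.2⟩
    have h2 := hsW ⟨W'.1, hF W'.2⟩
    simp only at h
    rw [h] at h1
    exact Subtype.ext (h1.symm.trans h2)
  have hF'card : F'.card = g + 1 := by
    rw [card_image_of_injective _ hinj, card_attach, hcard]
  have hmem : ∀ S ∈ F', S ∈ minimalSpaces E := by
    intro S hS
    obtain ⟨W, -, rfl⟩ := mem_image.1 hS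
    exact hs _
  have h1 := sum_finrank_le (c := ComplexEmbedding.conjugate (K := E)) conj_conj conj_ne F'
    (fun S hS => (hmem S hS).2.2.1) ?_ (by rw [Embeddings.card, hg])
  · have h2 : ∑ S ∈ F', 1 ≤ ∑ S ∈ F', finrank ℚ S :=
      sum_le_sum fun S hS => finrank_pos_of_minimal E (hmem S hS)
    rw [sum_const, smul_eq_mul, mul_one, hF'card] at h2
    omega
  · intro S hS S' hS' hne
    refine orth_of_killers_ne ((minInv_iff S).2 (hmem S hS)) ((minInv_iff S').2 (hmem S' hS')) ?_
    intro h
    apply hne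
    obtain ⟨W, -, rfl⟩ := mem_image.1 hS
    obtain ⟨W', -, rfl⟩ := mem_image.1 hS'
    have h2 := component_congr h
    rw [hsW, hsW] at h2
    have h3 : W = W' := Subtype.ext h2
    rw [h3]

/-- The types orthogonal to a minimal space with component `W`. -/
theorem ncard_at_component {g : ℕ} (hg : finrank ℚ E = 2 * g)
    {W : Submodule ℚ ((E →+* ℂ) → ℚ)} (hW : W ∈ components E) :
    (({Φ : Set (E →+* ℂ) | ∃ S ∈ minimalSpaces E, component S = W ∧
      Φ ∈ typesOrthogonalTo S}.ncard : ℕ) : ℝ) ≤ 2 ^ g * weight g W := by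
  classical
  by_cases hWm : W ∈ minimalSpaces E
  · have hsub : {Φ : Set (E →+* ℂ) | ∃ S ∈ minimalSpaces E, component S = W ∧
        Φ ∈ typesOrthogonalTo S} ⊆ typesOrthogonalTo W := by
      rintro Φ ⟨S, hS, hSW, hΦ⟩
      have h1 : S ≤ W := by
        rw [← hSW]
        exact le_component hS
      rcases hWm.2.2.2 S hS.2.1 h1 with h2 | h2
      · exact absurd h2 hS.1
      · rw [h2] at hΦ
        exact hΦ
    have h1 : (({Φ : Set (E →+* ℂ) | ∃ S ∈ minimalSpaces E, component S = W ∧
        Φ ∈ typesOrthogonalTo S}.ncard : ℕ) : ℝ) ≤ ((typesOrthogonalTo W).ncard : ℝ) :=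
      Nat.cast_le.2 (Set.ncard_le_ncard hsub (Set.toFinite _))
    refine h1.trans ?_
    rw [weight, if_pos hWm]
    split_ifs with h2
    · rw [typesOrthogonalTo_eq_empty hWm h2.2 hg h2.1, Set.ncard_empty]
      simp
    · exact ncard_typesOrthogonalTo W hWm.2.1 hWm.2.2.1 hWm.1 hg
  · rw [weight, if_neg hWm]
    obtain ⟨S₀, hS₀, hSW, hdim⟩ : leastDim W ∈
        {d | ∃ S ∈ minimalSpaces E, component S = W ∧ finrank ℚ S = d} := by
      apply Nat.sInf_mem
      obtain ⟨S, hS, hSW⟩ := hW
      exact ⟨_, S, hS, hSW, rfl⟩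
    obtain ⟨c, hc, hcc, hcen⟩ := exists_conj E
    have hfun : (fun φ : E →+* ℂ => c • φ) = ComplexEmbedding.conjugate (K := E) := funext hc
    have hmin : S₀ ∈ MinInv (Gal E) (fun φ : E →+* ℂ => c • φ) := by
      rw [hfun]
      exact (minInv_iff S₀).2 hS₀
    have hfree : ∀ φ : E →+* ℂ, c • φ ≠ φ := fun φ => by
      rw [hc]
      exact conj_ne φ
    have hcard : Fintype.card (E →+* ℂ) = 2 * g := by rw [Embeddings.card, hg]
    have h1 := ncard_orthClass_le hcc hfree hcen hcard hmin
    rw [hdim] at h1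
    have h2 : centralDegree W = finrank ℚ ((ConjClasses (Gal E) → ℚ) ⧸
        killers (Gal E) (S₀ : Set ((E →+* ℂ) → ℚ))) := by
      rw [centralDegree, ← hSW, classKillers_component hS₀]
      rfl
    rw [h2]
    refine le_trans ?_ h1
    rw [Nat.cast_le]
    refine Set.ncard_le_ncard_of_injOn sgn ?_ ?_
      ((finite_oddSigns (X := E →+* ℂ) (fun x => c • x)).subset fun f hf => hf.1)
    · rintro Φ ⟨S, hS, hSW', hΦ, hsum⟩
      refine ⟨?_, S, ?_, ?_, fun s hs => ?_⟩
      · change OddSign (fun x => c • x) (sgn Φ)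
        rw [hfun]
        exact oddSign_sgn hΦ
      · rw [hfun]
        exact (minInv_iff S).2 hS
      · have h3 : classKillers S = classKillers S₀ := by
          rw [← classKillers_component hS, ← classKillers_component hS₀, hSW, hSW']
        exact h3
      · rw [← hsum s hs]
        exact sum_congr rfl fun φ _ => mul_comm _ _
    · intro Φ _ Φ' _ h
      exact sgn_injective h

variable (E)

/-- **The number of the degenerate CM types of a CM field.** -/
theorem ncard_degenerate_le {g : ℕ} (hg : finrank ℚ E = 2 * g) :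
    ((degenerateTypes E).ncard : ℝ) ≤ 2 ^ g * ∑ᶠ W ∈ components E, weight g W := by
  classical
  have hfin := finite_components (E := E)
  rw [finsum_mem_eq_finite_toFinset_sum _ hfin, mul_sum]
  have h1 : degenerateTypes E ⊆ ⋃ W ∈ hfin.toFinset, {Φ : Set (E →+* ℂ) |
      ∃ S ∈ minimalSpaces E, component S = W ∧ Φ ∈ typesOrthogonalTo S} := by
    rintro Φ ⟨hΦ, hd⟩
    obtain ⟨S, hS, hmem⟩ := exists_minimal_of_degenerate hΦ hd
    exact Set.mem_biUnion (hfin.mem_toFinset.2 ⟨S, hS, rfl⟩) ⟨S, hS, rfl, hmem⟩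
  have h2 : (degenerateTypes E).ncard ≤ ∑ W ∈ hfin.toFinset, {Φ : Set (E →+* ℂ) |
      ∃ S ∈ minimalSpaces E, component S = W ∧ Φ ∈ typesOrthogonalTo S}.ncard := by
    refine (Set.ncard_le_ncard h1 (Set.toFinite _)).trans ?_
    exact Finset.set_ncard_biUnion_le _ _
  refine (Nat.cast_le.2 h2).trans ?_
  rw [Nat.cast_sum]
  exact sum_le_sum fun W hW => ncard_at_component hg (hfin.mem_toFinset.1 hW)

end

end Pool.Agent.TH170.QC
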