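import Mathlib
import Pool.Agent.TH170.QC.Final
import Pool.Agent.TH170.QC.Bound2

/-!
# The number of degenerate CM types of an arbitrary CM field, with the codimensions
-/

set_option linter.unusedSectionVars false
set_option linter.unusedVariables false

namespace Pool.Agent.TH170.QC

open NumberField Finset Module Pool.Agent.H204R3.CM Pool.Agent.TH170.CM Pool.Agent.TH170.MF
  Pool.Agent.TH170.GC

section defs

variable {E : Type*} [Field E] [NumberField E]

variable (E) in
/-- The logarithm of the order of the Galois group. -/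
noncomputable def logOrder : ℝ := Real.log (Nat.card (Gal E))

/-- The codimension of the degenerate locus: the degree of the centre, plus (if the equivariant
endomorphisms of `S` commute) the dimension of `S` minus the dimension of the space of the
functions in `S` that are invariant under the stabilizer of `φ₀`. -/
noncomputable def codim (φ₀ : E →+* ℂ) (S : Submodule ℚ ((E →+* ℂ) → ℚ)) : ℕ :=
  cdeg (Gal E) S + excess (Gal E) φ₀ S

/-- The bound for the proportion of the CM types orthogonal to a space isomorphic to `S`. -/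
noncomputable def term (g : ℕ) (φ₀ : E →+* ℂ) (S : Submodule ℚ ((E →+* ℂ) → ℚ)) : ℝ :=
  min (boundA g (codim φ₀ S) (min (finrank ℚ S : ℝ) √(cdeg (Gal E) S * Nat.card (Gal E)))
    (logOrder E)) (boundC g (finrank ℚ S) (codim φ₀ S) (logOrder E))

open Classical in
/-- The bound for the proportion of the CM types that are degenerate at the component `W`. -/
noncomputable def weight' (g : ℕ) (φ₀ : E →+* ℂ) (W : Submodule ℚ ((E →+* ℂ) → ℚ)) : ℝ :=
  if W ∈ minimalSpaces E then
    (if Odd g ∧ finrank ℚ W = 1 then 0 else √(2 * finrank ℚ W / (Real.pi * g)) ^ finrank ℚ W)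
  else sInf {x | ∃ S ∈ minimalSpaces E, component S = W ∧ x = term g φ₀ S}

end defs

section

variable {E : Type*} [Field E] [NumberField E] [IsCMField E]

/-- The types orthogonal to a minimal space with the component of `S₀`. -/
theorem ncard_at_le_term {g : ℕ} (hg : finrank ℚ E = 2 * g) (φ₀ : E →+* ℂ)
    {S₀ : Submodule ℚ ((E →+* ℂ) → ℚ)} (hS₀ : S₀ ∈ minimalSpaces E) :
    (({Φ : Set (E →+* ℂ) | ∃ S ∈ minimalSpaces E, component S = component S₀ ∧
      Φ ∈ typesOrthogonalTo S}.ncard : ℕ) : ℝ) ≤ 2 ^ g * term g φ₀ S₀ := by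
  classical
  obtain ⟨c, hc, hcc, hcen⟩ := exists_conj E
  have hfun : (fun φ : E →+* ℂ => c • φ) = ComplexEmbedding.conjugate (K := E) := funext hc
  have hmin : S₀ ∈ MinInv (Gal E) (fun φ : E →+* ℂ => c • φ) := by
    rw [hfun]
    exact (minInv_iff S₀).2 hS₀
  have hfree : ∀ φ : E →+* ℂ, c • φ ≠ φ := fun φ => by
    rw [hc]
    exact conj_ne φ
  have hcard : Fintype.card (E →+* ℂ) = 2 * g := by rw [Embeddings.card, hg]
  have hA := ncard_orthClass_boundA hcc hfree hcen hcard hmin φ₀
  have hC := ncard_orthClass_boundC hcc hfree hcen hcard hmin φ₀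
  have h1 : (((orthClass c (E →+* ℂ) (killers (Gal E) (S₀ : Set ((E →+* ℂ) → ℚ)))).ncard : ℕ) : ℝ) ≤
      2 ^ g * term g φ₀ S₀ := by
    rw [term, mul_min_of_nonneg _ _ (by positivity)]
    exact le_min hA hC
  refine le_trans ?_ h1
  rw [Nat.cast_le]
  refine Set.ncard_le_ncard_of_injOn sgn ?_ ?_
    ((finite_oddSigns (X := E →+* ℂ) (fun x => c • x)).subset fun f hf => hf.1)
  · rintro Φ ⟨S, hS, hSW', hΦ, hsum⟩
    refine ⟨?_, S, ?_, ?_, fun s hs => ?_⟩
    · change OddSign (fun x => c • x) (sgn Φ)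
      rw [hfun]
      exact oddSign_sgn hΦ
    · rw [hfun]
      exact (minInv_iff S).2 hS
    · have h3 : classKillers S = classKillers S₀ := by
        rw [← classKillers_component hS, ← classKillers_component hS₀, hSW']
      exact h3
    · rw [← hsum s hs]
      exact sum_congr rfl fun φ _ => mul_comm _ _
  · intro Φ _ Φ' _ h
    exact sgn_injective h

theorem ncard_at_component' {g : ℕ} (hg : finrank ℚ E = 2 * g) (φ₀ : E →+* ℂ)
    {W : Submodule ℚ ((E →+* ℂ) → ℚ)} (hW : W ∈ components E) :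
    (({Φ : Set (E →+* ℂ) | ∃ S ∈ minimalSpaces E, component S = W ∧
      Φ ∈ typesOrthogonalTo S}.ncard : ℕ) : ℝ) ≤ 2 ^ g * weight' g φ₀ W := by
  classical
  by_cases hWm : W ∈ minimalSpaces E
  · have h1 := ncard_at_component hg hW
    rw [weight, if_pos hWm] at h1
    rw [weight', if_pos hWm]
    exact h1
  · rw [weight', if_neg hWm, ← div_le_iff₀' (by positivity)]
    refine le_csInf ?_ ?_
    · obtain ⟨S, hS, hSW⟩ := hW
      exact ⟨_, S, hS, hSW, rfl⟩
    · rintro _ ⟨S, hS, hSW, rfl⟩
      rw [div_le_iff₀' (by positivity), ← hSW]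
      exact ncard_at_le_term hg φ₀ hS

variable (E)

/-- **The number of the degenerate CM types of a CM field.** -/
theorem ncard_degenerate_le' {g : ℕ} (hg : finrank ℚ E = 2 * g) (φ₀ : E →+* ℂ) :
    ((degenerateTypes E).ncard : ℝ) ≤ 2 ^ g * ∑ᶠ W ∈ components E, weight' g φ₀ W := by
  classical
  have hfin := finite_components (E := E)
  rw [finsum_mem_eq_finite_toFinset_sum _ hfin, mul_sum]
  have h1 : degenerateTypes E ⊆ ⋃ W ∈ hfin.toFinset, {Φ : Set (E →+* ℂ) |
      ∃ S ∈ minimalSpaces E, component S = W ∧ Φ ∈ typesOrthogonalTo S} := by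
    rintro Φ ⟨hΦ, hd⟩
    obtain ⟨S, hS, hmem⟩ := exists_minimal_of_degenerate hΦ hd
    exact Set.mem_biUnion (hfin.mem_toFinset.2 ⟨S, hS, rfl⟩) ⟨S, hS, rfl, hmem⟩
  have h2 : (degenerateTypes E).ncard ≤ ∑ W ∈ hfin.toFinset, {Φ : Set (E →+* ℂ) |
      ∃ S ∈ minimalSpaces E, component S = W ∧ Φ ∈ typesOrthogonalTo S}.ncard := by
    refine (Set.ncard_le_ncard h1 (Set.toFinite _)).trans ?_
    exact Finset.set_ncard_biUnion_le _ _
  refine (Nat.cast_le.2 h2).trans ?_
  rw [Nat.cast_sum]
  exact sum_le_sum fun W hW => ncard_at_component' hg φ₀ (hfin.mem_toFinset.1 hW)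

end

end Pool.Agent.TH170.QC
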