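import Mathlib
import Pool.Agent.TH170.QC.Iso
import Pool.Agent.TH170.QC.Orth

/-!
# Class functions of minimal spaces, and the multiplicity free case
-/

set_option linter.unusedSectionVars false
set_option linter.unusedVariables false

namespace Pool.Agent.TH170.QC

open Finset Module Pool.Agent.TH170.MF

variable {G X : Type*} [Group G] [Fintype G] [MulAction G X] [Fintype X]

theorem act_cls (a : ConjClasses G → ℚ) (u : X → ℚ) :
    act u (cls a : MonoidAlgebra ℚ G) = oper a u := by
  funext x
  rw [act, oper_apply]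
  exact sum_congr rfl fun γ _ => by rw [cls, coeff_el]

variable [DecidableEq X] [MulAction.IsPretransitive G X]

/-- The class functions that annihilate a minimal space form a maximal ideal. -/
theorem killers_eq_of_le {c : X → X} {S S' : Submodule ℚ (X → ℚ)} (hS : S ∈ MinInv G c)
    (hS' : S' ∈ MinInv G c)
    (hle : killers G (S : Set (X → ℚ)) ≤ killers G (S' : Set (X → ℚ))) :
    killers G (S : Set (X → ℚ)) = killers G (S' : Set (X → ℚ)) := by
  classical
  refine le_antisymm hle ?_
  by_contra hnle
  obtain ⟨a, ha', ha⟩ := SetLike.not_le_iff_exists.1 hnle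
  obtain ⟨h0, hi, ho, hmin⟩ := hS
  obtain ⟨h0', hi', ho', hmin'⟩ := hS'
  obtain ⟨s₀, -, hs₀⟩ := (Submodule.ne_bot_iff S).1 h0
  obtain ⟨x₀, -⟩ := Function.ne_iff.1 hs₀
  have hX : Nonempty X := ⟨x₀⟩
  set z : MonoidAlgebra ℚ G := cls a with hz
  let T : S →ₗ[ℚ] S := (oper a).restrict (fun s hs => oper_mem hi a hs)
  have hT : ∀ s : S, ((T s : S) : X → ℚ) = act (s : X → ℚ) z := fun s => (act_cls a _).symm
  -- the operator is injective
  have hker : LinearMap.ker T = ⊥ := by
    let K : Submodule ℚ (X → ℚ) := (LinearMap.ker T).map S.subtype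
    have hK : ∀ s, s ∈ K ↔ s ∈ S ∧ oper a s = 0 := by
      intro s
      constructor
      · rintro ⟨t, ht, rfl⟩
        exact ⟨t.2, congrArg Subtype.val (LinearMap.mem_ker.1 ht)⟩
      · rintro ⟨hs, h1⟩
        exact ⟨⟨s, hs⟩, LinearMap.mem_ker.2 (Subtype.ext h1), rfl⟩
    have hinv : Invariant G K := by
      intro γ s hs
      rw [hK] at hs ⊢
      refine ⟨hi γ s hs.1, ?_⟩
      funext x
      rw [← oper_smul, hs.2]
      rfl
    rcases hmin K hinv (fun s hs => ((hK s).1 hs).1) with h | h
    · rw [LinearMap.ker_eq_bot']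
      intro t ht
      have h1 : (t : X → ℚ) ∈ K := (hK _).2 ⟨t.2, congrArg Subtype.val ht⟩
      rw [h, Submodule.mem_bot] at h1
      exact Subtype.ext h1
    · exfalso
      apply ha
      intro s hs x
      have hs' : s ∈ K := h ▸ hs
      exact congrFun ((hK s).1 hs').2 x
  have hact : ∀ (P : Polynomial ℚ) (s : S),
      ((Polynomial.aeval T P s : S) : X → ℚ) = act (s : X → ℚ) (Polynomial.aeval z P) := by
    intro P
    induction P using Polynomial.induction_on' with
    | add P Q hP hQ =>
      intro s
      rw [map_add, map_add, LinearMap.add_apply, Submodule.coe_add, hP, hQ, act_add_right]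
    | monomial k q =>
      intro s
      rw [Polynomial.aeval_monomial, Polynomial.aeval_monomial]
      have h1 : ∀ k : ℕ, ∀ s : S, (((T ^ k) s : S) : X → ℚ) = act (s : X → ℚ) (z ^ k) := by
        intro k
        induction k with
        | zero =>
          intro s
          rw [pow_zero, pow_zero, act_one]
          rfl
        | succ k ih =>
          intro s
          rw [pow_succ, pow_succ', Module.End.mul_apply, ih, hT, ← act_mul]
      rw [← Algebra.smul_def, ← Algebra.smul_def, LinearMap.smul_apply, Submodule.coe_smul, h1,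
        act_smul_right]
  have hcent : ∀ (P : Polynomial ℚ) (y : MonoidAlgebra ℚ G),
      Polynomial.aeval z P * y = y * Polynomial.aeval z P := by
    intro P y
    induction P using Polynomial.induction_on' with
    | add P Q hP hQ => rw [map_add, add_mul, mul_add, hP, hQ]
    | monomial k q =>
      have h1 : Commute (z ^ k) y := (Commute.pow_left (cls_comm a y) k)
      rw [Polynomial.aeval_monomial, ← Algebra.smul_def, smul_mul_assoc, mul_smul_comm, h1.eq]
  set P := LinearMap.charpoly T with hP
  have hP0 : Polynomial.aeval T P = 0 := LinearMap.aeval_self_charpoly T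
  have hc0 : P.coeff 0 ≠ 0 := by
    intro h
    have h1 := LinearMap.det_eq_sign_charpoly_coeff T
    rw [← hP, h, mul_zero] at h1
    have h2 := LinearMap.bot_lt_ker_of_det_eq_zero h1
    rw [hker] at h2
    exact lt_irrefl _ h2
  have hyK : coefCls (Polynomial.aeval z P) ∈ killers G (S : Set (X → ℚ)) := by
    rw [mem_killers]
    intro s hs
    rw [← eq_cls (hcent P), ← hact P ⟨s, hs⟩, hP0]
    rfl
  have hyK' := hle hyK
  rw [mem_killers] at hyK'
  obtain ⟨s', hs', hs0'⟩ := (Submodule.ne_bot_iff S').1 h0'
  have h1 := hyK' s' hs'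
  rw [← eq_cls (hcent P)] at h1
  have hzero : act s' z = 0 := (mem_killers _ _).1 ha' s' hs'
  obtain ⟨Q, hQ⟩ : ∃ Q, P = Polynomial.X * Q + Polynomial.C (P.coeff 0) :=
    ⟨P.divX, (Polynomial.X_mul_divX_add P).symm⟩
  rw [hQ, map_add, map_mul, Polynomial.aeval_X, Polynomial.aeval_C, act_add_right, act_mul,
    hzero, Algebra.algebraMap_eq_smul_one, act_smul_right, act_one] at h1
  have h2 : act (0 : X → ℚ) (Polynomial.aeval z Q) = 0 := by
    funext x
    simp [act]
  rw [h2, zero_add] at h1
  rcases smul_eq_zero.1 h1 with h3 | h3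
  · exact hc0 h3
  · exact hs0' h3

/-- In the multiplicity free case, a minimal space that is annihilated by the class functions
that annihilate another minimal space is equal to it. -/
theorem eq_of_commuting {c : G} (hcc : ∀ x : X, c • c • x = x)
    (hcomm : Commuting G (fun x : X => c • x)) {S S' : Submodule ℚ (X → ℚ)}
    (hS : S ∈ MinInv G (fun x : X => c • x)) (hS' : S' ∈ MinInv G (fun x : X => c • x))
    (hle : killers G (S : Set (X → ℚ)) ≤ killers G (S' : Set (X → ℚ))) : S = S' := by
  classical
  by_contra hne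
  have hK := killers_eq_of_le hS hS' hle
  have horth := orthogonal_of_commuting hcc hcomm hS hS' hne
  obtain ⟨h0, hi, ho, hmin⟩ := hS
  obtain ⟨h0', hi', ho', hmin'⟩ := hS'
  obtain ⟨A, hA, hAS, s, hs, hs0⟩ := exists_equivariant hi h0 hi' h0' hK
  have hAodd : IsOddEnd G (fun x : X => c • x) A :=
    ⟨hA, fun u x => ho' _ (hAS u) x, fun u x => by rw [hA c u x]; exact ho' _ (hAS u) x⟩
  have h1 := hcomm A (proj S) hAodd (isOddEnd_proj hcc hi ho) s
  rw [proj_of_mem S hs, proj_of_orth S (horth (hAS s))] at h1
  exact hs0 h1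

end Pool.Agent.TH170.QC
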