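import Mathlib
import Pool.Agent.TH170.QC.Final2
import Pool.Agent.TH170.QC.Mult
import Pool.Agent.TH170.MF.Final

/-!
# The number of degenerate CM types of an arbitrary CM field: simple and multiple components
-/

set_option linter.unusedSectionVars false
set_option linter.unusedVariables false

namespace Pool.Agent.TH170.QC

open NumberField Finset Module Pool.Agent.H204R3.CM Pool.Agent.TH170.CM Pool.Agent.TH170.MF
  Pool.Agent.TH170.GC

section defs

variable (E : Type*) [Field E] [NumberField E]

/-- The number of the isotypic components of dimension `d` that are minimal Galois-stable spaces. -/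
noncomputable def numSimple (d : ℕ) : ℕ :=
  {W ∈ components E | W ∈ minimalSpaces E ∧ finrank ℚ W = d}.ncard

/-- The isotypic components that are not minimal Galois-stable spaces. -/
noncomputable def multipleComponents : Set (Submodule ℚ ((E →+* ℂ) → ℚ)) :=
  {W ∈ components E | W ∉ minimalSpaces E}

variable {E}

/-- The bound for the proportion of the CM types that are degenerate at a multiple component. -/
noncomputable def multipleWeight (g : ℕ) (φ₀ : E →+* ℂ)
    (W : Submodule ℚ ((E →+* ℂ) → ℚ)) : ℝ :=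
  sInf {x | ∃ S ∈ minimalSpaces E, component S = W ∧ x = term g φ₀ S}

end defs

section

variable {E : Type*} [Field E] [NumberField E]

theorem killers_le_of_le_component {S S' : Submodule ℚ ((E →+* ℂ) → ℚ)}
    (h : S' ≤ component S) : classKillers S ≤ classKillers S' := fun a ha s hs φ =>
  (h hs).2 a ha φ

variable [IsCMField E]

theorem isStable_component (S : Submodule ℚ ((E →+* ℂ) → ℚ)) : IsStable (component S) := by
  classical
  rw [← invariant_iff]
  rintro γ u ⟨h1, h2⟩
  obtain ⟨c, hc, hcc, hcen⟩ := exists_conj E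
  refine ⟨fun φ => ?_, fun a ha φ => ?_⟩
  · change u (γ • ComplexEmbedding.conjugate φ) = - u (γ • φ)
    rw [← hc φ, ← mul_smul, ← hcen, mul_smul, hc, h1]
  · have h3 := oper_smul a u γ φ
    rw [oper_apply, oper_apply] at h3
    rw [← h3]
    exact h2 a ha _

theorem component_of_mf (hE : MultiplicityFree E) {S : Submodule ℚ ((E →+* ℂ) → ℚ)}
    (hS : S ∈ minimalSpaces E) : component S = S := by
  classical
  refine le_antisymm ?_ (le_component hS)
  by_contra hnle
  obtain ⟨u, hu, huS⟩ := SetLike.not_le_iff_exists.1 hnle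
  obtain ⟨c, hc, hcc, hcen⟩ := exists_conj E
  have hfun : (fun φ : E →+* ℂ => c • φ) = ComplexEmbedding.conjugate (K := E) := funext hc
  have hccx : ∀ φ : E →+* ℂ, c • c • φ = φ := fun φ => by rw [smul_smul, hcc, one_smul]
  let S₁ := component S ⊓ (dot (E →+* ℂ)).orthogonal S
  have hS₁0 : S₁ ≠ ⊥ := by
    rw [Submodule.ne_bot_iff]
    refine ⟨u - proj S u, ⟨Submodule.sub_mem _ hu (le_component hS (proj_mem S u)),
      sub_proj_mem S u⟩, ?_⟩
    intro h
    apply huS
    rw [sub_eq_zero] at h
    rw [h]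
    exact proj_mem S u
  have hS₁i : Invariant (Gal E) S₁ := by
    rintro γ s ⟨h1, h2⟩
    refine ⟨(invariant_iff _).2 (isStable_component S) γ s h1, ?_⟩
    rw [SetLike.mem_coe, mem_orth] at h2
    change (fun x => s (γ • x)) ∈ (dot (E →+* ℂ)).orthogonal S
    rw [mem_orth]
    intro t ht
    have h3 := h2 _ ((invariant_iff S).2 hS.2.1 γ⁻¹ t ht)
    rw [← Equiv.sum_comp (MulAction.toPerm γ)] at h3
    simp only [MulAction.toPerm_apply, inv_smul_smul] at h3
    exact h3
  have hS₁o : AllOdd (fun φ : E →+* ℂ => c • φ) S₁ := by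
    rw [hfun]
    exact fun s hs => hs.1.1
  obtain ⟨S', hS', hle⟩ := exists_minInv (G := Gal E) S₁ hS₁i hS₁o hS₁0
  have hcomm : Commuting (Gal E) (fun φ : E →+* ℂ => c • φ) := by
    rw [hfun]
    exact commuting_iff.2 hE
  have hSm : S ∈ MinInv (Gal E) (fun φ : E →+* ℂ => c • φ) := by
    rw [hfun]
    exact (minInv_iff S).2 hS
  have h1 := eq_of_commuting hccx hcomm hSm hS'
    (killers_le_of_le_component fun s hs => (hle hs).1)
  apply hS.1
  rw [eq_bot_iff]
  intro s hs
  have h2 : s ∈ S₁ := hle (h1 ▸ hs)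
  exact (Submodule.disjoint_def.1 (isCompl_orth S).disjoint) s hs h2.2

/-- There are no multiple components in the multiplicity free case. -/
theorem multipleComponents_of_mf (hE : MultiplicityFree E) : multipleComponents E = ∅ := by
  rw [Set.eq_empty_iff_forall_notMem]
  rintro W ⟨⟨S, hS, rfl⟩, hW⟩
  rw [component_of_mf hE hS] at hW
  exact hW hS

variable (E)

/-- The number of one-dimensional components is at most the number of imaginary quadratic
subfields. -/
theorem numSimple_one_le : numSimple E 1 ≤ numImagQuadratic E := by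
  classical
  obtain ⟨L, _, _, j, hj⟩ := exists_galois (fun _ : Unit => E)
  obtain ⟨ψ₀⟩ : Nonempty (E →+* ℂ) := inferInstance
  obtain ⟨φ₀, -⟩ := hj () ψ₀
  have hfin : Finite (IntermediateField ℚ E) :=
    Field.finite_intermediateField_of_exists_primitive_element ℚ E
      (Field.exists_primitive_element ℚ E)
  unfold numSimple numImagQuadratic
  refine Set.ncard_le_ncard_of_injOn (fldE j φ₀) ?_ ?_ (Set.toFinite _)
  · rintro S ⟨-, hS, h1⟩
    obtain ⟨ε, hε, rfl⟩ := exists_signChar hS h1
    exact ⟨finrank_fldE j hε φ₀, not_real_fldE j hε φ₀⟩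
  · rintro S ⟨-, hS, h1⟩ S' ⟨-, hS', h1'⟩ h
    obtain ⟨ε, hε, rfl⟩ := exists_signChar hS h1
    obtain ⟨δ, hδ, rfl⟩ := exists_signChar hS' h1'
    exact fld_inj j hε hδ φ₀ (hj ()) h

/-- **The number of the degenerate CM types of a CM field.** -/
theorem ncard_degenerate_main {g : ℕ} (hg : finrank ℚ E = 2 * g) (φ₀ : E →+* ℂ) :
    ((degenerateTypes E).ncard : ℝ) ≤ 2 ^ g *
      ((if Even g then (numImagQuadratic E : ℝ) / √g else 0) + 2 * (numSimple E 2 + 1) / g +
        3 * numSimple E 3 / (g * √g) + ∑ᶠ W ∈ multipleComponents E, multipleWeight g φ₀ W) := by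
  classical
  have hfin := finite_components (E := E)
  have hg0 : 0 < g := by
    have := Module.finrank_pos (R := ℚ) (M := E)
    omega
  have h2g : (0 : ℝ) < 2 ^ g := by positivity
  set F := hfin.toFinset.filter (fun W => W ∈ minimalSpaces E) with hF
  set F' := hfin.toFinset.filter (fun W => W ∉ minimalSpaces E) with hF'
  have hmul : multipleComponents E = (F' : Set (Submodule ℚ ((E →+* ℂ) → ℚ))) := by
    ext W
    simp only [multipleComponents, hF', coe_filter, Set.Finite.mem_toFinset,
      Set.mem_ofPred_eq]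
  have h1 : degenerateTypes E ⊆ ⋃ W ∈ hfin.toFinset, {Φ : Set (E →+* ℂ) |
      ∃ S ∈ minimalSpaces E, component S = W ∧ Φ ∈ typesOrthogonalTo S} := by
    rintro Φ ⟨hΦ, hd⟩
    obtain ⟨S, hS, hmem⟩ := exists_minimal_of_degenerate hΦ hd
    exact Set.mem_biUnion (hfin.mem_toFinset.2 ⟨S, hS, rfl⟩) ⟨S, hS, rfl, hmem⟩
  let cnt : Submodule ℚ ((E →+* ℂ) → ℚ) → ℝ := fun W => (({Φ : Set (E →+* ℂ) |
      ∃ S ∈ minimalSpaces E, component S = W ∧ Φ ∈ typesOrthogonalTo S}.ncard : ℕ) : ℝ)
  have h2 : ((degenerateTypes E).ncard : ℝ) ≤ ∑ W ∈ hfin.toFinset, cnt W := by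
    have h3 : (degenerateTypes E).ncard ≤ ∑ W ∈ hfin.toFinset, {Φ : Set (E →+* ℂ) |
        ∃ S ∈ minimalSpaces E, component S = W ∧ Φ ∈ typesOrthogonalTo S}.ncard := by
      refine (Set.ncard_le_ncard h1 (Set.toFinite _)).trans ?_
      exact Finset.set_ncard_biUnion_le _ _
    simp only [cnt]
    exact_mod_cast h3
  have h3 : ∑ W ∈ hfin.toFinset, cnt W = ∑ W ∈ F, cnt W + ∑ W ∈ F', cnt W := by
    rw [hF, hF', sum_filter_add_sum_filter_not]
  have hFcomp : ∀ W ∈ F, W ∈ components E ∧ W ∈ minimalSpaces E := by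
    intro W hW
    rw [hF, mem_filter, hfin.mem_toFinset] at hW
    exact hW
  -- the multiple components
  have h4 : ∑ W ∈ F', cnt W ≤
      2 ^ g * ∑ᶠ W ∈ multipleComponents E, multipleWeight g φ₀ W := by
    rw [hmul, finsum_mem_coe_finset, mul_sum]
    refine sum_le_sum fun W hW => ?_
    rw [hF', mem_filter, hfin.mem_toFinset] at hW
    have h5 := ncard_at_component' hg φ₀ hW.1
    rw [weight', if_neg hW.2] at h5
    exact h5
  -- the simple components
  have hselfF : ∀ W ∈ F, component W = W := by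
    intro W hW
    obtain ⟨⟨S, hS, hSW⟩, hWm⟩ := hFcomp W hW
    have h5 : S ≤ W := hSW ▸ le_component hS
    rcases hWm.2.2.2 S hS.2.1 h5 with h6 | h6
    · exact absurd h6 hS.1
    · rw [h6] at hSW
      exact hSW
  have hsumF : ∑ W ∈ F, finrank ℚ W ≤ g := by
    refine sum_finrank_le (c := ComplexEmbedding.conjugate (K := E)) conj_conj conj_ne F
      (fun W hW => (hFcomp W hW).2.2.2.1) ?_ (by rw [Embeddings.card, hg])
    intro W hW W' hW' hne
    refine orth_of_killers_ne ((minInv_iff W).2 (hFcomp W hW).2)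
      ((minInv_iff W').2 (hFcomp W' hW').2) ?_
    intro h
    apply hne
    rw [← hselfF W hW, ← hselfF W' hW']
    exact component_congr h
  have h5 := sum_counts_le F (fun W => finrank ℚ W)
    (fun W hW => finrank_pos_of_minimal E (hFcomp W hW).2) hg0 hsumF
    (fun W => cnt W / 2 ^ g)
    (fun W hW => by
      rw [div_le_iff₀ h2g, mul_comm]
      have h6 := ncard_at_component hg (hFcomp W hW).1
      rw [weight, if_pos (hFcomp W hW).2] at h6
      refine h6.trans (mul_le_mul_of_nonneg_left ?_ h2g.le)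
      split_ifs
      · positivity
      · exact le_rfl)
    (fun hodd W hW hd => by
      have h6 := ncard_at_component hg (hFcomp W hW).1
      rw [weight, if_pos (hFcomp W hW).2, if_pos ⟨hodd, hd⟩, mul_zero] at h6
      have h7 : cnt W = 0 := le_antisymm h6 (Nat.cast_nonneg _)
      rw [h7, zero_div])
  have h6 : ∀ d, ((F.filter (fun W : Submodule ℚ ((E →+* ℂ) → ℚ) => finrank ℚ W = d)).card : ℝ) =
      numSimple E d := by
    intro d
    have h7 : {W ∈ components E | W ∈ minimalSpaces E ∧ finrank ℚ W = d} =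
        ((F.filter (fun W : Submodule ℚ ((E →+* ℂ) → ℚ) => finrank ℚ W = d) :
          Finset (Submodule ℚ ((E →+* ℂ) → ℚ))) : Set (Submodule ℚ ((E →+* ℂ) → ℚ))) := by
      ext W
      simp only [hF, coe_filter, mem_filter, Set.Finite.mem_toFinset,
        Set.mem_ofPred_eq]
      tauto
    unfold numSimple
    rw [h7, Set.ncard_coe_finset]
  rw [h6, h6, h6] at h5
  have h7 : (numSimple E 1 : ℝ) ≤ numImagQuadratic E := by
    exact_mod_cast numSimple_one_le E
  have h8 : (if Even g then (numSimple E 1 : ℝ) / √g else 0) ≤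
      (if Even g then (numImagQuadratic E : ℝ) / √g else 0) := by
    split_ifs
    · exact div_le_div_of_nonneg_right h7 (Real.sqrt_nonneg _)
    · exact le_rfl
  have h9 : ∑ W ∈ F, cnt W = 2 ^ g * ∑ W ∈ F, cnt W / 2 ^ g := by
    rw [mul_sum]
    exact sum_congr rfl fun W _ => by field_simp
  calc ((degenerateTypes E).ncard : ℝ) ≤ ∑ W ∈ F, cnt W + ∑ W ∈ F', cnt W := h2.trans h3.le
    _ ≤ 2 ^ g * ((if Even g then (numImagQuadratic E : ℝ) / √g else 0) +
          2 * (numSimple E 2 + 1) / g + 3 * numSimple E 3 / (g * √g)) +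
        2 ^ g * ∑ᶠ W ∈ multipleComponents E, multipleWeight g φ₀ W := by
        refine add_le_add ?_ h4
        rw [h9]
        refine mul_le_mul_of_nonneg_left (h5.trans ?_) h2g.le
        linarith
    _ = _ := by ring

end

end Pool.Agent.TH170.QC
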